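import Pool.Agent.H1R3.BT.Sys

set_option autoImplicit false
set_option linter.unusedSectionVars false
open MeasureTheory Filter Topology Set
open scoped ComplexConjugate InnerProductSpace Pointwise

namespace Pool.Agent.H1R3.BT

variable {G : Type} [CommGroup G] [TopologicalSpace G] [IsTopologicalGroup G]
  [LocallyCompactSpace G] [T2Space G] [MeasurableSpace G] [BorelSpace G]
  {μ : Measure G} [μ.IsHaarMeasure]
  {H : Type} [NormedAddCommGroup H] [InnerProductSpace ℂ H] [CompleteSpace H]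

section CCbasic

theorem CC.norm_cc {X : Type} [TopologicalSpace X] {f : X → ℂ} (h : CC f) : CC fun x => ‖f x‖ :=
  ⟨h.1.norm, h.2.norm⟩

theorem CC.integrable {f : G → ℂ} (h : CC f) : Integrable f μ :=
  h.1.integrable_of_hasCompactSupport h.2

theorem CC.integrableR {f : G → ℝ} (h : CC f) : Integrable f μ :=
  h.1.integrable_of_hasCompactSupport h.2

theorem CC.sub' {X : Type} [TopologicalSpace X] {f g : X → ℂ} (hf : CC f) (hg : CC g) :
    CC (fun x => f x - g x) := by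
  refine ⟨hf.1.sub hg.1, ?_⟩
  have := HasCompactSupport.add (f := f) (f' := fun x => -g x) hf.2
    (hg.2.comp_left (g := fun z : ℂ => -z) (by simp))
  simpa [Pi.add_def, sub_eq_add_neg] using this

theorem CC.shift' {f : G → ℂ} (h : CC f) (x : G) : CC fun y => f (x * y) :=
  ⟨h.1.comp (continuous_const.mul continuous_id), h.2.comp_homeomorph (Homeomorph.mulLeft x)⟩

theorem CC.mulc {X : Type} [TopologicalSpace X] {f : X → ℂ} (h : CC f) {g : X → ℂ} (hg : Continuous g) :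
    CC fun y => g y * f y :=
  ⟨hg.mul h.1, h.2.mul_left⟩

theorem CC.toC {X : Type} [TopologicalSpace X] {f : X → ℝ} (h : CC f) : CC fun x => (f x : ℂ) :=
  ⟨Complex.continuous_ofReal.comp h.1, h.2.comp_left (g := fun r : ℝ => (r : ℂ)) (by simp)⟩

end CCbasic

variable (S : Sys G μ H)

theorem Sys.star_mul_apply (x : G) (v w : H) : ⟪S.U x v, w⟫_ℂ = ⟪v, S.U x⁻¹ w⟫_ℂ := by
  rw [← S.U_star, ContinuousLinearMap.star_eq_adjoint, ContinuousLinearMap.adjoint_inner_right]

/-- the double commutant of the translations -/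
noncomputable def Sys.A : StarSubalgebra ℂ (H →L[ℂ] H) :=
  StarSubalgebra.centralizer ℂ (Set.centralizer (Set.range S.U))

theorem Sys.mem_A {a : H →L[ℂ] H} :
    a ∈ S.A ↔ ∀ R : H →L[ℂ] H, (∀ x, S.U x * R = R * S.U x) → R * a = a * R := by
  rw [Sys.A, StarSubalgebra.mem_centralizer_iff]
  constructor
  · intro h R hR
    exact (h R (by rw [Set.mem_centralizer_iff]; rintro _ ⟨x, rfl⟩; exact hR x)).1
  · intro h R hR
    rw [Set.mem_centralizer_iff] at hR
    have hR' : ∀ x, S.U x * R = R * S.U x := fun x => hR _ ⟨x, rfl⟩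
    refine ⟨h R hR', h (star R) fun x => ?_⟩
    have := congrArg star (hR' x⁻¹)
    rw [star_mul, star_mul, S.U_star, inv_inv] at this
    exact this.symm

theorem Sys.isClosed_A : IsClosed (S.A : Set (H →L[ℂ] H)) := by
  rw [Sys.A, StarSubalgebra.coe_centralizer]
  exact Set.isClosed_centralizer _

theorem Sys.U_mem (x : G) : S.U x ∈ S.A := by
  rw [S.mem_A]; intro R hR; exact (hR x).symm

theorem Sys.A_comm {a b : H →L[ℂ] H} (ha : a ∈ S.A) (hb : b ∈ S.A) : a * b = b * a := by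
  have h1 : ∀ x, S.U x * b = b * S.U x := by
    intro x
    apply S.mem_A.1 hb
    intro y
    rw [← S.U_mul, ← S.U_mul, mul_comm]
  exact (S.mem_A.1 ha b h1).symm

noncomputable instance Sys.instCS : CStarAlgebra S.A :=
  @StarSubalgebra.cstarAlgebra _ _ _ _ _ _ _ S.A S.isClosed_A

noncomputable instance Sys.instCCS : CommCStarAlgebra S.A :=
  { S.instCS with
    mul_comm := fun a b => Subtype.ext (S.A_comm a.2 b.2) }

abbrev Sys.Δ := WeakDual.characterSpace ℂ S.A

theorem Sys.ext_char {a b : S.A} (h : ∀ m : S.Δ, m a = m b) : a = b := by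
  apply (gelfandStarTransform S.A).injective
  ext m
  exact h m

theorem Sys.exists_of_cont (f : C(S.Δ, ℂ)) : ∃ a : S.A, ∀ m : S.Δ, m a = f m := by
  obtain ⟨a, ha⟩ := (gelfandStarTransform S.A).surjective f
  exact ⟨a, fun m => by rw [← ha]; rfl⟩

theorem Sys.cont_char (a : S.A) : Continuous fun m : S.Δ => m a :=
  map_continuous (WeakDual.gelfandTransform ℂ S.A a)

theorem Sys.char_star (m : S.Δ) (a : S.A) : m (star a) = conj (m a) :=
  DFunLike.congr_fun (gelfandTransform_map_star (A := S.A) a) m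

theorem Sys.char_norm_le (m : S.Δ) (a : S.A) : ‖m a‖ ≤ ‖a‖ := by
  have h1 : ‖WeakDual.gelfandTransform ℂ S.A a‖ = ‖a‖ :=
    (AddMonoidHomClass.isometry_iff_norm _).1 (gelfandTransform_isometry S.A) a
  rw [← h1]
  exact (WeakDual.gelfandTransform ℂ S.A a).norm_coe_le_norm m

/-- positivity principle -/
theorem Sys.pos {a : S.A} (h : ∀ m : S.Δ, 0 ≤ (m a).re) (v : H) :
    0 ≤ (⟪v, (a : H →L[ℂ] H) v⟫_ℂ).re := by
  obtain ⟨b, hb⟩ := S.exists_of_cont
    ⟨fun m => ((Real.sqrt ((m a).re) : ℝ) : ℂ), Complex.continuous_ofReal.comp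
      (Real.continuous_sqrt.comp (Complex.continuous_re.comp (S.cont_char a)))⟩
  have hab : a + star a = (2 : ℂ) • (star b * b) := by
    apply S.ext_char
    intro m
    rw [map_add, map_smul, map_mul, S.char_star, S.char_star, hb]
    simp only [ContinuousMap.coe_mk, Complex.conj_ofReal, smul_eq_mul, ← Complex.ofReal_mul,
      Real.mul_self_sqrt (h m)]
    rw [Complex.add_conj]; push_cast; ring
  have h2 : ⟪v, ((a + star a : S.A) : H →L[ℂ] H) v⟫_ℂ = 2 * ((⟪v, (a : H →L[ℂ] H) v⟫_ℂ).re : ℂ) := by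
    have : ((a + star a : S.A) : H →L[ℂ] H) v = (a : H →L[ℂ] H) v + (star (a : H →L[ℂ] H)) v := rfl
    rw [this, inner_add_right, ContinuousLinearMap.star_eq_adjoint,
      ContinuousLinearMap.adjoint_inner_right, ← inner_conj_symm ((a : H →L[ℂ] H) v) v,
      Complex.add_conj]
    push_cast; ring
  have h3 : ⟪v, (((2 : ℂ) • (star b * b) : S.A) : H →L[ℂ] H) v⟫_ℂ = 2 * ((‖(b : H →L[ℂ] H) v‖ ^ 2 : ℝ) : ℂ) := by
    have : (((2 : ℂ) • (star b * b) : S.A) : H →L[ℂ] H) v =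
      (2 : ℂ) • (star (b : H →L[ℂ] H)) ((b : H →L[ℂ] H) v) := rfl
    rw [this, inner_smul_right, ContinuousLinearMap.star_eq_adjoint,
      ContinuousLinearMap.adjoint_inner_right, inner_self_eq_norm_sq_to_K]
    simp
  rw [hab, h3] at h2
  have h4 : ((‖(b : H →L[ℂ] H) v‖ ^ 2 : ℝ) : ℂ) = ((⟪v, (a : H →L[ℂ] H) v⟫_ℂ).re : ℂ) :=
    mul_left_cancel₀ two_ne_zero h2
  rw [← Complex.ofReal_inj.1 h4]
  positivity

theorem Sys.bnd {a b : S.A} (h : ∀ m : S.Δ, ‖m a‖ ≤ (m b).re) (v : H) :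
    ‖⟪v, (a : H →L[ℂ] H) v⟫_ℂ‖ ≤ (⟪v, (b : H →L[ℂ] H) v⟫_ℂ).re := by
  obtain ⟨θ, hθ1, hθ2⟩ : ∃ θ : ℂ, ‖θ‖ ≤ 1 ∧
      θ * ⟪v, (a : H →L[ℂ] H) v⟫_ℂ = (‖⟪v, (a : H →L[ℂ] H) v⟫_ℂ‖ : ℂ) := by
    set z := ⟪v, (a : H →L[ℂ] H) v⟫_ℂ
    by_cases hz : z = 0
    · exact ⟨0, by simp, by simp [hz]⟩
    · refine ⟨conj z / ‖z‖, ?_, ?_⟩
      · rw [norm_div]; simp [hz]
      · have : (‖z‖ : ℂ) ≠ 0 := by simpa using hz
        field_simp
        rw [mul_comm, Complex.mul_conj, Complex.normSq_eq_norm_sq]; push_cast; ring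
  have := S.pos (a := b - θ • a) (fun m => by
    rw [map_sub, map_smul, smul_eq_mul, Complex.sub_re]
    have h1 : (θ * m a).re ≤ ‖θ * m a‖ := Complex.re_le_norm _
    have h2 : ‖θ * m a‖ ≤ ‖m a‖ := by
      rw [norm_mul]; nlinarith [norm_nonneg (m a)]
    linarith [h m]) v
  have h3 : ((b - θ • a : S.A) : H →L[ℂ] H) v = (b : H →L[ℂ] H) v - θ • (a : H →L[ℂ] H) v := rfl
  rw [h3, inner_sub_right, inner_smul_right, hθ2, Complex.sub_re, Complex.ofReal_re] at this
  linarith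

/-! ### averaging operators -/

theorem Sys.integrable {w : G → ℂ} (hw : CC w) {ψ : G → G} (hψ : Continuous ψ) (v : H) :
    Integrable (fun x => w x • S.U (ψ x) v) μ :=
  Continuous.integrable_of_hasCompactSupport (hw.1.smul ((S.U_cont v).comp hψ)) hw.2.smul_right

/-- the averaging operator `v ↦ ∫ w(x) U_{ψ(x)} v dμ` -/
noncomputable def Sys.P {w : G → ℂ} (hw : CC w) {ψ : G → G} (hψ : Continuous ψ) : H →L[ℂ] H :=
  LinearMap.mkContinuous
    { toFun := fun v => ∫ x, w x • S.U (ψ x) v ∂μ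
      map_add' := fun v v' => by
        rw [← integral_add (S.integrable hw hψ v) (S.integrable hw hψ v')]
        congr 1; ext x; rw [map_add, smul_add]
      map_smul' := fun c v => by
        rw [RingHom.id_apply, ← integral_smul]
        congr 1; ext x; rw [map_smul, smul_comm] }
    (∫ x, ‖w x‖ ∂μ) (fun v => by
      show ‖∫ x, w x • S.U (ψ x) v ∂μ‖ ≤ _
      refine (norm_integral_le_integral_norm _).trans ?_
      rw [← integral_mul_const]
      apply le_of_eq
      congr 1; ext x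
      rw [norm_smul, S.U_norm])

theorem Sys.P_apply {w : G → ℂ} (hw : CC w) {ψ : G → G} (hψ : Continuous ψ) (v : H) :
    S.P hw hψ v = ∫ x, w x • S.U (ψ x) v ∂μ := rfl

theorem Sys.P_norm_le {w : G → ℂ} (hw : CC w) {ψ : G → G} (hψ : Continuous ψ) :
    ‖S.P hw hψ‖ ≤ ∫ x, ‖w x‖ ∂μ :=
  LinearMap.mkContinuous_norm_le _ (integral_nonneg fun _ => norm_nonneg _) _

theorem Sys.P_sub {w w' : G → ℂ} (hw : CC w) (hw' : CC w') {ψ : G → G} (hψ : Continuous ψ) :
    S.P hw hψ - S.P hw' hψ = S.P (hw.sub' hw') hψ := by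
  ext1 v
  rw [sub_apply, S.P_apply, S.P_apply, S.P_apply,
    ← integral_sub (S.integrable hw hψ v) (S.integrable hw' hψ v)]
  congr 1; ext x; rw [sub_smul]

theorem Sys.P_mem {w : G → ℂ} (hw : CC w) {ψ : G → G} (hψ : Continuous ψ) : S.P hw hψ ∈ S.A := by
  rw [S.mem_A]
  intro R hR
  ext1 v
  show R (S.P hw hψ v) = S.P hw hψ (R v)
  rw [S.P_apply, S.P_apply, ← ContinuousLinearMap.integral_comp_comm R (S.integrable hw hψ v)]
  congr 1; ext x
  rw [map_smul]
  congr 1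
  exact (DFunLike.congr_fun (hR (ψ x)) v).symm

noncomputable def Sys.u (x : G) : S.A := ⟨S.U x, S.U_mem x⟩

noncomputable def Sys.p {w : G → ℂ} (hw : CC w) {ψ : G → G} (hψ : Continuous ψ) : S.A :=
  ⟨S.P hw hψ, S.P_mem hw hψ⟩

noncomputable def Sys.pi {w : G → ℂ} (hw : CC w) : S.A := S.p hw continuous_id

theorem Sys.u_mul (x y : G) : S.u (x * y) = S.u x * S.u y := Subtype.ext (S.U_mul x y)
theorem Sys.u_one : S.u 1 = 1 := Subtype.ext S.U_one

theorem Sys.u_norm_le (x : G) : ‖S.u x‖ ≤ 1 := by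
  show ‖S.U x‖ ≤ 1
  refine ContinuousLinearMap.opNorm_le_bound _ zero_le_one fun v => ?_
  rw [S.U_norm, one_mul]

theorem Sys.u_mul_pi {w : G → ℂ} (hw : CC w) (y : G) :
    S.u y * S.pi hw = S.pi (hw.shift' y⁻¹) := by
  apply Subtype.ext
  ext1 v
  show S.U y (S.P hw continuous_id v) = S.P (hw.shift' y⁻¹) continuous_id v
  rw [S.P_apply, S.P_apply, ← ContinuousLinearMap.integral_comp_comm _ (S.integrable hw continuous_id v),
    ← integral_mul_left_eq_self (μ := μ) (fun x => w (y⁻¹ * x) • S.U (id x) v) y]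
  congr 1; ext x
  rw [map_smul, inv_mul_cancel_left]
  congr 1
  simp only [id]
  rw [S.U_mul]; rfl

theorem Sys.cont_u_pi {w : G → ℂ} (hw : CC w) : Continuous fun y => S.u y * S.pi hw := by
  rw [continuous_iff_continuousAt]
  intro y₀
  rw [ContinuousAt, tendsto_iff_norm_sub_tendsto_zero]
  have hle : ∀ y, ‖S.u y * S.pi hw - S.u y₀ * S.pi hw‖ ≤ ∫ x, ‖w (y⁻¹ * x) - w (y₀⁻¹ * x)‖ ∂μ := by
    intro y
    rw [S.u_mul_pi, S.u_mul_pi]
    show ‖S.P (hw.shift' y⁻¹) continuous_id - S.P (hw.shift' y₀⁻¹) continuous_id‖ ≤ _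
    rw [S.P_sub]
    exact S.P_norm_le _ _
  obtain ⟨s, hs, hsy⟩ := exists_compact_mem_nhds y₀
  have hcont : ContinuousOn (fun y => ∫ x, ‖w (y⁻¹ * x) - w (y₀⁻¹ * x)‖ ∂μ) s := by
    apply continuousOn_integral_of_compact_support (k := s * tsupport w ∪ {y₀} * tsupport w)
      ((hs.mul hw.2).union (isCompact_singleton.mul hw.2))
    · have := hw.1
      show ContinuousOn (fun p : G × G => ‖w (p.1⁻¹ * p.2) - w (y₀⁻¹ * p.2)‖) _
      fun_prop
    · intro y x hy hx
      rw [mem_union, not_or] at hx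
      have h1 : w (y⁻¹ * x) = 0 := by
        apply image_eq_zero_of_notMem_tsupport
        intro h
        exact hx.1 (Set.mem_mul.2 ⟨y, hy, y⁻¹ * x, h, by group⟩)
      have h2 : w (y₀⁻¹ * x) = 0 := by
        apply image_eq_zero_of_notMem_tsupport
        intro h
        exact hx.2 (Set.mem_mul.2 ⟨y₀, rfl, y₀⁻¹ * x, h, by group⟩)
      rw [h1, h2]; simp
  have hat : ContinuousAt (fun y => ∫ x, ‖w (y⁻¹ * x) - w (y₀⁻¹ * x)‖ ∂μ) y₀ :=
    hcont.continuousAt hsy
  have h0 : Tendsto (fun y => ∫ x, ‖w (y⁻¹ * x) - w (y₀⁻¹ * x)‖ ∂μ) (𝓝 y₀) (𝓝 0) := by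
    have := hat.tendsto
    simpa using this
  exact squeeze_zero (fun y => norm_nonneg _) hle h0

noncomputable def Sys.ev (v : H) : S.A →L[ℂ] H :=
  LinearMap.mkContinuous
    { toFun := fun a => (a : H →L[ℂ] H) v
      map_add' := fun _ _ => rfl
      map_smul' := fun _ _ => rfl } ‖v‖ (fun a => by
        show ‖(a : H →L[ℂ] H) v‖ ≤ ‖v‖ * ‖a‖
        rw [mul_comm]
        exact (a : H →L[ℂ] H).le_opNorm v)

theorem Sys.p_mul_pi {w : G → ℂ} (hw : CC w) {ψ : G → G} (hψ : Continuous ψ) {g : G → ℂ}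
    (hg : CC g) : S.p hw hψ * S.pi hg = ∫ x, w x • (S.u (ψ x) * S.pi hg) ∂μ := by
  have hint : Integrable (fun x => w x • (S.u (ψ x) * S.pi hg)) μ :=
    Continuous.integrable_of_hasCompactSupport (hw.1.smul ((S.cont_u_pi hg).comp hψ))
      hw.2.smul_right
  apply Subtype.ext
  ext1 v
  have h1 : ((∫ x, w x • (S.u (ψ x) * S.pi hg) ∂μ : S.A) : H →L[ℂ] H) v =
      S.ev v (∫ x, w x • (S.u (ψ x) * S.pi hg) ∂μ) := rfl
  rw [h1, ← ContinuousLinearMap.integral_comp_comm _ hint]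
  show S.P hw hψ (S.P hg continuous_id v) = _
  rw [S.P_apply hw hψ]
  rfl

/-- good characters: those that do not kill all `π(f)` -/
def Sys.good (m : S.Δ) : Prop := ∃ (f : G → ℂ) (hf : CC f), m (S.pi hf) ≠ 0

theorem Sys.char_u_norm (m : S.Δ) (x : G) : ‖m (S.u x)‖ = 1 := by
  have h1 : ‖m (S.u x)‖ ≤ 1 := (S.char_norm_le m _).trans (S.u_norm_le x)
  have h2 : ‖m (S.u x⁻¹)‖ ≤ 1 := (S.char_norm_le m _).trans (S.u_norm_le _)
  have h3 : m (S.u x) * m (S.u x⁻¹) = 1 := by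
    rw [← map_mul, ← S.u_mul, mul_inv_cancel, S.u_one, map_one]
  have h4 : ‖m (S.u x)‖ * ‖m (S.u x⁻¹)‖ = 1 := by rw [← norm_mul, h3, norm_one]
  nlinarith [norm_nonneg (m (S.u x)), norm_nonneg (m (S.u x⁻¹))]

theorem Sys.cont_mu {f : G → ℂ} (hf : CC f) :
    Continuous fun q : S.Δ × G => q.1 (S.u q.2 * S.pi hf) := by
  have h1 : Continuous fun x : G => WeakDual.gelfandTransform ℂ S.A (S.u x * S.pi hf) :=
    (gelfandTransform_isometry S.A).continuous.comp (S.cont_u_pi hf)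
  have h2 : Continuous fun q : S.Δ × G =>
      (WeakDual.gelfandTransform ℂ S.A (S.u q.2 * S.pi hf)) q.1 :=
    (h1.comp continuous_snd).eval continuous_fst
  exact h2

theorem Sys.contAt_char_u {m : S.Δ} (hm : S.good m) (x : G) :
    ContinuousAt (fun q : S.Δ × G => q.1 (S.u q.2)) (m, x) := by
  obtain ⟨f, hf, hne⟩ := hm
  have h1 : ContinuousAt (fun q : S.Δ × G => q.1 (S.u q.2 * S.pi hf) / q.1 (S.pi hf)) (m, x) :=
    (S.cont_mu hf).continuousAt.div ((S.cont_char _).comp continuous_fst).continuousAt hne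
  refine h1.congr ?_
  have h2 : ∀ᶠ q : S.Δ × G in 𝓝 (m, x), q.1 (S.pi hf) ≠ 0 :=
    ((S.cont_char _).comp continuous_fst).continuousAt.eventually_ne hne
  filter_upwards [h2] with q hq
  rw [map_mul, mul_div_assoc, div_self hq, mul_one]

noncomputable def Sys.κhom (m : S.Δ) : G →* Circle where
  toFun x := ⟨m (S.u x), mem_sphere_zero_iff_norm.2 (S.char_u_norm m x)⟩
  map_one' := by
    apply Circle.ext
    show m (S.u 1) = 1
    rw [S.u_one, map_one]
  map_mul' x y := by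
    apply Circle.ext
    show m (S.u (x * y)) = m (S.u x) * m (S.u y)
    rw [S.u_mul, map_mul]

theorem Sys.κhom_cont {m : S.Δ} (hm : S.good m) : Continuous (S.κhom m) := by
  apply Continuous.subtype_mk (p := fun z : ℂ => z ∈ Submonoid.unitSphere ℂ)
  rw [continuous_iff_continuousAt]
  intro x
  exact (S.contAt_char_u hm x).comp (f := fun y : G => (m, y)) (by fun_prop)

noncomputable def Sys.κc {m : S.Δ} (h : S.good m) : PontryaginDual G :=
  (⟨S.κhom m, S.κhom_cont h⟩ : G →ₜ* Circle)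

noncomputable def Sys.κ (m : S.Δ) : PontryaginDual G := by
  classical
  exact if h : S.good m then S.κc h else 1

theorem Sys.κ_apply {m : S.Δ} (h : S.good m) (x : G) : ((S.κ m x : Circle) : ℂ) = m (S.u x) := by
  rw [Sys.κ, dif_pos h]; rfl

theorem Sys.good_open : IsOpen {m : S.Δ | S.good m} := by
  have : {m : S.Δ | S.good m} = ⋃ (f : G → ℂ) (hf : CC f), {m : S.Δ | m (S.pi hf) ≠ 0} := by
    ext m; simp [Sys.good]
  rw [this]
  exact isOpen_iUnion fun f => isOpen_iUnion fun hf => isOpen_ne_fun (S.cont_char _) continuous_const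

theorem Sys.κ_contOn : ContinuousOn S.κ {m : S.Δ | S.good m} := by
  rw [continuousOn_iff_continuous_domRestrict]
  apply ContinuousMonoidHom.continuous_of_continuous_uncurry
  rw [continuous_iff_continuousAt]
  rintro ⟨⟨m, hm⟩, x⟩
  have h1 : ContinuousAt (fun q : {m : S.Δ | S.good m} × G => ((q.1 : S.Δ)) (S.u q.2)) (⟨m, hm⟩, x) :=
    ContinuousAt.comp (x := ((⟨m, hm⟩, x) : {m : S.Δ | S.good m} × G))
      (f := fun q : {m : S.Δ | S.good m} × G => ((q.1 : S.Δ), q.2))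
      (g := fun q : S.Δ × G => q.1 (S.u q.2)) (S.contAt_char_u hm x)
      ((continuous_subtype_val.comp continuous_fst).prodMk continuous_snd).continuousAt
  have hind : Topology.IsInducing (fun z : Circle => (z : ℂ)) := Topology.IsInducing.subtypeVal
  rw [hind.continuousAt_iff]
  exact h1.congr (Filter.Eventually.of_forall fun q => (S.κ_apply q.1.2 q.2).symm)

theorem Sys.char_p {m : S.Δ} (hm : S.good m) {w : G → ℂ} (hw : CC w) {ψ : G → G}
    (hψ : Continuous ψ) : m (S.p hw hψ) = ∫ x, w x * ((S.κ m (ψ x) : Circle) : ℂ) ∂μ := by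
  obtain ⟨g, hg, hne⟩ := hm
  have hm : S.good m := ⟨g, hg, hne⟩
  apply mul_right_cancel₀ hne
  rw [← map_mul, S.p_mul_pi hw hψ hg]
  have hint : Integrable (fun x => w x • (S.u (ψ x) * S.pi hg)) μ :=
    Continuous.integrable_of_hasCompactSupport (hw.1.smul ((S.cont_u_pi hg).comp hψ))
      hw.2.smul_right
  have := ContinuousLinearMap.integral_comp_comm (WeakDual.CharacterSpace.toCLM m) hint
  rw [WeakDual.CharacterSpace.coe_toCLM] at this
  rw [← this, ← integral_mul_const]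
  congr 1; ext x
  rw [map_smul, map_mul, S.κ_apply hm, smul_eq_mul, mul_assoc]

end Pool.Agent.H1R3.BT
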