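import Pool.Agent.H1R3.BT.Alg

set_option autoImplicit false
set_option linter.unusedSectionVars false
open MeasureTheory Filter Topology Set
open scoped ComplexConjugate InnerProductSpace Pointwise

namespace Pool.Agent.H1R3.BT

variable {G : Type} [CommGroup G] [TopologicalSpace G] [IsTopologicalGroup G]
  [LocallyCompactSpace G] [T2Space G] [MeasurableSpace G] [BorelSpace G]
  {μ : Measure G} [μ.IsHaarMeasure]
  {H : Type} [NormedAddCommGroup H] [InnerProductSpace ℂ H] [CompleteSpace H]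

theorem cont_eval : Continuous fun q : PontryaginDual G × G => ((q.1 q.2 : Circle) : ℂ) := by
  have h1 : Continuous fun q : (G →ₜ* Circle) × G => q.1 q.2 :=
    continuous_fst.eval continuous_snd
  exact continuous_subtype_val.comp h1

theorem cont_char (χ : PontryaginDual G) : Continuous fun x : G => ((χ x : Circle) : ℂ) :=
  cont_eval.comp (f := fun x : G => (χ, x)) (by fun_prop)

theorem dual_mul_apply (χ ψ : PontryaginDual G) (x : G) :
    (((χ * ψ) x : Circle) : ℂ) = ((χ x : Circle) : ℂ) * ((ψ x : Circle) : ℂ) := rfl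

theorem dual_inv_apply (χ : PontryaginDual G) (x : G) :
    ((χ⁻¹ x : Circle) : ℂ) = (((χ x)⁻¹ : Circle) : ℂ) := rfl

theorem norm_char (χ : PontryaginDual G) (x : G) : ‖((χ x : Circle) : ℂ)‖ = 1 := Circle.norm_coe _

/-- Fourier transform -/
noncomputable def ft (μ : Measure G) (w : G → ℂ) (χ : PontryaginDual G) : ℂ :=
  ∫ x, w x * ((χ x : Circle) : ℂ) ∂μ

theorem ft_cont {w : G → ℂ} (hw : CC w) : Continuous (ft μ w) := by
  rw [← continuousOn_univ]
  apply continuousOn_integral_of_compact_support hw.2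
  · show ContinuousOn (fun q : PontryaginDual G × G => w q.2 * ((q.1 q.2 : Circle) : ℂ)) _
    exact ((hw.1.comp continuous_snd).mul cont_eval).continuousOn
  · intro p x _ hx
    rw [image_eq_zero_of_notMem_tsupport hx, zero_mul]

theorem CC.mulR {X : Type} [TopologicalSpace X] {f : X → ℝ} (h : CC f) {g : X → ℝ} (hg : Continuous g) :
    CC fun y => g y * f y :=
  ⟨hg.mul h.1, h.2.mul_left⟩

theorem CC.mul_char {w : G → ℂ} (hw : CC w) (χ : PontryaginDual G) :
    CC fun x => w x * ((χ x : Circle) : ℂ) := by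
  have := hw.mulc (cont_char χ)
  simpa [mul_comm] using this

theorem CC.tw {w : G → ℂ} (hw : CC w) (χ : PontryaginDual G) :
    CC fun x => ((χ x : Circle) : ℂ) * w x := hw.mulc (cont_char χ)

/-- bump functions of integral one near the identity -/
theorem exists_unit {O : Set G} (hO : IsOpen O) (h1 : (1 : G) ∈ O) :
    ∃ p : G → ℝ, CC p ∧ (∀ x, 0 ≤ p x) ∧ ∫ x, p x ∂μ = 1 ∧ tsupport p ⊆ O := by
  obtain ⟨f, hf1, hf2, hf3, hf4⟩ := exists_continuousMap_one_of_isCompact_subset_isOpen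
    (isCompact_singleton (x := (1 : G))) hO (by simpa using h1)
  have hf1' : f 1 = 1 := hf1 rfl
  have hpos : 0 < ∫ x, f x ∂μ :=
    f.continuous.integral_pos_of_hasCompactSupport_nonneg_nonzero hf2 (fun x => (hf4 x).1)
      (x := 1) (by rw [hf1']; norm_num)
  refine ⟨fun x => (∫ x, f x ∂μ)⁻¹ * f x, ⟨by fun_prop, ?_⟩, ?_, ?_, ?_⟩
  · exact HasCompactSupport.mul_left (f := fun _ : G => (∫ x, f x ∂μ)⁻¹) hf2
  · intro x; exact mul_nonneg (inv_nonneg.2 hpos.le) (hf4 x).1
  · rw [integral_const_mul, inv_mul_cancel₀ hpos.ne']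
  · refine Subset.trans ?_ hf3
    exact tsupport_mul_subset_right (f := fun _ : G => (∫ x, f x ∂μ)⁻¹) (g := f)

theorem ft_sub_one {p : G → ℝ} (hp : CC p) (hp0 : ∀ x, 0 ≤ p x) (hp1 : ∫ x, p x ∂μ = 1)
    {χ : PontryaginDual G} {δ : ℝ} (h : ∀ x ∈ tsupport p, ‖((χ x : Circle) : ℂ) - 1‖ ≤ δ) :
    ‖ft μ (fun x => (p x : ℂ)) χ - 1‖ ≤ δ := by
  have h1 : ft μ (fun x => (p x : ℂ)) χ - 1 = ∫ x, (p x : ℂ) * (((χ x : Circle) : ℂ) - 1) ∂μ := by
    have : (1 : ℂ) = ∫ x, (p x : ℂ) ∂μ := by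
      rw [integral_complex_ofReal, hp1]; simp
    rw [this, ft, ← integral_sub (hp.toC.mul_char χ).integrable hp.toC.integrable, ← this]
    congr 1; ext x; ring
  rw [h1]
  refine (norm_integral_le_integral_norm _).trans ?_
  calc ∫ x, ‖(p x : ℂ) * (((χ x : Circle) : ℂ) - 1)‖ ∂μ ≤ ∫ x, p x * δ ∂μ := by
        apply integral_mono
        · exact ((hp.toC.mulc (g := fun x => ((χ x : Circle) : ℂ) - 1)
            ((cont_char χ).sub continuous_const)).norm_cc.integrableR).congr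
              (Filter.Eventually.of_forall fun x => by simp [mul_comm])
        · exact hp.integrableR.mul_const δ
        · intro x
          simp only [norm_mul, Complex.norm_real, Real.norm_eq_abs, abs_of_nonneg (hp0 x)]
          by_cases hx : x ∈ tsupport p
          · exact mul_le_mul_of_nonneg_left (h x hx) (hp0 x)
          · rw [image_eq_zero_of_notMem_tsupport hx]; simp
    _ = δ := by rw [integral_mul_const, hp1, one_mul]

theorem exists_p {L : Set (PontryaginDual G)} (hL : IsCompact L) :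
    ∃ p : G → ℝ, CC p ∧ (∀ x, 0 ≤ p x) ∧ ∫ x, p x ∂μ = 1 ∧
      ∀ χ ∈ L, 1 / 2 ≤ ‖ft μ (fun x => (p x : ℂ)) χ‖ := by
  have hn : IsOpen {q : PontryaginDual G × G | ‖((q.1 q.2 : Circle) : ℂ) - 1‖ < 1 / 2} :=
    isOpen_lt (cont_eval.sub continuous_const).norm continuous_const
  obtain ⟨u, v, hu, hv, hLu, h1v, huv⟩ := generalized_tube_lemma hL
    (isCompact_singleton (x := (1 : G))) hn (by
      rintro ⟨χ, x⟩ ⟨_, hx⟩
      have hx' : x = 1 := hx
      subst hx'
      simp only [Set.mem_ofPred_eq, map_one, Circle.coe_one, sub_self, norm_zero]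
      norm_num)
  obtain ⟨p, hp, hp0, hp1, hpv⟩ := exists_unit (μ := μ) hv (h1v rfl)
  refine ⟨p, hp, hp0, hp1, fun χ hχ => ?_⟩
  have := ft_sub_one hp hp0 hp1 (χ := χ) (δ := 1 / 2) (fun x hx => by
    have : ((χ, x) : PontryaginDual G × G) ∈ u ×ˢ v := ⟨hLu hχ, hpv hx⟩
    exact (huv this).le)
  have h2 : (1 : ℝ) = ‖(1 : ℂ)‖ := by simp
  have h3 : ‖(1 : ℂ)‖ ≤ ‖ft μ (fun x => (p x : ℂ)) χ‖ + ‖ft μ (fun x => (p x : ℂ)) χ - 1‖ := by
    have : (1 : ℂ) = ft μ (fun x => (p x : ℂ)) χ - (ft μ (fun x => (p x : ℂ)) χ - 1) := by ring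
    conv_lhs => rw [this]
    exact norm_sub_le _ _
  linarith

variable (S : Sys G μ H)

/-- approximate identity -/
theorem Sys.approx_id (v : H) {ε : ℝ} (hε : 0 < ε) :
    ∃ (p : G → ℝ) (hp : CC p), (∀ x, 0 ≤ p x) ∧ ∫ x, p x ∂μ = 1 ∧
      ‖((S.pi hp.toC : S.A) : H →L[ℂ] H) v - v‖ ≤ ε := by
  have hO : IsOpen {x : G | ‖S.U x v - v‖ < ε} :=
    isOpen_lt ((S.U_cont v).sub continuous_const).norm continuous_const
  obtain ⟨p, hp, hp0, hp1, hpO⟩ := exists_unit (μ := μ) hO (by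
    simp [S.U_one, hε])
  refine ⟨p, hp, hp0, hp1, ?_⟩
  have h1 : ((S.pi hp.toC : S.A) : H →L[ℂ] H) v - v = ∫ x, (p x : ℂ) • (S.U x v - v) ∂μ := by
    have h2 : v = ∫ x, (p x : ℂ) • v ∂μ := by
      rw [integral_smul_const, integral_complex_ofReal, hp1]; simp
    conv_lhs => rw [h2]
    show S.P hp.toC continuous_id _ - _ = _
    rw [← h2, S.P_apply]
    conv_lhs => arg 2; rw [h2]
    rw [← integral_sub (S.integrable hp.toC continuous_id v)
      (hp.toC.integrable.smul_const v)]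
    congr 1; ext x; rw [smul_sub]; rfl
  rw [h1]
  refine (norm_integral_le_integral_norm _).trans ?_
  calc ∫ x, ‖(p x : ℂ) • (S.U x v - v)‖ ∂μ ≤ ∫ x, p x * ε ∂μ := by
        apply integral_mono
        · apply Continuous.integrable_of_hasCompactSupport
          · exact (hp.toC.1.smul ((S.U_cont v).sub continuous_const)).norm
          · exact (HasCompactSupport.smul_right (f' := fun x => S.U x v - v) hp.toC.2).norm
        · exact hp.integrableR.mul_const ε
        · intro x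
          simp only [norm_smul, Complex.norm_real, Real.norm_eq_abs, abs_of_nonneg (hp0 x)]
          by_cases hx : x ∈ tsupport p
          · exact mul_le_mul_of_nonneg_left (hpO hx).le (hp0 x)
          · rw [image_eq_zero_of_notMem_tsupport hx]; simp
    _ = ε := by rw [integral_mul_const, hp1, one_mul]

/-! ### the operators `T F` -/

open Classical in
noncomputable def Sys.sharp (F : PontryaginDual G → ℂ) (m : S.Δ) : ℂ :=
  if S.good m then F (S.κ m) else 0

theorem Sys.sharp_good (F : PontryaginDual G → ℂ) {m : S.Δ} (hm : S.good m) :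
    S.sharp F m = F (S.κ m) := if_pos hm

theorem Sys.sharp_bad (F : PontryaginDual G → ℂ) {m : S.Δ} (hm : ¬ S.good m) :
    S.sharp F m = 0 := if_neg hm

theorem Sys.char_pi {m : S.Δ} (hm : S.good m) {w : G → ℂ} (hw : CC w) :
    m (S.pi hw) = ft μ w (S.κ m) := S.char_p hm hw continuous_id

theorem Sys.char_pi_bad {m : S.Δ} (hm : ¬ S.good m) {w : G → ℂ} (hw : CC w) :
    m (S.pi hw) = 0 := by
  by_contra h
  exact hm ⟨w, hw, h⟩

theorem Sys.sharp_cont {F : PontryaginDual G → ℂ} (hF : CC F) : Continuous (S.sharp F) := by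
  obtain ⟨p, hp, -, -, hpL⟩ := exists_p (μ := μ) hF.2
  rw [continuous_iff_continuousAt]
  intro m
  by_cases hm : S.good m
  · have h1 : ContinuousAt (fun m => F (S.κ m)) m :=
      hF.1.continuousAt.comp (S.κ_contOn.continuousAt (S.good_open.mem_nhds hm))
    refine h1.congr ?_
    filter_upwards [S.good_open.mem_nhds hm] with m' hm'
    exact (S.sharp_good F hm').symm
  · have h0 : m (S.pi hp.toC) = 0 := S.char_pi_bad hm _
    have h1 : ∀ᶠ m' in 𝓝 m, ‖m' (S.pi hp.toC)‖ < 1 / 2 := by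
      have : ContinuousAt (fun m' : S.Δ => ‖m' (S.pi hp.toC)‖) m := (S.cont_char _).norm.continuousAt
      apply this.eventually_lt continuousAt_const
      rw [h0]; norm_num
    have h2 : (fun _ => (0 : ℂ)) =ᶠ[𝓝 m] S.sharp F := by
      filter_upwards [h1] with m' hm'
      by_cases hg : S.good m'
      · rw [S.sharp_good F hg]
        by_contra hne
        have hin : S.κ m' ∈ tsupport F := subset_tsupport _ (Ne.symm hne)
        have := hpL _ hin
        rw [← S.char_pi hg hp.toC] at this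
        linarith
      · rw [S.sharp_bad F hg]
    exact continuousAt_const.congr h2

noncomputable def Sys.T {F : PontryaginDual G → ℂ} (hF : CC F) : S.A :=
  (S.exists_of_cont ⟨S.sharp F, S.sharp_cont hF⟩).choose

theorem Sys.char_T {F : PontryaginDual G → ℂ} (hF : CC F) (m : S.Δ) :
    m (S.T hF) = S.sharp F m :=
  (S.exists_of_cont ⟨S.sharp F, S.sharp_cont hF⟩).choose_spec m

/-! ### conjugation by characters -/

theorem Sys.star_U_M (χ : PontryaginDual G) (x : G) :
    star (S.M χ) * S.U x * S.M χ = (((χ x)⁻¹ : Circle) : ℂ) • S.U x := by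
  rw [mul_assoc, S.UM, mul_smul_comm, ← mul_assoc, S.M_star_mul, one_mul]

theorem Sys.conj_mem {a : H →L[ℂ] H} (ha : a ∈ S.A) (χ : PontryaginDual G) :
    star (S.M χ) * a * S.M χ ∈ S.A := by
  rw [S.mem_A]
  intro R hR
  have h1 : ∀ x, S.U x * (S.M χ * R * star (S.M χ)) = (S.M χ * R * star (S.M χ)) * S.U x := by
    intro x
    set c : ℂ := (((χ x)⁻¹ : Circle) : ℂ)
    have hUM : S.U x * S.M χ = c • (S.M χ * S.U x) := S.UM χ x
    have hsU : c • (S.U x * star (S.M χ)) = star (S.M χ) * S.U x := by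
      have h := S.star_U_M χ x
      have h2 := congrArg (fun z => z * star (S.M χ)) h
      simp only [mul_assoc, S.M_mul_star, mul_one, smul_mul_assoc] at h2
      exact h2.symm
    calc S.U x * (S.M χ * R * star (S.M χ)) = (S.U x * S.M χ) * R * star (S.M χ) := by
          simp only [mul_assoc]
      _ = c • (S.M χ * (S.U x * R) * star (S.M χ)) := by
          rw [hUM]; simp only [smul_mul_assoc, mul_assoc]
      _ = c • (S.M χ * R * (S.U x * star (S.M χ))) := by rw [hR]; simp only [mul_assoc]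
      _ = S.M χ * R * (star (S.M χ) * S.U x) := by rw [← hsU, mul_smul_comm]
      _ = (S.M χ * R * star (S.M χ)) * S.U x := by simp only [mul_assoc]
  have h2 := S.mem_A.1 ha _ h1
  have h3 := congrArg (fun z => star (S.M χ) * z * S.M χ) h2
  calc R * (star (S.M χ) * a * S.M χ)
      = (star (S.M χ) * S.M χ) * R * (star (S.M χ) * a * S.M χ) := by rw [S.M_star_mul, one_mul]
    _ = star (S.M χ) * (S.M χ * R * star (S.M χ) * a) * S.M χ := by simp only [mul_assoc]
    _ = star (S.M χ) * (a * (S.M χ * R * star (S.M χ))) * S.M χ := h3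
    _ = (star (S.M χ) * a * S.M χ) * R * (star (S.M χ) * S.M χ) := by simp only [mul_assoc]
    _ = (star (S.M χ) * a * S.M χ) * R := by rw [S.M_star_mul, mul_one]

noncomputable def Sys.α (χ : PontryaginDual G) : S.A →⋆ₐ[ℂ] S.A where
  toFun a := ⟨star (S.M χ) * (a : H →L[ℂ] H) * S.M χ, S.conj_mem a.2 χ⟩
  map_one' := Subtype.ext (by
    show star (S.M χ) * 1 * S.M χ = 1
    rw [mul_one, S.M_star_mul])
  map_mul' a b := Subtype.ext (by
    show star (S.M χ) * ((a : H →L[ℂ] H) * b) * S.M χ =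
      (star (S.M χ) * (a : H →L[ℂ] H) * S.M χ) * (star (S.M χ) * (b : H →L[ℂ] H) * S.M χ)
    calc _ = star (S.M χ) * (a : H →L[ℂ] H) * (1 * (b * S.M χ)) := by
          simp only [mul_assoc, one_mul]
      _ = star (S.M χ) * (a : H →L[ℂ] H) * ((S.M χ * star (S.M χ)) * (b * S.M χ)) := by
          rw [S.M_mul_star]
      _ = _ := by simp only [mul_assoc])
  map_zero' := Subtype.ext (by
    show star (S.M χ) * 0 * S.M χ = 0
    rw [mul_zero, zero_mul])
  map_add' a b := Subtype.ext (by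
    show star (S.M χ) * ((a : H →L[ℂ] H) + b) * S.M χ = _
    rw [mul_add, add_mul]; rfl)
  commutes' c := Subtype.ext (by
    show star (S.M χ) * (algebraMap ℂ (H →L[ℂ] H) c) * S.M χ = algebraMap ℂ (H →L[ℂ] H) c
    rw [Algebra.algebraMap_eq_smul_one, mul_smul_comm, mul_one, smul_mul_assoc, S.M_star_mul])
  map_star' a := Subtype.ext (by
    show star (S.M χ) * star (a : H →L[ℂ] H) * S.M χ = star (star (S.M χ) * (a : H →L[ℂ] H) * S.M χ)
    rw [star_mul, star_mul, star_star, mul_assoc])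

theorem Sys.α_coe (χ : PontryaginDual G) (a : S.A) :
    ((S.α χ a : S.A) : H →L[ℂ] H) = star (S.M χ) * (a : H →L[ℂ] H) * S.M χ := rfl

noncomputable def Sys.τ (χ : PontryaginDual G) (m : S.Δ) : S.Δ :=
  WeakDual.CharacterSpace.compContinuousMap (S.α χ) m

theorem Sys.τ_apply (χ : PontryaginDual G) (m : S.Δ) (a : S.A) : S.τ χ m a = m (S.α χ a) := rfl

theorem Sys.α_u (χ : PontryaginDual G) (x : G) :
    S.α χ (S.u x) = (((χ x)⁻¹ : Circle) : ℂ) • S.u x := Subtype.ext (S.star_U_M χ x)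

theorem Sys.α_pi (χ : PontryaginDual G) {w : G → ℂ} (hw : CC w) :
    S.α χ (S.pi hw) = S.pi (hw.tw χ⁻¹) := by
  apply Subtype.ext
  ext1 v
  show star (S.M χ) (S.P hw continuous_id (S.M χ v)) = S.P (hw.tw χ⁻¹) continuous_id v
  rw [S.P_apply, S.P_apply, ← ContinuousLinearMap.integral_comp_comm _ (S.integrable hw continuous_id _)]
  congr 1; ext x
  have h := DFunLike.congr_fun (S.star_U_M χ x) v
  rw [map_smul]
  have h' : star (S.M χ) (S.U x (S.M χ v)) = (((χ x)⁻¹ : Circle) : ℂ) • S.U x v := h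
  simp only [id]
  rw [h', smul_smul, dual_inv_apply, mul_comm]

theorem Sys.pi_congr {w w' : G → ℂ} (h : ∀ x, w x = w' x) (hw : CC w) (hw' : CC w') :
    S.pi hw = S.pi hw' := by
  have : w = w' := funext h
  subst this; rfl

theorem tw_tw_inv {w : G → ℂ} (χ : PontryaginDual G) (x : G) :
    ((χ⁻¹ x : Circle) : ℂ) * (((χ x : Circle) : ℂ) * w x) = w x := by
  rw [dual_inv_apply, Circle.coe_inv, ← mul_assoc, inv_mul_cancel₀ (Circle.coe_ne_zero _), one_mul]

theorem Sys.good_τ {χ : PontryaginDual G} {m : S.Δ} : S.good (S.τ χ m) ↔ S.good m := by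
  constructor
  · rintro ⟨f, hf, h⟩
    rw [S.τ_apply, S.α_pi] at h
    exact ⟨_, _, h⟩
  · rintro ⟨f, hf, h⟩
    refine ⟨_, hf.tw χ, ?_⟩
    rw [S.τ_apply, S.α_pi, S.pi_congr (fun x => tw_tw_inv χ x) _ hf]
    exact h

theorem Sys.κ_τ {χ : PontryaginDual G} {m : S.Δ} (hm : S.good m) :
    S.κ (S.τ χ m) = χ⁻¹ * S.κ m := by
  apply PontryaginDual.ext
  intro x
  apply Circle.ext
  rw [S.κ_apply (S.good_τ.2 hm), S.τ_apply, S.α_u, map_smul, dual_mul_apply, S.κ_apply hm]
  rfl

/-! ### the functional and the key identity -/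

theorem Sys.pi_ι {f g : G → ℂ} (hf : CC f) (hg : CC g) :
    ((S.pi hf : S.A) : H →L[ℂ] H) (S.ι g) = ((S.pi hg : S.A) : H →L[ℂ] H) (S.ι f) :=
  S.comm f g hf hg

theorem Sys.inner_star_mul (a b : S.A) (v : H) :
    ⟪v, ((star b * (a * b) : S.A) : H →L[ℂ] H) v⟫_ℂ =
      ⟪(b : H →L[ℂ] H) v, (a : H →L[ℂ] H) ((b : H →L[ℂ] H) v)⟫_ℂ := by
  have : ((star b * (a * b) : S.A) : H →L[ℂ] H) v =
      (star (b : H →L[ℂ] H)) ((a : H →L[ℂ] H) ((b : H →L[ℂ] H) v)) := rfl
  rw [this, ContinuousLinearMap.star_eq_adjoint, ContinuousLinearMap.adjoint_inner_right]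

theorem Sys.inner_α (χ : PontryaginDual G) (a : S.A) (v : H) :
    ⟪v, ((S.α χ a : S.A) : H →L[ℂ] H) v⟫_ℂ = ⟪S.M χ v, (a : H →L[ℂ] H) (S.M χ v)⟫_ℂ := by
  have : ((S.α χ a : S.A) : H →L[ℂ] H) v =
      (star (S.M χ)) ((a : H →L[ℂ] H) (S.M χ v)) := rfl
  rw [this, ContinuousLinearMap.star_eq_adjoint, ContinuousLinearMap.adjoint_inner_right]

theorem ft_tw {w : G → ℂ} (χ κ : PontryaginDual G) :
    ft μ (fun x => ((χ x : Circle) : ℂ) * w x) κ = ft μ w (χ * κ) := by
  unfold ft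
  congr 1; ext x
  rw [dual_mul_apply]; ring

theorem Sys.keyC {p : G → ℂ} (hp : CC p) {F : PontryaginDual G → ℂ} (hF : CC F)
    (χ : PontryaginDual G)
    (h1 : CC fun κ => F κ * ((‖ft μ p (χ * κ)‖ ^ 2 : ℝ) : ℂ))
    (h2 : CC fun κ => F (χ⁻¹ * κ) * ((‖ft μ p (χ⁻¹ * κ)‖ ^ 2 : ℝ) : ℂ)) :
    ⟪S.ι p, ((S.T h1 : S.A) : H →L[ℂ] H) (S.ι p)⟫_ℂ =
      ⟪S.ι p, ((S.T h2 : S.A) : H →L[ℂ] H) (S.ι p)⟫_ℂ := by
  have e1 : S.T h1 = star (S.pi (hp.tw χ)) * (S.T hF * S.pi (hp.tw χ)) := by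
    apply S.ext_char
    intro m
    rw [map_mul, map_mul, S.char_star, S.char_T, S.char_T]
    by_cases hm : S.good m
    · rw [S.sharp_good _ hm, S.sharp_good _ hm, S.char_pi hm, ft_tw]
      rw [← Complex.normSq_eq_norm_sq, ← Complex.mul_conj]; ring
    · rw [S.sharp_bad _ hm, S.sharp_bad _ hm]; ring
  have e2 : S.T h2 = S.α χ (star (S.pi hp) * (S.T hF * S.pi hp)) := by
    apply S.ext_char
    intro m
    rw [← S.τ_apply, map_mul, map_mul, S.char_star, S.char_T, S.char_T]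
    by_cases hm : S.good m
    · rw [S.sharp_good _ hm, S.sharp_good _ (S.good_τ.2 hm), S.char_pi (S.good_τ.2 hm), S.κ_τ hm]
      rw [← Complex.normSq_eq_norm_sq, ← Complex.mul_conj]; ring
    · rw [S.sharp_bad _ hm, S.sharp_bad _ (fun h => hm (S.good_τ.1 h))]; ring
  rw [e1, e2, S.inner_star_mul, S.inner_α, S.inner_star_mul, S.pi_ι (hp.tw χ) hp, S.M_ι χ p hp]

/-- the positive functional `Λ_v(F) = Re⟨v, T_F v⟩` -/
noncomputable def Sys.Lam (v : H) {F : PontryaginDual G → ℝ} (hF : CC F) : ℝ :=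
  (⟪v, ((S.T hF.toC : S.A) : H →L[ℂ] H) v⟫_ℂ).re

theorem Sys.keyCR {p : G → ℂ} (hp : CC p) {F : PontryaginDual G → ℝ} (hF : CC F)
    (χ : PontryaginDual G)
    (h1 : CC fun κ => F κ * ‖ft μ p (χ * κ)‖ ^ 2)
    (h2 : CC fun κ => F (χ⁻¹ * κ) * ‖ft μ p (χ⁻¹ * κ)‖ ^ 2) :
    S.Lam (S.ι p) h1 = S.Lam (S.ι p) h2 := by
  have h1' : CC fun κ => (F κ : ℂ) * ((‖ft μ p (χ * κ)‖ ^ 2 : ℝ) : ℂ) := by
    have := h1.toC; simpa using this
  have h2' : CC fun κ => (F (χ⁻¹ * κ) : ℂ) * ((‖ft μ p (χ⁻¹ * κ)‖ ^ 2 : ℝ) : ℂ) := by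
    have := h2.toC; simpa using this
  have := S.keyC hp hF.toC χ h1' h2'
  have e1 : S.T h1.toC = S.T h1' := by
    apply S.ext_char; intro m; rw [S.char_T, S.char_T]
    congr 1; ext κ; push_cast; ring
  have e2 : S.T h2.toC = S.T h2' := by
    apply S.ext_char; intro m; rw [S.char_T, S.char_T]
    congr 1; ext κ; push_cast; ring
  rw [Sys.Lam, Sys.Lam, e1, e2, this]

open scoped CompactlySupported in
/-- as positive linear functional on `C_c(Ĝ)` -/
noncomputable def Sys.LamL (v : H) : C_c(PontryaginDual G, ℝ) →ₚ[ℝ] ℝ :=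
  PositiveLinearMap.mk₀
    { toFun := fun F => S.Lam v (F := F) ⟨F.continuous, F.hasCompactSupport⟩
      map_add' := fun F F' => by
        have : S.T (CC.toC (f := (F + F' : C_c(PontryaginDual G, ℝ))) ⟨(F + F').continuous, (F + F').hasCompactSupport⟩) =
            S.T (CC.toC (f := F) ⟨F.continuous, F.hasCompactSupport⟩) +
            S.T (CC.toC (f := F') ⟨F'.continuous, F'.hasCompactSupport⟩) := by
          apply S.ext_char; intro m
          rw [map_add, S.char_T, S.char_T, S.char_T]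
          by_cases hm : S.good m
          · rw [S.sharp_good _ hm, S.sharp_good _ hm, S.sharp_good _ hm]; simp
          · rw [S.sharp_bad _ hm, S.sharp_bad _ hm, S.sharp_bad _ hm]; simp
        simp only [Sys.Lam]
        rw [this, ← Complex.add_re, ← inner_add_right]; rfl
      map_smul' := fun c F => by
        have : S.T (CC.toC (f := (c • F : C_c(PontryaginDual G, ℝ))) ⟨(c • F).continuous, (c • F).hasCompactSupport⟩) =
            (c : ℂ) • S.T (CC.toC (f := F) ⟨F.continuous, F.hasCompactSupport⟩) := by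
          apply S.ext_char; intro m
          rw [map_smul, S.char_T, S.char_T]
          by_cases hm : S.good m
          · rw [S.sharp_good _ hm, S.sharp_good _ hm]; simp
          · rw [S.sharp_bad _ hm, S.sharp_bad _ hm]; simp
        simp only [Sys.Lam]
        rw [this]
        have h : ((((c : ℂ) • S.T (CC.toC (f := F) ⟨F.continuous, F.hasCompactSupport⟩)) : S.A) : H →L[ℂ] H) v =
          (c : ℂ) • (((S.T (CC.toC (f := F) ⟨F.continuous, F.hasCompactSupport⟩)) : S.A) : H →L[ℂ] H) v := rfl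
        rw [h, inner_smul_right, Complex.re_ofReal_mul]; rfl }
    (fun F hF => by
      apply S.pos
      intro m
      rw [S.char_T]
      by_cases hm : S.good m
      · rw [S.sharp_good _ hm, Complex.ofReal_re]; exact hF _
      · rw [S.sharp_bad _ hm]; simp)

section RMK
variable [MeasurableSpace (PontryaginDual G)] [BorelSpace (PontryaginDual G)]

/-- the spectral measure of `v` -/
noncomputable def Sys.lam (v : H) : Measure (PontryaginDual G) := RealRMK.rieszMeasure (S.LamL v)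

instance (v : H) : (S.lam v).Regular := by unfold Sys.lam; infer_instance

theorem Sys.integral_lam (v : H) {F : PontryaginDual G → ℝ} (hF : CC F) :
    ∫ κ, F κ ∂(S.lam v) = S.Lam v hF :=
  RealRMK.integral_rieszMeasure (S.LamL v) ⟨⟨F, hF.1⟩, hF.2⟩

end RMK

end Pool.Agent.H1R3.BT
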