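import Pool.Agent.H1R3.BT.Grow

set_option autoImplicit false
set_option linter.unusedSectionVars false
open MeasureTheory Filter Topology Set
open scoped ComplexConjugate InnerProductSpace Pointwise

namespace Pool.Agent.H1R3.BT

variable {G : Type} [CommGroup G] [TopologicalSpace G] [IsTopologicalGroup G]
  [LocallyCompactSpace G] [T2Space G] [MeasurableSpace G] [BorelSpace G]
  {μ : Measure G} [μ.IsHaarMeasure]
  {H : Type} [NormedAddCommGroup H] [InnerProductSpace ℂ H] [CompleteSpace H]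
  (S : Sys G μ H)

/-- `Re ⟨v, U_z R v⟩` -/
noncomputable def Sys.uu (v : H) (R : S.A) (z : G) : ℝ := (⟪v, S.U z ((R : H →L[ℂ] H) v)⟫_ℂ).re

theorem Sys.uu_cont (v : H) (R : S.A) : Continuous (S.uu v R) :=
  Complex.continuous_re.comp (continuous_const.inner (S.U_cont _))

theorem Sys.uu_p (v : H) (R : S.A) {w : G → ℝ} (hw : CC w) {ψ : G → G} (hψ : Continuous ψ) (z : G) :
    S.uu v (S.p hw.toC hψ * R) z = ∫ x, w x * S.uu v R (z * ψ x) ∂μ := by
  have h1 : S.U z (((S.p hw.toC hψ * R : S.A) : H →L[ℂ] H) v) =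
      ∫ x, (w x : ℂ) • S.U (z * ψ x) ((R : H →L[ℂ] H) v) ∂μ := by
    show S.U z (S.P hw.toC hψ ((R : H →L[ℂ] H) v)) = _
    rw [S.P_apply, ← ContinuousLinearMap.integral_comp_comm _ (S.integrable hw.toC hψ _)]
    congr 1; ext x
    rw [map_smul, S.U_mul]; rfl
  have hint : Integrable (fun x => (w x : ℂ) • S.U (z * ψ x) ((R : H →L[ℂ] H) v)) μ :=
    S.integrable hw.toC (ψ := fun x => z * ψ x) (continuous_const.mul hψ) _
  rw [Sys.uu, h1, ← integral_inner hint]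
  have h2 := ContinuousLinearMap.integral_comp_comm Complex.reCLM (hint.const_inner v)
  have h3 : (∫ x, ⟪v, (w x : ℂ) • S.U (z * ψ x) ((R : H →L[ℂ] H) v)⟫_ℂ ∂μ).re =
    Complex.reCLM (∫ x, ⟪v, (w x : ℂ) • S.U (z * ψ x) ((R : H →L[ℂ] H) v)⟫_ℂ ∂μ) := rfl
  rw [h3, ← h2]
  congr 1; ext x
  rw [Complex.reCLM_apply, inner_smul_right, Complex.re_ofReal_mul]; rfl

theorem Sys.uu_p_nonneg {v : H} {R : S.A} (hR : ∀ z, 0 ≤ S.uu v R z) {w : G → ℝ} (hw : CC w)
    (hw0 : ∀ x, 0 ≤ w x) {ψ : G → G} (hψ : Continuous ψ) (z : G) :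
    0 ≤ S.uu v (S.p hw.toC hψ * R) z := by
  rw [S.uu_p _ _ hw]
  exact integral_nonneg fun x => mul_nonneg (hw0 x) (hR _)

/-- the correlation function -/
theorem Sys.uu_one {p : G → ℝ} (hp : CC p) (z : G) :
    S.uu (S.ι fun x => (p x : ℂ)) 1 z = ∫ y, p y * p (z⁻¹ * y) ∂μ := by
  have h1 : ((1 : S.A) : H →L[ℂ] H) (S.ι fun x => (p x : ℂ)) = S.ι fun x => (p x : ℂ) := rfl
  rw [Sys.uu, h1, S.U_ι _ _ hp.toC, S.inner_ι _ _ hp.toC (hp.toC.shift' z⁻¹)]
  have : (∫ x, conj (p x : ℂ) * (p (z⁻¹ * x) : ℂ) ∂μ) = ((∫ y, p y * p (z⁻¹ * y) ∂μ : ℝ) : ℂ) := by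
    rw [← integral_complex_ofReal]
    congr 1; ext x; simp
  rw [this, Complex.ofReal_re]

theorem Sys.uu_one_nonneg {p : G → ℝ} (hp : CC p) (hp0 : ∀ x, 0 ≤ p x) (z : G) :
    0 ≤ S.uu (S.ι fun x => (p x : ℂ)) 1 z := by
  rw [S.uu_one hp]
  exact integral_nonneg fun x => mul_nonneg (hp0 _) (hp0 _)

theorem Sys.uu_one_cc {p : G → ℝ} (hp : CC p) : CC (S.uu (S.ι fun x => (p x : ℂ)) 1) := by
  refine ⟨S.uu_cont _ _, ?_⟩
  have hc : IsCompact (tsupport p) := hp.2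
  apply HasCompactSupport.intro (hc.mul hc.inv)
  intro z hz
  rw [S.uu_one hp]
  apply integral_eq_zero_of_ae
  refine Filter.Eventually.of_forall fun y => ?_
  show p y * p (z⁻¹ * y) = 0
  by_cases h1 : y ∈ tsupport p
  · have h2 : z⁻¹ * y ∉ tsupport p := by
      intro h2
      exact hz (Set.mem_mul.2 ⟨y, h1, (z⁻¹ * y)⁻¹, by simpa using h2, by
        rw [mul_inv_rev, inv_inv, mul_inv_cancel_left]⟩)
    rw [image_eq_zero_of_notMem_tsupport h2, mul_zero]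
  · rw [image_eq_zero_of_notMem_tsupport h1, zero_mul]

theorem Sys.uu_one_one {p : G → ℝ} (hp : CC p) (hp1 : ∫ x, p x ∂μ = 1) :
    0 < S.uu (S.ι fun x => (p x : ℂ)) 1 1 := by
  have h1 : ((1 : S.A) : H →L[ℂ] H) (S.ι fun x => (p x : ℂ)) = S.ι fun x => (p x : ℂ) := rfl
  rw [Sys.uu, h1, S.U_one]
  show 0 < (⟪S.ι (fun x => (p x : ℂ)), S.ι fun x => (p x : ℂ)⟫_ℂ).re
  rw [inner_self_eq_norm_sq_to_K]
  have h2 : 0 < ‖S.ι fun x => (p x : ℂ)‖ := norm_pos_iff.2 (S.ι_ne hp hp1)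
  have h3 : (((‖S.ι fun x => (p x : ℂ)‖ : ℝ) : ℂ) ^ 2).re = ‖S.ι fun x => (p x : ℂ)‖ ^ 2 := by
    rw [← Complex.ofReal_pow, Complex.ofReal_re]
  have h4 : (0 : ℝ) < ‖S.ι fun x => (p x : ℂ)‖ ^ 2 := by positivity
  rw [← h3] at h4
  exact h4

/-- iterated averages -/
noncomputable def Sys.X {w : G → ℝ} (hw : CC w) {ψ : ℕ → G → G} (hψ : ∀ n, Continuous (ψ n))
    (R : S.A) : ℕ → S.A
  | 0 => R
  | n + 1 => S.p hw.toC (hψ n) * Sys.X hw hψ R n

theorem Sys.X_nonneg {w : G → ℝ} (hw : CC w) (hw0 : ∀ x, 0 ≤ w x) {ψ : ℕ → G → G}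
    (hψ : ∀ n, Continuous (ψ n)) {v : H} {R : S.A} (hR : ∀ z, 0 ≤ S.uu v R z) (n : ℕ) :
    ∀ z, 0 ≤ S.uu v (S.X hw hψ R n) z := by
  induction n with
  | zero => exact hR
  | succ n ih => exact fun z => S.uu_p_nonneg ih hw hw0 (hψ n) z

theorem Sys.char_X {w : G → ℝ} (hw : CC w) {ψ : ℕ → G → G}
    (hψ : ∀ n, Continuous (ψ n)) (R : S.A) (n : ℕ) (m : S.Δ) :
    m (S.X hw hψ R n) = (∏ k ∈ Finset.range n, m (S.p hw.toC (hψ k))) * m R := by
  induction n with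
  | zero => simp [Sys.X]
  | succ n ih =>
    rw [Finset.prod_range_succ, Sys.X, map_mul, ih]; ring

/-- integrability of weights times continuous functions -/
theorem Sys.int_uu (v : H) (R : S.A) {w : G → ℝ} (hw : CC w) {ψ : G → G} (hψ : Continuous ψ) :
    Integrable (fun x => w x * S.uu v R (ψ x)) μ :=
  Continuous.integrable_of_hasCompactSupport (hw.1.mul ((S.uu_cont v R).comp hψ))
    (HasCompactSupport.mul_right (f := w) hw.2)

/-- Claim A -/
theorem Sys.claimA {w w' : G → ℝ} (hw : CC w) (hw' : CC w') (hw0 : ∀ x, 0 ≤ w x)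
    (hw0' : ∀ x, 0 ≤ w' x) {C : Set G} (hww : ∀ c ∈ C, ∀ x, w x ≤ w' (c⁻¹ * x))
    {ψ : ℕ → G → G} (hψ : ∀ n, Continuous (ψ n)) (hmul : ∀ n x y, ψ n (x * y) = ψ n x * ψ n y)
    {v : H} {R : S.A} (hR : ∀ z, 0 ≤ S.uu v R z) (c : ℕ → G) (n : ℕ)
    (hc : ∀ k < n, c k ∈ C) :
    ∀ z, S.uu v (S.X hw hψ R n) z ≤
      S.uu v (S.X hw' hψ R n) (z * ∏ k ∈ Finset.range n, ψ k (c k)) := by
  induction n with
  | zero => intro z; simp [Sys.X]
  | succ n ih =>
    intro z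
    have ih' := ih fun k hk => hc k (hk.trans (Nat.lt_succ_self n))
    rw [Sys.X, Sys.X, S.uu_p _ _ hw, S.uu_p _ _ hw', Finset.prod_range_succ,
      ← integral_mul_left_eq_self (μ := μ)
        (fun x => w' x * S.uu v (S.X hw' hψ R n) (z * ((∏ k ∈ Finset.range n, ψ k (c k)) * ψ n (c n)) * ψ n x))
        (c n)⁻¹]
    have hcn := hww (c n) (hc n (Nat.lt_succ_self n))
    have heq : ∀ x, z * ((∏ k ∈ Finset.range n, ψ k (c k)) * ψ n (c n)) * ψ n ((c n)⁻¹ * x) =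
        (z * ψ n x) * ∏ k ∈ Finset.range n, ψ k (c k) := by
      intro x
      have h1 : ψ n (c n) * ψ n ((c n)⁻¹ * x) = ψ n x := by rw [← hmul]; congr 1; group
      calc z * ((∏ k ∈ Finset.range n, ψ k (c k)) * ψ n (c n)) * ψ n ((c n)⁻¹ * x)
          = z * (∏ k ∈ Finset.range n, ψ k (c k)) * (ψ n (c n) * ψ n ((c n)⁻¹ * x)) := by
            simp only [mul_assoc]
        _ = _ := by rw [h1, mul_assoc, mul_assoc, mul_comm (∏ k ∈ Finset.range n, ψ k (c k))]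
    simp only [heq]
    apply integral_mono
    · exact S.int_uu v _ hw (continuous_const.mul (hψ n))
    · have hsw : CC fun x => w' ((c n)⁻¹ * x) :=
        ⟨hw'.1.comp (continuous_const.mul continuous_id),
          hw'.2.comp_homeomorph (Homeomorph.mulLeft (c n)⁻¹)⟩
      exact S.int_uu v _ hsw ((continuous_const.mul (hψ n)).mul continuous_const)
    · intro x
      apply mul_le_mul (hcn x) (ih' (z * ψ n x)) (S.X_nonneg hw hw0 hψ hR n _) (hw0' _)

/-- Claim B -/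
theorem Sys.claimB {w : G → ℝ} (hw : CC w) (hw0 : ∀ x, 0 ≤ w x)
    {ψ : ℕ → G → G} (hψ : ∀ n, Continuous (ψ n))
    {k₀ : G → ℝ} (hk : CC k₀) (hk0 : ∀ x, 0 ≤ k₀ x) {v : H} {R : S.A}
    (hR : ∀ z, 0 ≤ S.uu v R z) {M : ℝ}
    (hM : ∀ a, ∫ z, k₀ z * S.uu v R (z * a) ∂μ ≤ M) (n : ℕ) :
    ∀ a, ∫ z, k₀ z * S.uu v (S.X hw hψ R n) (z * a) ∂μ ≤ (∫ x, w x ∂μ) ^ n * M := by
  induction n with
  | zero => intro a; simpa [Sys.X] using hM a
  | succ n ih =>
    intro a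
    set Q := S.X hw hψ R n
    have h1 : ∀ z, k₀ z * S.uu v (S.X hw hψ R (n + 1)) (z * a) =
        ∫ x, w x * (k₀ z * S.uu v Q (z * (a * ψ n x))) ∂μ := by
      intro z
      rw [Sys.X, S.uu_p _ _ hw, ← integral_const_mul]
      congr 1; ext x
      rw [mul_assoc z a]; ring
    simp_rw [h1]
    rw [integral_integral_swap_of_hasCompactSupport]
    · have h2 : ∀ x, ∫ z, w x * (k₀ z * S.uu v Q (z * (a * ψ n x))) ∂μ ≤
          w x * ((∫ x, w x ∂μ) ^ n * M) := by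
        intro x
        rw [integral_const_mul]
        exact mul_le_mul_of_nonneg_left (ih _) (hw0 x)
      calc ∫ x, ∫ z, w x * (k₀ z * S.uu v Q (z * (a * ψ n x))) ∂μ ∂μ
          ≤ ∫ x, w x * ((∫ x, w x ∂μ) ^ n * M) ∂μ := by
            apply integral_mono_of_nonneg (Filter.Eventually.of_forall fun x => ?_)
              (hw.integrableX.mul_const _) (Filter.Eventually.of_forall h2)
            exact integral_nonneg fun z => mul_nonneg (hw0 x)
              (mul_nonneg (hk0 z) (S.X_nonneg hw hw0 hψ hR n _))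
        _ = (∫ x, w x ∂μ) ^ (n + 1) * M := by
            rw [integral_mul_const]; ring
    · have a1 := hk.1
      have a2 := hw.1
      have a3 := hψ n
      have a4 := S.uu_cont v Q
      show Continuous fun q : G × G => w q.2 * (k₀ q.1 * S.uu v Q (q.1 * (a * ψ n q.2)))
      fun_prop
    · apply HasCompactSupport.intro (K := tsupport k₀ ×ˢ tsupport w) (hk.2.prod hw.2)
      rintro ⟨z, x⟩ hn
      show w x * (k₀ z * S.uu v Q (z * (a * ψ n x))) = 0
      simp only [mem_prod, not_and_or] at hn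
      rcases hn with h | h
      · rw [image_eq_zero_of_notMem_tsupport h]; ring
      · rw [image_eq_zero_of_notMem_tsupport h]; ring

end Pool.Agent.H1R3.BT
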