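import Pool.Agent.H1R3.BT.Sys

set_option autoImplicit false
set_option linter.unusedSectionVars false
open MeasureTheory Filter Topology Set
open scoped ComplexConjugate InnerProductSpace ENNReal

namespace Pool.Agent.H1R3.BT

variable {G : Type} [CommGroup G] [TopologicalSpace G] [IsTopologicalGroup G]
  [LocallyCompactSpace G] [T2Space G] [MeasurableSpace G] [BorelSpace G]
  (μ : Measure G) [μ.IsHaarMeasure] [μ.Regular]


theorem CC.memLp {f : G → ℂ} (h : CC f) : MemLp f 2 μ :=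
  h.1.memLp_of_hasCompactSupport h.2

noncomputable def trans (x : G) : (Lp ℂ 2 μ) →ₗᵢ[ℂ] (Lp ℂ 2 μ) :=
  Lp.compMeasurePreservingₗᵢ ℂ (fun y => x⁻¹ * y) (measurePreserving_mul_left μ x⁻¹)

theorem trans_coe (x : G) (v : (Lp ℂ 2 μ)) : (trans μ x v : G → ℂ) =ᵐ[μ] fun y => v (x⁻¹ * y) :=
  Lp.coeFn_compMeasurePreserving v (measurePreserving_mul_left μ x⁻¹)

theorem trans_toLp (x : G) {f : G → ℂ} (hf : MemLp f 2 μ) :
    trans μ x (hf.toLp f) =
      (hf.comp_measurePreserving (measurePreserving_mul_left μ x⁻¹)).toLp _ := rfl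

theorem trans_one (v : (Lp ℂ 2 μ)) : trans μ 1 v = v := by
  apply Lp.ext
  filter_upwards [trans_coe μ 1 v] with y hy
  rw [hy]; simp

theorem trans_mul (x y : G) (v : (Lp ℂ 2 μ)) : trans μ (x * y) v = trans μ x (trans μ y v) := by
  apply Lp.ext
  have h2 := (measurePreserving_mul_left μ x⁻¹).quasiMeasurePreserving.ae (trans_coe μ y v)
  filter_upwards [trans_coe μ (x * y) v, trans_coe μ x (trans μ y v), h2] with z h1 h3 h4
  rw [h1, h3, h4]
  congr 1
  rw [mul_inv_rev]; group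
  
theorem trans_cont (v : (Lp ℂ 2 μ)) : Continuous fun x => trans μ x v := by
  have hg : Continuous fun x : G => (⟨fun y => x⁻¹ * y, by fun_prop⟩ : C(G, G)) := by
    refine ContinuousMap.continuous_of_continuous_uncurry _ ?_
    show Continuous fun p : G × G => p.1⁻¹ * p.2
    fun_prop
  exact Continuous.compMeasurePreservingLp (μ := μ) (ν := μ) (E := ℂ) (p := 2)
    (f := fun _ : G => v) continuous_const hg
    (fun x => measurePreserving_mul_left μ x⁻¹) (by norm_num)

theorem memLp_mod (χ : PontryaginDual G) (v : (Lp ℂ 2 μ)) :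
    MemLp (fun y => (χ y : ℂ) * v y) 2 μ := by
  have h1 : AEStronglyMeasurable (fun y => (χ y : ℂ)) μ := by
    apply Continuous.aestronglyMeasurable
    exact continuous_subtype_val.comp (map_continuous χ)
  refine (memLp_congr_norm (h1.mul (Lp.aestronglyMeasurable v)) (Lp.aestronglyMeasurable v) ?_).2
    (Lp.memLp v)
  filter_upwards with y
  show ‖((χ y : Circle) : ℂ) * v y‖ = _
  rw [norm_mul, Circle.norm_coe, one_mul]

noncomputable def modl (χ : PontryaginDual G) : (Lp ℂ 2 μ) →ₗᵢ[ℂ] (Lp ℂ 2 μ) where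
  toFun v := (memLp_mod μ χ v).toLp _
  map_add' v w := by
    apply Lp.ext
    filter_upwards [(memLp_mod μ χ (v + w)).coeFn_toLp, (memLp_mod μ χ v).coeFn_toLp,
      (memLp_mod μ χ w).coeFn_toLp, Lp.coeFn_add v w,
      Lp.coeFn_add ((memLp_mod μ χ v).toLp _) ((memLp_mod μ χ w).toLp _)] with y h1 h2 h3 h4 h5
    rw [h1, h5, Pi.add_apply, h2, h3, h4, Pi.add_apply]; ring
  map_smul' c v := by
    apply Lp.ext
    filter_upwards [(memLp_mod μ χ (c • v)).coeFn_toLp, (memLp_mod μ χ v).coeFn_toLp,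
      Lp.coeFn_smul c v, Lp.coeFn_smul c ((memLp_mod μ χ v).toLp _)] with y h1 h2 h3 h4
    simp only [RingHom.id_apply]
    rw [h1, h4, Pi.smul_apply, h2, h3, Pi.smul_apply]; simp only [smul_eq_mul]; ring
  norm_map' v := by
    show ‖(memLp_mod μ χ v).toLp _‖ = ‖v‖
    rw [Lp.norm_toLp, Lp.norm_def]
    congr 1
    apply eLpNorm_congr_norm_ae
    filter_upwards with y
    rw [norm_mul, Circle.norm_coe, one_mul]

theorem modl_coe (χ : PontryaginDual G) (v : (Lp ℂ 2 μ)) :
    (modl μ χ v : G → ℂ) =ᵐ[μ] fun y => (χ y : ℂ) * v y :=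
  (memLp_mod μ χ v).coeFn_toLp

theorem modl_inv (χ : PontryaginDual G) (v : (Lp ℂ 2 μ)) : modl μ χ (modl μ χ⁻¹ v) = v := by
  apply Lp.ext
  filter_upwards [modl_coe μ χ (modl μ χ⁻¹ v), modl_coe μ χ⁻¹ v] with y h1 h2
  rw [h1, h2, ← mul_assoc]
  have : ((χ y : Circle) : ℂ) * ((χ⁻¹ y : Circle) : ℂ) = 1 := by
    rw [← Circle.coe_mul, ← Circle.coe_one]
    congr 1
    show χ y * (χ y)⁻¹ = 1
    simp
  rw [this, one_mul]

noncomputable def emb (f : G → ℂ) : (Lp ℂ 2 μ) := by
  classical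
  exact if h : MemLp f 2 μ then h.toLp f else 0

theorem emb_eq {f : G → ℂ} (h : MemLp f 2 μ) : emb μ f = h.toLp f := by
  rw [emb, dif_pos h]

theorem emb_coe {f : G → ℂ} (h : CC f) : (emb μ f : G → ℂ) =ᵐ[μ] f := by
  rw [emb_eq μ (h.memLp μ)]
  exact (h.memLp μ).coeFn_toLp

theorem CC.shift {f : G → ℂ} (h : CC f) (x : G) : CC fun y => f (x * y) :=
  ⟨h.1.comp (continuous_const.mul continuous_id), h.2.comp_homeomorph (Homeomorph.mulLeft x)⟩

theorem CC.mul_left {f : G → ℂ} (h : CC f) {g : G → ℂ} (hg : Continuous g) :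
    CC fun y => g y * f y :=
  ⟨hg.mul h.1, h.2.mul_left⟩

theorem emb_inner {f g : G → ℂ} (hf : CC f) (hg : CC g) :
    ⟪emb μ f, emb μ g⟫_ℂ = ∫ x, conj (f x) * g x ∂μ := by
  rw [L2.inner_def]
  apply integral_congr_ae
  filter_upwards [emb_coe μ hf, emb_coe μ hg] with x h1 h2
  rw [h1, h2]
  simp [mul_comm]

theorem CC.add {f g : G → ℂ} (hf : CC f) (hg : CC g) : CC (f + g) :=
  ⟨hf.1.add hg.1, HasCompactSupport.add (f := f) (f' := g) hf.2 hg.2⟩

theorem emb_dense (v : (Lp ℂ 2 μ)) (ε : ℝ) (hε : 0 < ε) : ∃ f, CC f ∧ ‖v - emb μ f‖ ≤ ε := by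
  obtain ⟨g, h2, h3⟩ := (Lp.memLp v).induction_dense (by norm_num) (fun f => CC f)
    (by
      intro c s hs hμs ε hε
      obtain ⟨η, ηpos, hη⟩ := exists_eLpNorm_indicator_le (p := 2) (μ := μ) (by norm_num) c hε
      have hη2 : (η / 2 : ENNReal) ≠ 0 := by
        simp [ηpos.ne']
      obtain ⟨K, hKs, hK, hKm⟩ := hs.exists_isCompact_sdiff_lt hμs.ne hη2
      obtain ⟨U, hKU, hU, hUm⟩ := hK.exists_isOpen_lt_add (μ := μ) hη2
      obtain ⟨f, hf1, hf2, hf3, hf4⟩ := exists_continuousMap_one_of_isCompact_subset_isOpen hK hU hKU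
      refine ⟨fun x => (f x : ℂ) * c, ?_, ⟨by fun_prop, ?_⟩⟩
      · have hle : eLpNorm ((fun x => (f x : ℂ) * c) - s.indicator fun _ => c) 2 μ ≤
            eLpNorm (((s \ K) ∪ (U \ K)).indicator fun _ => c) 2 μ := by
          apply eLpNorm_mono
          intro x
          simp only [Pi.sub_apply]
          by_cases hxK : x ∈ K
          · have := hf1 hxK
            simp only [Pi.one_apply] at this
            rw [this, indicator_of_mem (hKs hxK)]; simp
          · have hb := hf4 x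
            by_cases hxs : x ∈ s
            · rw [indicator_of_mem hxs, indicator_of_mem (show x ∈ (s \ K) ∪ (U \ K) from Or.inl ⟨hxs, hxK⟩)]
              have : (f x : ℂ) * c - c = ((f x - 1 : ℝ) : ℂ) * c := by push_cast; ring
              rw [this, norm_mul, Complex.norm_real]
              have : ‖f x - 1‖ ≤ 1 := by rw [Real.norm_eq_abs, abs_le]; constructor <;> linarith [hb.1, hb.2]
              nlinarith [norm_nonneg c]
            · rw [indicator_of_notMem hxs, sub_zero]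
              by_cases hxU : x ∈ U
              · rw [indicator_of_mem (show x ∈ (s \ K) ∪ (U \ K) from Or.inr ⟨hxU, hxK⟩), norm_mul, Complex.norm_real]
                have : ‖f x‖ ≤ 1 := by rw [Real.norm_eq_abs, abs_le]; constructor <;> linarith [hb.1, hb.2]
                nlinarith [norm_nonneg c]
              · have : f x = 0 := by
                  by_contra hne
                  exact hxU (hf3 (subset_tsupport _ hne))
                rw [this]; simp
        refine hle.trans (hη _ ?_)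
        refine (measure_union_le _ _).trans ?_
        have h1 : μ (U \ K) ≤ η / 2 := by
          rw [measure_sdiff hKU hK.measurableSet.nullMeasurableSet hK.measure_lt_top.ne]
          exact tsub_le_iff_left.2 hUm.le
        calc μ (s \ K) + μ (U \ K) ≤ η / 2 + η / 2 := add_le_add hKm.le h1
          _ = η := ENNReal.add_halves _
      · have : HasCompactSupport fun x => (f x : ℂ) := by
          have h : HasCompactSupport f := hf2
          exact h.comp_left (g := fun r : ℝ => (r : ℂ)) (by simp)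
        exact this.mul_right (f' := fun _ => c))
    (fun f g hf hg => CC.add hf hg)
    (fun f hf => (hf.memLp μ).aestronglyMeasurable) (ε := ENNReal.ofReal ε) (by simpa using hε)
  refine ⟨g, h3, ?_⟩
  have h4 := h3.memLp μ
  rw [emb_eq μ h4]
  have : v - h4.toLp g = ((Lp.memLp v).sub h4).toLp _ := by
    rw [MemLp.toLp_sub (Lp.memLp v) h4, Lp.toLp_coeFn]
  rw [this, Lp.norm_toLp]
  exact ENNReal.toReal_le_of_le_ofReal hε.le h2

theorem trans_emb (x : G) {f : G → ℂ} (hf : CC f) :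
    trans μ x (emb μ f) = emb μ (fun y => f (x⁻¹ * y)) := by
  rw [emb_eq μ (hf.memLp μ), emb_eq μ ((hf.shift x⁻¹).memLp μ), trans_toLp]
  rfl

theorem integrable_trans {f : G → ℂ} (hf : CC f) (v : (Lp ℂ 2 μ)) :
    Integrable (fun x => f x • trans μ x v) μ :=
  Continuous.integrable_of_hasCompactSupport (hf.1.smul (trans_cont μ v)) hf.2.smul_right

theorem conv_eq {f g : G → ℂ} (hf : CC f) (hg : CC g) {h : G → ℂ} (hh : CC h) :
    ⟪emb μ h, ∫ x, f x • trans μ x (emb μ g) ∂μ⟫_ℂ =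
      ∫ y, ∫ x, conj (h y) * (f x * g (x⁻¹ * y)) ∂μ ∂μ := by
  rw [← integral_inner (integrable_trans μ hf _)]
  have h1 : ∀ x, ⟪emb μ h, f x • trans μ x (emb μ g)⟫_ℂ =
      ∫ y, conj (h y) * (f x * g (x⁻¹ * y)) ∂μ := by
    intro x
    rw [inner_smul_right, trans_emb μ x hg, emb_inner μ hh (hg.shift x⁻¹), ← integral_const_mul]
    congr 1; ext y; ring
  simp_rw [h1]
  apply integral_integral_swap_of_hasCompactSupport
  · show Continuous fun p : G × G => conj (h p.2) * (f p.1 * g (p.1⁻¹ * p.2))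
    have := hh.1; have := hf.1; have := hg.1
    fun_prop
  · apply HasCompactSupport.intro (K := tsupport f ×ˢ tsupport h) (hf.2.prod hh.2)
    rintro ⟨x, y⟩ hxy
    simp only [mem_prod, not_and_or] at hxy
    show conj (h y) * (f x * g (x⁻¹ * y)) = 0
    rcases hxy with hx | hy
    · rw [image_eq_zero_of_notMem_tsupport hx]; simp
    · rw [image_eq_zero_of_notMem_tsupport hy]; simp

theorem emb_comm {f g : G → ℂ} (hf : CC f) (hg : CC g) :
    ∫ x, f x • trans μ x (emb μ g) ∂μ = ∫ x, g x • trans μ x (emb μ f) ∂μ := by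
  set a := ∫ x, f x • trans μ x (emb μ g) ∂μ
  set b := ∫ x, g x • trans μ x (emb μ f) ∂μ
  have key : ∀ h, CC h → ⟪emb μ h, a⟫_ℂ = ⟪emb μ h, b⟫_ℂ := by
    intro h hh
    rw [conv_eq μ hf hg hh, conv_eq μ hg hf hh]
    congr 1; ext y
    rw [integral_const_mul, integral_const_mul]
    congr 1
    rw [← integral_mul_left_eq_self (μ := μ) (fun x => g x * f (x⁻¹ * y)) y,
      ← integral_inv_eq_self (μ := μ) (fun x => g (y * x) * f ((y * x)⁻¹ * y))]
    congr 1; ext x
    have e1 : (y * x⁻¹)⁻¹ * y = x := by simp [mul_inv_rev]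
    rw [e1]
    have e2 : y * x⁻¹ = x⁻¹ * y := mul_comm _ _
    rw [e2]; ring
  rw [← sub_eq_zero]
  by_contra hne
  have hpos : 0 < ‖a - b‖ := norm_pos_iff.2 hne
  obtain ⟨h, hh, hle⟩ := emb_dense μ (a - b) (‖a - b‖ / 2) (by positivity)
  have h0 : ⟪emb μ h, a - b⟫_ℂ = 0 := by rw [inner_sub_right, key h hh, sub_self]
  have h1 : ⟪a - b, a - b⟫_ℂ = ⟪(a - b) - emb μ h, a - b⟫_ℂ := by
    rw [inner_sub_left (a - b) (emb μ h) (a - b), h0, sub_zero]
  have h2 : ‖⟪a - b, a - b⟫_ℂ‖ ≤ (‖a - b‖ / 2) * ‖a - b‖ := by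
    rw [h1]
    exact (norm_inner_le_norm _ _).trans (by gcongr)
  have h3 : ‖⟪a - b, a - b⟫_ℂ‖ = ‖a - b‖ ^ 2 := by
    rw [inner_self_eq_norm_sq_to_K]; simp
  rw [h3] at h2
  nlinarith

theorem star_trans (x : G) : star ((trans μ x).toContinuousLinearMap) =
    (trans μ x⁻¹).toContinuousLinearMap := by
  rw [ContinuousLinearMap.star_eq_adjoint, eq_comm, ContinuousLinearMap.eq_adjoint_iff]
  intro v w
  show ⟪trans μ x⁻¹ v, w⟫_ℂ = ⟪v, trans μ x w⟫_ℂ
  rw [← (trans μ x).inner_map_map (trans μ x⁻¹ v) w, ← trans_mul, mul_inv_cancel, trans_one]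

theorem star_modl (χ : PontryaginDual G) : star ((modl μ χ).toContinuousLinearMap) =
    (modl μ χ⁻¹).toContinuousLinearMap := by
  rw [ContinuousLinearMap.star_eq_adjoint, eq_comm, ContinuousLinearMap.eq_adjoint_iff]
  intro v w
  show ⟪modl μ χ⁻¹ v, w⟫_ℂ = ⟪v, modl μ χ w⟫_ℂ
  rw [← (modl μ χ).inner_map_map (modl μ χ⁻¹ v) w, modl_inv]

theorem modl_inv' (χ : PontryaginDual G) (v : (Lp ℂ 2 μ)) : modl μ χ⁻¹ (modl μ χ v) = v := by
  have := modl_inv μ χ⁻¹ v
  rwa [inv_inv] at this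

theorem trans_modl (χ : PontryaginDual G) (x : G) (v : (Lp ℂ 2 μ)) :
    trans μ x (modl μ χ v) = (((χ x)⁻¹ : Circle) : ℂ) • modl μ χ (trans μ x v) := by
  apply Lp.ext
  have h2 := (measurePreserving_mul_left μ x⁻¹).quasiMeasurePreserving.ae (modl_coe μ χ v)
  filter_upwards [trans_coe μ x (modl μ χ v), h2, modl_coe μ χ (trans μ x v), trans_coe μ x v,
    Lp.coeFn_smul (((χ x)⁻¹ : Circle) : ℂ) (modl μ χ (trans μ x v))] with y a1 a2 a3 a4 a5
  rw [a1, a2, a5, Pi.smul_apply, a3, a4, map_mul, map_inv, Circle.coe_mul, smul_eq_mul, mul_assoc]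

theorem modl_emb (χ : PontryaginDual G) {f : G → ℂ} (hf : CC f) :
    modl μ χ (emb μ f) = emb μ (fun x => (χ x : ℂ) * f x) := by
  have hc : CC (fun x => (χ x : ℂ) * f x) :=
    hf.mul_left (continuous_subtype_val.comp (map_continuous χ))
  apply Lp.ext
  filter_upwards [modl_coe μ χ (emb μ f), emb_coe μ hf, emb_coe μ hc] with y h1 h2 h3
  rw [h1, h2, h3]

noncomputable def sys : Sys G μ (Lp ℂ 2 μ) where
  U x := (trans μ x).toContinuousLinearMap
  U_one := by ext1 v; exact trans_one μ v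
  U_mul x y := by ext1 v; exact trans_mul μ x y v
  U_star x := star_trans μ x
  U_cont v := trans_cont μ v
  U_norm x v := (trans μ x).norm_map v
  M χ := (modl μ χ).toContinuousLinearMap
  M_star_mul χ := by
    rw [star_modl]; ext1 v; exact modl_inv' μ χ v
  M_mul_star χ := by
    rw [star_modl]; ext1 v; exact modl_inv μ χ v
  UM χ x := by
    ext1 v; exact trans_modl μ χ x v
  ι := emb μ
  ι_add f g hf hg := by
    rw [emb_eq μ (hf.memLp μ), emb_eq μ (hg.memLp μ), emb_eq μ ((hf.memLp μ).add (hg.memLp μ))]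
    rfl
  ι_smul c f hf := by
    rw [emb_eq μ (hf.memLp μ), emb_eq μ ((hf.memLp μ).const_smul c)]
    rfl
  M_ι χ f hf := modl_emb μ χ hf
  U_ι x f hf := trans_emb μ x hf
  inner_ι f g hf hg := emb_inner μ hf hg
  dense := emb_dense μ
  comm f g hf hg := emb_comm μ hf hg

end Pool.Agent.H1R3.BT
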