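import Pool.Agent.H1R3.BT.Main2
import Pool.Agent.H1R3.BT.L2

set_option autoImplicit false
set_option linter.unusedSectionVars false
open MeasureTheory Filter Topology Set
open scoped Pointwise

namespace Pool.Agent.H1R3.BT

theorem limsup_log_le' {x y : ℕ → ENNReal} {c : ENNReal} (hc : c ≠ ⊤) {ε : ℝ}
    (h : ∀ n : ℕ, 1 ≤ n → x n ≤ c * ENNReal.ofReal (Real.exp (ε * n)) * y n) :
    limsup (fun n : ℕ => (((n : ℝ)⁻¹ : ℝ) : EReal) * ENNReal.log (x n)) atTop
      ≤ (ε : EReal) + limsup (fun n : ℕ => (((n : ℝ)⁻¹ : ℝ) : EReal) * ENNReal.log (y n)) atTop := by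
  obtain ⟨r, hr1, hcr⟩ : ∃ r : ℝ, 1 ≤ r ∧ c ≤ ENNReal.ofReal r := by
    refine ⟨max 1 c.toReal, le_max_left _ _, ?_⟩
    rw [← ENNReal.ofReal_toReal hc]
    exact ENNReal.ofReal_le_ofReal (by rw [ENNReal.ofReal_toReal hc]; exact le_max_right _ _)
  have hlog : ∀ n : ℕ, ENNReal.log (ENNReal.ofReal r * ENNReal.ofReal (Real.exp (ε * n))) =
      ((Real.log r + ε * n : ℝ) : EReal) := by
    intro n
    rw [← ENNReal.ofReal_mul (by linarith), ENNReal.log_ofReal_of_pos (by positivity),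
      Real.log_mul (by positivity) (by positivity), Real.log_exp]
  have h1 : ∀ᶠ n : ℕ in atTop, (((n : ℝ)⁻¹ : ℝ) : EReal) * ENNReal.log (x n) ≤
      (fun n : ℕ => (((n : ℝ)⁻¹ * Real.log r + ε : ℝ) : EReal)) n +
        (fun n : ℕ => (((n : ℝ)⁻¹ : ℝ) : EReal) * ENNReal.log (y n)) n := by
    filter_upwards [eventually_ge_atTop 1] with n hn
    have h2 : ENNReal.log (x n) ≤ ((Real.log r + ε * n : ℝ) : EReal) + ENNReal.log (y n) := by
      rw [← hlog, ← ENNReal.log_mul_add]
      exact ENNReal.log_le_log ((h n hn).trans (mul_le_mul_left (mul_le_mul_left hcr _) _))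
    have h3 : (0 : EReal) ≤ (((n : ℝ)⁻¹ : ℝ) : EReal) := by
      exact_mod_cast inv_nonneg.mpr (Nat.cast_nonneg n)
    have hn0 : (n : ℝ) ≠ 0 := by positivity
    calc (((n : ℝ)⁻¹ : ℝ) : EReal) * ENNReal.log (x n)
        ≤ (((n : ℝ)⁻¹ : ℝ) : EReal) * (((Real.log r + ε * n : ℝ) : EReal) + ENNReal.log (y n)) :=
          mul_le_mul_of_nonneg_left h2 h3
      _ = _ := by
          rw [EReal.left_distrib_of_nonneg_of_ne_top h3 (EReal.coe_ne_top _), ← EReal.coe_mul]
          congr 2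
          field_simp
  have hlim : limsup (fun n : ℕ => (((n : ℝ)⁻¹ * Real.log r + ε : ℝ) : EReal)) atTop = (ε : EReal) := by
    apply Tendsto.limsup_eq
    have : Tendsto (fun n : ℕ => (n : ℝ)⁻¹ * Real.log r + ε) atTop (𝓝 (0 * Real.log r + ε)) :=
      ((tendsto_inv_atTop_nhds_zero_nat).mul_const _).add_const _
    rw [zero_mul, zero_add] at this
    exact (continuous_coe_real_ereal.tendsto ε).comp this
  calc _ ≤ limsup ((fun n : ℕ => (((n : ℝ)⁻¹ * Real.log r + ε : ℝ) : EReal)) +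
        (fun n : ℕ => (((n : ℝ)⁻¹ : ℝ) : EReal) * ENNReal.log (y n))) atTop :=
        limsup_le_limsup h1
    _ ≤ limsup (fun n : ℕ => (((n : ℝ)⁻¹ * Real.log r + ε : ℝ) : EReal)) atTop +
        limsup (fun n : ℕ => (((n : ℝ)⁻¹ : ℝ) : EReal) * ENNReal.log (y n)) atTop := by
        apply EReal.limsup_add_le
        · left; rw [hlim]; exact EReal.coe_ne_bot _
        · left; rw [hlim]; exact EReal.coe_ne_top _
    _ = _ := by rw [hlim]

theorem ereal_le {a b : EReal} (h : ∀ ε : ℝ, 0 < ε → a ≤ (ε : EReal) + b) : a ≤ b := by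
  by_contra hcon
  push Not at hcon
  obtain ⟨r, hbr, hra⟩ := EReal.lt_iff_exists_real_btwn.1 hcon
  induction b with
  | bot =>
    have := h 1 one_pos
    rw [EReal.add_bot] at this
    exact absurd (lt_of_lt_of_le hcon this) (lt_irrefl _)
  | top => exact absurd hbr (not_lt.2 le_top)
  | coe b =>
    have hbr' : b < r := by exact_mod_cast hbr
    have h1 := h (r - b) (by linarith)
    rw [← EReal.coe_add, sub_add_cancel] at h1
    exact absurd (lt_of_lt_of_le hra h1) (lt_irrefl _)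

variable {G : Type} [CommGroup G] [TopologicalSpace G] [IsTopologicalGroup G]
  [LocallyCompactSpace G] [T2Space G] [MeasurableSpace G] [BorelSpace G]
  [MeasurableSpace (PontryaginDual G)] [BorelSpace (PontryaginDual G)]

theorem cot_pos (ν : Measure (PontryaginDual G)) [ν.IsHaarMeasure] (φ : G →ₜ* G)
    {V : Set (PontryaginDual G)} (hV : V ∈ 𝓝 (1 : PontryaginDual G)) (n : ℕ) :
    0 < ν (cot φ V n) := by
  apply Measure.measure_pos_of_mem_nhds ν (x := 1)
  rw [cot, Filter.biInter_finset_mem]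
  intro i _
  apply (iter_dual_cont φ i).continuousAt.preimage_mem_nhds
  have : (⇑(PontryaginDual.map φ))^[i] 1 = 1 := iterate_map_one _ i
  rwa [this]

theorem main_regular (φ : G →ₜ* G)
    (μ : Measure G) [μ.IsHaarMeasure] (ν : Measure (PontryaginDual G)) [ν.IsHaarMeasure] :
    (⨆ (K : Set G) (_ : IsCompact K ∧ K ∈ nhds (1 : G)),
        Filter.limsup
          (fun n : ℕ => (((n : ℝ)⁻¹ : ℝ) : EReal) * ENNReal.log (μ (traj φ K n)))
          Filter.atTop)
    = ⨆ (K : Set (PontryaginDual G)) (_ : IsCompact K ∧ K ∈ nhds (1 : PontryaginDual G)),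
        Filter.limsup
          (fun n : ℕ => (((n : ℝ)⁻¹ : ℝ) : EReal) * -ENNReal.log (ν (cot φ K n)))
          Filter.atTop := by
  let μ₀ : Measure G := Measure.haar
  let ν₀ : Measure (PontryaginDual G) := Measure.haar
  set a := Measure.haarScalarFactor μ μ₀ with ha
  set b := Measure.haarScalarFactor ν ν₀ with hb
  have hapos : 0 < a := Measure.haarScalarFactor_pos_of_isHaarMeasure μ μ₀
  have hbpos : 0 < b := Measure.haarScalarFactor_pos_of_isHaarMeasure ν ν₀
  have hμ : ∀ s : Set G, IsCompact s → μ s = a * μ₀ s := by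
    intro s hs
    have := Measure.measure_isMulInvariant_eq_smul_of_isCompact_closure μ μ₀
      (s := s) (by rwa [hs.isClosed.closure_eq])
    rw [this]; rfl
  have hν : ∀ s : Set (PontryaginDual G), IsCompact s → ν s = b * ν₀ s := by
    intro s hs
    have := Measure.measure_isMulInvariant_eq_smul_of_isCompact_closure ν ν₀
      (s := s) (by rwa [hs.isClosed.closure_eq])
    rw [this]; rfl
  have ha0 : (a : ENNReal) ≠ 0 := by exact_mod_cast hapos.ne'
  have hb0 : (b : ENNReal) ≠ 0 := by exact_mod_cast hbpos.ne'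
  let S := sys μ₀
  have hneglog : ∀ (K : Set (PontryaginDual G)),
      (fun n : ℕ => (((n : ℝ)⁻¹ : ℝ) : EReal) * -ENNReal.log (ν (cot φ K n))) =
      (fun n : ℕ => (((n : ℝ)⁻¹ : ℝ) : EReal) * ENNReal.log ((ν (cot φ K n))⁻¹)) := by
    intro K; ext n; rw [ENNReal.log_inv]
  apply le_antisymm
  · refine iSup₂_le ?_
    rintro K ⟨hK, -⟩
    apply ereal_le
    intro ε hε
    obtain ⟨V, hV, hV1, c, hc⟩ := S.ineqII φ ν₀ hK (show (0 : ℝ) < ε / 3 by positivity)
    have h1 : limsup (fun n : ℕ => (((n : ℝ)⁻¹ : ℝ) : EReal) * ENNReal.log (μ (traj φ K n))) atTop ≤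
        (ε : EReal) + limsup (fun n : ℕ => (((n : ℝ)⁻¹ : ℝ) : EReal) *
          ENNReal.log ((ν (cot φ V n))⁻¹)) atTop := by
      apply limsup_log_le' (c := a * b * ENNReal.ofReal c)
        (ENNReal.mul_ne_top (ENNReal.mul_ne_top ENNReal.coe_ne_top ENNReal.coe_ne_top)
          ENNReal.ofReal_ne_top)
      intro n hn
      have hcn := hc n hn
      have hTc := traj_compact φ hK n
      have hCc := cot_compact φ hV hn
      have hCpos : ν (cot φ V n) ≠ 0 := (cot_pos ν φ hV1 n).ne'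
      have hCfin : ν (cot φ V n) ≠ ⊤ := hCc.measure_lt_top.ne
      rw [← div_eq_mul_inv, ENNReal.le_div_iff_mul_le (Or.inl hCpos) (Or.inl hCfin),
        hμ _ hTc, hν _ hCc]
      have h2 : μ₀ (traj φ K n) * ν₀ (cot φ V n) ≤
          ENNReal.ofReal c * ENNReal.ofReal (Real.exp (ε * n)) := by
        have hexp : 3 * (ε / 3) * (n : ℝ) = ε * n := by ring
        rw [hexp] at hcn
        have h3 := ENNReal.ofReal_le_ofReal hcn
        rw [ENNReal.ofReal_mul ENNReal.toReal_nonneg,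
          ENNReal.ofReal_toReal hTc.measure_lt_top.ne,
          ENNReal.ofReal_toReal hCc.measure_lt_top.ne,
          ENNReal.ofReal_mul' (Real.exp_pos _).le] at h3
        exact h3
      calc (a : ENNReal) * μ₀ (traj φ K n) * (b * ν₀ (cot φ V n))
          = a * b * (μ₀ (traj φ K n) * ν₀ (cot φ V n)) := by ring
        _ ≤ a * b * (ENNReal.ofReal c * ENNReal.ofReal (Real.exp (ε * n))) := by gcongr
        _ = _ := by ring
    refine h1.trans (add_le_add le_rfl ?_)
    rw [← hneglog]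
    exact le_iSup₂_of_le V ⟨hV, hV1⟩ le_rfl
  · refine iSup₂_le ?_
    rintro V ⟨hV, hV1⟩
    apply ereal_le
    intro ε hε
    obtain ⟨K, hK, hK1, c, hc⟩ := S.ineqI φ ν₀ hV hV1 hε
    rw [hneglog]
    have h1 : limsup (fun n : ℕ => (((n : ℝ)⁻¹ : ℝ) : EReal) * ENNReal.log ((ν (cot φ V n))⁻¹)) atTop ≤
        (ε : EReal) + limsup (fun n : ℕ => (((n : ℝ)⁻¹ : ℝ) : EReal) *
          ENNReal.log (μ (traj φ K n))) atTop := by
      apply limsup_log_le' (c := (a : ENNReal)⁻¹ * (b : ENNReal)⁻¹ * ENNReal.ofReal c)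
        (ENNReal.mul_ne_top (ENNReal.mul_ne_top (ENNReal.inv_ne_top.2 ha0) (ENNReal.inv_ne_top.2 hb0))
          ENNReal.ofReal_ne_top)
      intro n hn
      have hcn := hc n hn
      have hTc := traj_compact φ hK n
      have hCc := cot_compact φ hV hn
      have hCpos : ν (cot φ V n) ≠ 0 := (cot_pos ν φ hV1 n).ne'
      have hCfin : ν (cot φ V n) ≠ ⊤ := hCc.measure_lt_top.ne
      rw [← one_div, ENNReal.div_le_iff_le_mul (Or.inl hCpos) (Or.inl hCfin), hμ _ hTc, hν _ hCc]
      have h2 : 1 ≤ ENNReal.ofReal c * ENNReal.ofReal (Real.exp (ε * n)) *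
          (μ₀ (traj φ K n) * ν₀ (cot φ V n)) := by
        have h3 := ENNReal.ofReal_le_ofReal hcn
        rw [ENNReal.ofReal_mul' (by positivity), ENNReal.ofReal_mul' (Real.exp_pos _).le,
          ENNReal.ofReal_mul ENNReal.toReal_nonneg,
          ENNReal.ofReal_toReal hTc.measure_lt_top.ne,
          ENNReal.ofReal_toReal hCc.measure_lt_top.ne, ENNReal.ofReal_one] at h3
        exact h3
      calc (1 : ENNReal) ≤ ENNReal.ofReal c * ENNReal.ofReal (Real.exp (ε * n)) *
          (μ₀ (traj φ K n) * ν₀ (cot φ V n)) := h2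
        _ = ((a : ENNReal)⁻¹ * a) * ((b : ENNReal)⁻¹ * b) *
            (ENNReal.ofReal c * ENNReal.ofReal (Real.exp (ε * n)) *
              (μ₀ (traj φ K n) * ν₀ (cot φ V n))) := by
            rw [ENNReal.inv_mul_cancel ha0 ENNReal.coe_ne_top,
              ENNReal.inv_mul_cancel hb0 ENNReal.coe_ne_top, one_mul, one_mul]
        _ = _ := by ring
    refine h1.trans (add_le_add le_rfl ?_)
    exact le_iSup₂_of_le K ⟨hK, hK1⟩ le_rfl

end Pool.Agent.H1R3.BT
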