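import Pool.Agent.H1R3.BT.Star

set_option autoImplicit false
set_option linter.unusedSectionVars false
open MeasureTheory Filter Topology Set
open scoped Pointwise

namespace Pool.Agent.H1R3.BT

variable {G : Type} [CommGroup G] [TopologicalSpace G] [IsTopologicalGroup G]
  [T2Space G] [MeasurableSpace G] [BorelSpace G]

theorem packing (μ : Measure G) [μ.IsHaarMeasure] {E U : Set G} (hE : IsCompact E)
    (hU : IsCompact U) (hU0 : U ∈ 𝓝 (1 : G)) :
    ∃ S : Finset G, (S : Set G) ⊆ E ∧ E ⊆ (S : Set G) * (U / U) ∧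
      (S.card : ENNReal) * μ U ≤ μ (E * U) := by
  classical
  have hUm : MeasurableSet U := hU.isClosed.measurableSet
  have hUpos : 0 < μ U := (Measure.measure_pos_of_mem_nhds μ hU0)
  have hUfin : μ U < ⊤ := hU.measure_lt_top
  have hEUfin : μ (E * U) < ⊤ := (hE.mul hU).measure_lt_top
  let good : Finset G → Prop := fun S =>
    (S : Set G) ⊆ E ∧ (S : Set G).PairwiseDisjoint (fun s => s • U)
  have hgood : ∀ S, good S → (S.card : ENNReal) * μ U ≤ μ (E * U) := by
    intro S hS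
    have h1 : μ (⋃ s ∈ S, s • U) = ∑ s ∈ S, μ (s • U) := by
      refine measure_biUnion_finset hS.2 fun s _ => ?_
      exact hUm.const_smul s
    have h2 : ∑ s ∈ S, μ (s • U) = (S.card : ENNReal) * μ U := by
      simp [measure_smul]
    rw [← h2, ← h1]
    refine measure_mono ?_
    intro x hx
    simp only [Set.mem_iUnion] at hx
    obtain ⟨s, hs, u, hu, rfl⟩ := hx
    exact ⟨s, hS.1 hs, u, hu, rfl⟩
  have hbdd : BddAbove {n : ℕ | ∃ S, good S ∧ S.card = n} := by
    have hfin : μ (E * U) / μ U ≠ ⊤ :=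
      (ENNReal.div_lt_top hEUfin.ne hUpos.ne').ne
    obtain ⟨N, hN⟩ := ENNReal.exists_nat_gt hfin
    refine ⟨N, ?_⟩
    rintro n ⟨S, hS, rfl⟩
    have h := hgood S hS
    have h' : (S.card : ENNReal) ≤ μ (E * U) / μ U := by
      rw [ENNReal.le_div_iff_mul_le (Or.inl hUpos.ne') (Or.inl hUfin.ne)]
      exact h
    have h'' : (S.card : ENNReal) < N := lt_of_le_of_lt h' hN
    exact_mod_cast h''.le
  have hne : {n : ℕ | ∃ S, good S ∧ S.card = n}.Nonempty :=
    ⟨0, ∅, ⟨by simp, by simp⟩, by simp⟩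
  obtain ⟨S, hS, hcard⟩ := Nat.sSup_mem hne hbdd
  refine ⟨S, hS.1, ?_, hgood S hS⟩
  intro e he
  by_contra hcon
  have hdisj : ∀ s ∈ S, Disjoint (e • U) (s • U) := by
    intro s hs
    rw [Set.disjoint_left]
    rintro x ⟨u, hu, hux⟩ ⟨u', hu', hux'⟩
    apply hcon
    refine ⟨s, hs, u' / u, ⟨u', hu', u, hu, rfl⟩, ?_⟩
    simp only [smul_eq_mul] at hux hux'
    show s * (u' / u) = e
    have : e * u = s * u' := hux.trans hux'.symm
    rw [← mul_div_assoc, ← this, mul_div_cancel_right]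
  have hnotin : e ∉ S := by
    intro heS
    have := hdisj e heS
    rw [disjoint_self] at this
    have h0 : (1 : G) ∈ U := mem_of_mem_nhds hU0
    have : e * 1 ∈ (⊥ : Set G) := by
      rw [← this]; exact ⟨1, h0, rfl⟩
    simp at this
  have hgood' : good (insert e S) := by
    refine ⟨?_, ?_⟩
    · intro x hx
      rcases Finset.mem_insert.mp (by simpa using hx) with rfl | hx
      · exact he
      · exact hS.1 hx
    · rw [Finset.coe_insert, Set.pairwiseDisjoint_insert]
      exact ⟨hS.2, fun s hs _ => hdisj s hs⟩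
  have hle : (insert e S).card ≤ sSup {n : ℕ | ∃ S, good S ∧ S.card = n} :=
    le_csSup hbdd ⟨insert e S, hgood', rfl⟩
  rw [← hcard, Finset.card_insert_of_notMem hnotin] at hle
  omega

theorem isCompact_pow {D : Set G} (hD : IsCompact D) (m : ℕ) : IsCompact (D ^ m) := by
  induction m with
  | zero => rw [pow_zero]; exact isCompact_singleton
  | succ m ih => rw [pow_succ]; exact ih.mul hD

open Classical in
theorem pow_cover {D : Set G} {E : Finset G} (h : D * D ⊆ (E : Set G) * D) (m : ℕ) :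
    ∀ x ∈ D ^ (m + 1), ∃ n : G → ℕ, (∀ e, n e ≤ m) ∧ ∃ d ∈ D, x = (∏ e ∈ E, e ^ n e) * d := by
  induction m with
  | zero =>
    intro x hx
    rw [zero_add, pow_one] at hx
    exact ⟨fun _ => 0, fun _ => le_rfl, x, hx, by simp⟩
  | succ m ih =>
    intro x hx
    rw [pow_succ] at hx
    obtain ⟨y, hy, d', hd', rfl⟩ := hx
    obtain ⟨n, hn, d, hd, rfl⟩ := ih y hy
    obtain ⟨e₀, he₀, d'', hd'', he⟩ := h (Set.mul_mem_mul hd hd')
    refine ⟨fun e => n e + if e = e₀ then 1 else 0, ?_, d'', hd'', ?_⟩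
    · intro e
      have := hn e
      show n e + (if e = e₀ then 1 else 0) ≤ m + 1
      split_ifs <;> omega
    · simp only [pow_add, Finset.prod_mul_distrib]
      have h1 : ∏ e ∈ E, e ^ (if e = e₀ then 1 else 0) = e₀ := by
        rw [Finset.prod_eq_single e₀]
        · simp
        · intro b _ hb; simp [hb]
        · intro hne; exact absurd he₀ hne
      rw [h1, mul_assoc _ e₀, show e₀ * d'' = d * d' from he]
      exact mul_assoc _ _ _

theorem pow_measure (μ : Measure G) [μ.IsHaarMeasure] {D : Set G} {E : Finset G}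
    (h : D * D ⊆ (E : Set G) * D) (m : ℕ) :
    μ (D ^ (m + 1)) ≤ ((m + 1) ^ E.card : ℕ) * μ D := by
  classical
  let N : Finset (E → ℕ) := Fintype.piFinset fun _ => Finset.range (m + 1)
  have hcov : D ^ (m + 1) ⊆ ⋃ n ∈ N, (∏ e : E, (e : G) ^ n e) • D := by
    intro x hx
    obtain ⟨n, hn, d, hd, rfl⟩ := pow_cover h m x hx
    simp only [Set.mem_iUnion]
    refine ⟨fun e => n e, ?_, d, hd, ?_⟩
    · rw [Fintype.mem_piFinset]
      intro e
      rw [Finset.mem_range]
      have := hn e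
      omega
    · show (∏ e : E, (e : G) ^ n e) • d = _
      rw [smul_eq_mul, Finset.prod_coe_sort E (fun e => e ^ n e)]
  calc μ (D ^ (m + 1)) ≤ μ (⋃ n ∈ N, (∏ e : E, (e : G) ^ n e) • D) := measure_mono hcov
    _ ≤ ∑ n ∈ N, μ ((∏ e : E, (e : G) ^ n e) • D) := measure_biUnion_finset_le _ _
    _ = ((m + 1) ^ E.card : ℕ) * μ D := by
        simp only [measure_smul, Finset.sum_const, nsmul_eq_mul]
        congr 2
        simp [N]

theorem growth (μ : Measure G) [μ.IsHaarMeasure] {D : Set G} (hD : IsCompact D)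
    (hD1 : D ∈ 𝓝 (1 : G)) {ε : ℝ} (hε : 0 < ε) :
    ∃ m : ℕ, 1 ≤ m ∧ (μ (D ^ (m + 3))).toReal ≤ Real.exp ε * (μ (D ^ m)).toReal := by
  by_contra hcon
  push Not at hcon
  obtain ⟨E, hE⟩ : ∃ E : Finset G, D * D ⊆ (E : Set G) * D := by
    obtain ⟨t, ht⟩ := (hD.mul hD).elim_finite_subcover (fun x : G => x • interior D)
      (fun x => isOpen_interior.smul x) (by
        intro x _
        rw [Set.mem_iUnion]
        exact ⟨x, 1, mem_interior_iff_mem_nhds.2 hD1, by simp⟩)
    refine ⟨t, fun x hx => ?_⟩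
    have := ht hx
    simp only [Set.mem_iUnion] at this
    obtain ⟨e, he, d, hd, rfl⟩ := this
    exact ⟨e, he, d, interior_subset hd, rfl⟩
  set a : ℕ → ℝ := fun m => (μ (D ^ m)).toReal with ha
  have ha1 : 0 < a 1 := by
    simp only [ha, pow_one]
    exact ENNReal.toReal_pos (Measure.measure_pos_of_mem_nhds μ hD1).ne' hD.measure_lt_top.ne
  have hup : ∀ m, a (m + 1) ≤ ((m : ℝ) + 1) ^ E.card * a 1 := by
    intro m
    have h := pow_measure μ hE m
    have hfin : (((m + 1) ^ E.card : ℕ) : ENNReal) * μ D ≠ ⊤ :=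
      ENNReal.mul_ne_top (ENNReal.natCast_ne_top _) hD.measure_lt_top.ne
    have h2 := ENNReal.toReal_mono hfin h
    rw [ENNReal.toReal_mul, ENNReal.toReal_natCast] at h2
    simp only [ha, pow_one]
    push_cast at h2
    exact h2
  have hlow : ∀ k : ℕ, Real.exp (ε * k) * a 1 ≤ a (3 * k + 1) := by
    intro k
    induction k with
    | zero => simp
    | succ k ih =>
      have h1 := hcon (3 * k + 1) (by omega)
      have h2 : a (3 * (k + 1) + 1) = (μ (D ^ (3 * k + 1 + 3))).toReal := by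
        simp only [ha]; congr 3
      rw [h2]
      have h3 : Real.exp (ε * ((k + 1 : ℕ) : ℝ)) = Real.exp ε * Real.exp (ε * k) := by
        rw [← Real.exp_add]; congr 1; push_cast; ring
      rw [h3, mul_assoc]
      exact (mul_le_mul_of_nonneg_left ih (Real.exp_pos ε).le).trans h1.le
  have hcomp : ∀ k : ℕ, Real.exp (ε * k) ≤ (3 * (k : ℝ) + 1) ^ E.card := by
    intro k
    have h1 := (hlow k).trans (hup (3 * k))
    have := le_of_mul_le_mul_right h1 ha1
    push_cast at this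
    exact this
  have htend : Tendsto (fun x : ℝ => (3 * x + 1) ^ E.card * Real.exp (-(ε * x))) atTop (𝓝 0) := by
    have h1 : Tendsto (fun y : ℝ => y ^ E.card * Real.exp (-(ε / 3) * y)) atTop (𝓝 0) := by
      have := tendsto_rpow_mul_exp_neg_mul_atTop_nhds_zero (E.card : ℝ) (ε / 3) (by positivity)
      simpa [Real.rpow_natCast] using this
    have h2 : Tendsto (fun x : ℝ => 3 * x + 1) atTop atTop :=
      tendsto_atTop_add_const_right _ _ (tendsto_id.const_mul_atTop (by norm_num))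
    have h3 := (h1.comp h2).mul_const (Real.exp (ε / 3))
    rw [zero_mul] at h3
    refine h3.congr fun x => ?_
    simp only [Function.comp]
    rw [mul_assoc, ← Real.exp_add]
    congr 2; ring
  have hnat := htend.comp tendsto_natCast_atTop_atTop
  have hev := hnat.eventually (gt_mem_nhds (show (0 : ℝ) < 1 by norm_num))
  obtain ⟨k, hk⟩ := hev.exists
  simp only [Function.comp] at hk
  have := hcomp k
  have h4 : 1 ≤ (3 * (k : ℝ) + 1) ^ E.card * Real.exp (-(ε * k)) := by
    calc (1 : ℝ) = Real.exp (ε * k) * Real.exp (-(ε * k)) := by rw [← Real.exp_add]; simp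
      _ ≤ _ := mul_le_mul_of_nonneg_right this (Real.exp_pos _).le
  linarith

theorem measure_le_integral (μ : Measure G) [μ.IsHaarMeasure] {K : Set G} (hK : IsCompact K)
    {f : G → ℝ} (hf : CC f) (hf0 : ∀ x, 0 ≤ f x) (hf1 : ∀ x ∈ K, f x = 1) :
    (μ K).toReal ≤ ∫ x, f x ∂μ := by
  calc (μ K).toReal = ∫ x in K, (1 : ℝ) ∂μ := by rw [setIntegral_const]; simp [Measure.real]
    _ = ∫ x in K, f x ∂μ := setIntegral_congr_fun hK.measurableSet (fun x hx => (hf1 x hx).symm)
    _ ≤ ∫ x, f x ∂μ := setIntegral_le_integral (hf.integrableX (m := μ)) (Filter.Eventually.of_forall hf0)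

theorem integral_le_measure (μ : Measure G) [μ.IsHaarMeasure] {K : Set G} (hK : IsCompact K)
    {f : G → ℝ} (hf : CC f) (hf1 : ∀ x, f x ≤ 1) (hfK : ∀ x, x ∉ K → f x = 0) :
    ∫ x, f x ∂μ ≤ (μ K).toReal := by
  calc ∫ x, f x ∂μ = ∫ x in K, f x ∂μ := (setIntegral_eq_integral_of_forall_compl_eq_zero hfK).symm
    _ ≤ ∫ x in K, (1 : ℝ) ∂μ := by
        apply setIntegral_mono (hf.integrableX (m := μ)).integrableOn
          (integrableOn_const hK.measure_lt_top.ne)
        exact hf1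
    _ = (μ K).toReal := by rw [setIntegral_const]; simp [Measure.real]

theorem weights [LocallyCompactSpace G] (μ : Measure G) [μ.IsHaarMeasure] {C : Set G}
    (hC : IsCompact C) {ε : ℝ} (hε : 0 < ε) :
    ∃ w w' : G → ℝ, CC w ∧ CC w' ∧ (∀ x, 0 ≤ w x) ∧ (∀ x, 0 ≤ w' x) ∧ ∫ x, w x ∂μ = 1 ∧
      ∫ x, w' x ∂μ ≤ Real.exp ε ∧ ∀ c ∈ C, ∀ x, w x ≤ w' (c⁻¹ * x) := by
  obtain ⟨N, hN, hN1⟩ := exists_compact_mem_nhds (1 : G)
  set D : Set G := C⁻¹ ∪ N
  have hD : IsCompact D := hC.inv.union hN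
  have hD1 : D ∈ 𝓝 (1 : G) := mem_of_superset hN1 subset_union_right
  obtain ⟨m, hm, hgr⟩ := growth μ hD hD1 hε
  have hsub : ∀ j, D ^ j ⊆ interior (D ^ (j + 1)) := by
    intro j
    have h1 : D ^ j * interior D ⊆ interior (D ^ (j + 1)) := by
      apply interior_maximal _ (isOpen_interior.mul_left)
      rw [pow_succ]
      exact Set.mul_subset_mul_left interior_subset
    refine Subset.trans (fun x hx => ?_) h1
    exact ⟨x, hx, 1, mem_interior_iff_mem_nhds.2 hD1, by simp⟩
  have hfe : ∀ j, ∃ f : G → ℝ, CC f ∧ (∀ x, 0 ≤ f x) ∧ (∀ x, f x ≤ 1) ∧ (∀ x ∈ D ^ j, f x = 1) ∧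
      (∀ x, x ∉ D ^ (j + 1) → f x = 0) := by
    intro j
    obtain ⟨f, hf1, hf2, hf3, hf4⟩ := exists_continuousMap_one_of_isCompact_subset_isOpen
      (isCompact_pow hD j) isOpen_interior (hsub j)
    refine ⟨f, ⟨f.continuous, hf2⟩, fun x => (hf4 x).1, fun x => (hf4 x).2, fun x hx => hf1 hx, ?_⟩
    intro x hx
    by_contra hne
    exact hx (interior_subset (hf3 (subset_tsupport _ hne)))
  obtain ⟨f, hf, hf0, hf1, hfm, hfm'⟩ := hfe m
  obtain ⟨g, hg, hg0, hg1, hgm, hgm'⟩ := hfe (m + 2)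
  set I := ∫ x, f x ∂μ with hI
  have hIpos : 0 < I := by
    have h1 := measure_le_integral μ (isCompact_pow hD m) hf hf0 hfm
    have h2 : 0 < (μ (D ^ m)).toReal := by
      apply ENNReal.toReal_pos _ (isCompact_pow hD m).measure_lt_top.ne
      apply (Measure.measure_pos_of_mem_nhds μ (x := 1) _).ne'
      obtain ⟨j, rfl⟩ : ∃ j, m = j + 1 := ⟨m - 1, by omega⟩
      apply mem_interior_iff_mem_nhds.1
      apply hsub j
      have h1D : (1 : G) ∈ D := mem_of_mem_nhds hD1
      have : ∀ j : ℕ, (1 : G) ∈ D ^ j := by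
        intro j
        induction j with
        | zero => simp
        | succ j ih => rw [pow_succ]; exact ⟨1, ih, 1, h1D, by simp⟩
      exact this j
    linarith
  refine ⟨fun x => I⁻¹ * f x, fun x => I⁻¹ * g x, hf.mulR continuous_const, hg.mulR continuous_const,
    fun x => mul_nonneg (inv_nonneg.2 hIpos.le) (hf0 x),
    fun x => mul_nonneg (inv_nonneg.2 hIpos.le) (hg0 x), ?_, ?_, ?_⟩
  · rw [integral_const_mul, inv_mul_cancel₀ hIpos.ne']
  · rw [integral_const_mul, inv_mul_le_iff₀ hIpos]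
    have h1 := integral_le_measure μ (isCompact_pow hD (m + 3)) hg hg1 hgm'
    have h2 := measure_le_integral μ (isCompact_pow hD m) hf hf0 hfm
    calc ∫ x, g x ∂μ ≤ (μ (D ^ (m + 3))).toReal := h1
      _ ≤ Real.exp ε * (μ (D ^ m)).toReal := hgr
      _ ≤ Real.exp ε * I := mul_le_mul_of_nonneg_left h2 (Real.exp_pos _).le
      _ = I * Real.exp ε := mul_comm _ _
  · intro c hc x
    apply mul_le_mul_of_nonneg_left _ (inv_nonneg.2 hIpos.le)
    by_cases hx : x ∈ D ^ (m + 1)
    · have : c⁻¹ * x ∈ D ^ (m + 2) := by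
        rw [pow_succ' D (m + 1)]
        exact ⟨c⁻¹, Or.inl (Set.inv_mem_inv.2 hc), x, hx, rfl⟩
      rw [hgm _ this]; exact hf1 x
    · rw [hfm' x hx]; exact hg0 _

end Pool.Agent.H1R3.BT
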