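import Pool.Agent.H1R3.BT.Ent

set_option autoImplicit false
set_option linter.unusedSectionVars false
open MeasureTheory Filter Topology Set
open scoped ComplexConjugate InnerProductSpace Pointwise

namespace Pool.Agent.H1R3.BT

variable {G : Type} [CommGroup G] [TopologicalSpace G] [IsTopologicalGroup G]
  [LocallyCompactSpace G] [T2Space G] [MeasurableSpace G] [BorelSpace G]
  {μ : Measure G} [μ.IsHaarMeasure]
  {H : Type} [NormedAddCommGroup H] [InnerProductSpace ℂ H] [CompleteSpace H]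
  (S : Sys G μ H)

/-! ### adjoints and norms of averages -/

theorem Sys.star_p {w : G → ℝ} (hw : CC w) {ψ ψ' : G → G} (hψ : Continuous ψ)
    (hψ' : Continuous ψ') (h : ∀ x, ψ' x = (ψ x)⁻¹) :
    S.p hw.toC hψ' = star (S.p hw.toC hψ) := by
  apply Subtype.ext
  show S.P hw.toC hψ' = star (S.P hw.toC hψ)
  rw [ContinuousLinearMap.star_eq_adjoint, ContinuousLinearMap.eq_adjoint_iff]
  intro v v'
  rw [S.P_apply, S.P_apply, ← integral_inner (S.integrable hw.toC hψ v'),
    ← inner_conj_symm, ← integral_inner (S.integrable hw.toC hψ' v), ← integral_conj]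
  congr 1; ext x
  rw [inner_conj_symm, inner_smul_left, inner_smul_right, Complex.conj_ofReal, h x,
    S.star_mul_apply, inv_inv]

theorem Sys.p_norm {w : G → ℝ} (hw : CC w) (hw0 : ∀ x, 0 ≤ w x) (hw1 : ∫ x, w x ∂μ = 1)
    {ψ : G → G} (hψ : Continuous ψ) : ‖S.p hw.toC hψ‖ ≤ 1 := by
  refine (S.P_norm_le hw.toC hψ).trans (le_of_eq ?_)
  rw [← hw1]
  congr 1; ext x
  rw [Complex.norm_real, Real.norm_eq_abs, abs_of_nonneg (hw0 x)]

theorem Sys.X_norm {w : G → ℝ} (hw : CC w) (hw0 : ∀ x, 0 ≤ w x) (hw1 : ∫ x, w x ∂μ = 1)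
    {ψ : ℕ → G → G} (hψ : ∀ n, Continuous (ψ n)) (n : ℕ) : ‖S.X hw hψ 1 n‖ ≤ 1 := by
  induction n with
  | zero =>
    show ‖(1 : H →L[ℂ] H)‖ ≤ 1
    exact ContinuousLinearMap.norm_id_le
  | succ n ih =>
    rw [Sys.X]
    refine (norm_mul_le _ _).trans ?_
    have := S.p_norm hw hw0 hw1 (hψ n)
    nlinarith [norm_nonneg (S.p hw.toC (hψ n)), norm_nonneg (S.X hw hψ 1 n)]

/-! ### the dynamical products -/

variable (φ : G →ₜ* G)

theorem iter_cont (n : ℕ) : Continuous (⇑φ)^[n] := (map_continuous φ).iterate n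

theorem iter_mul (n : ℕ) (x y : G) : (⇑φ)^[n] (x * y) = (⇑φ)^[n] x * (⇑φ)^[n] y :=
  iterate_map_mul φ n x y

theorem iter_dual (n : ℕ) : ∀ (κ : PontryaginDual G) (x : G),
    ((⇑(PontryaginDual.map φ))^[n] κ) x = κ ((⇑φ)^[n] x) := by
  induction n with
  | zero => intro κ x; rfl
  | succ n ih =>
    intro κ x
    rw [Function.iterate_succ_apply, ih, PontryaginDual.map_apply, Function.iterate_succ_apply']

theorem iter_dual_cont (n : ℕ) : Continuous (⇑(PontryaginDual.map φ))^[n] :=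
  (map_continuous (PontryaginDual.map φ)).iterate n

theorem Sys.char_p_iter {m : S.Δ} (hm : S.good m) {w : G → ℝ} (hw : CC w) (k : ℕ) :
    m (S.p hw.toC (iter_cont φ k)) =
      ft μ (fun x => (w x : ℂ)) ((⇑(PontryaginDual.map φ))^[k] (S.κ m)) := by
  rw [S.char_p hm, ft]
  congr 1; ext x
  rw [iter_dual]

/-- the product function on the dual -/
noncomputable def FF (f : PontryaginDual G → ℝ) (n : ℕ) (κ : PontryaginDual G) : ℝ :=
  ∏ k ∈ Finset.range n, f ((⇑(PontryaginDual.map φ))^[k] κ)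

theorem FF_cc {f : PontryaginDual G → ℝ} (hf : CC f) {n : ℕ} (hn : 1 ≤ n) : CC (FF φ f n) := by
  constructor
  · exact continuous_finsetProd _ fun k _ => hf.1.comp (iter_dual_cont φ k)
  · apply HasCompactSupport.intro hf.2
    intro κ hκ
    apply Finset.prod_eq_zero (i := 0) (Finset.mem_range.2 (by omega))
    rw [Function.iterate_zero, id]
    exact image_eq_zero_of_notMem_tsupport hκ

theorem FF_nonneg {f : PontryaginDual G → ℝ} (hf0 : ∀ κ, 0 ≤ f κ) (n : ℕ) (κ : PontryaginDual G) :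
    0 ≤ FF φ f n κ := Finset.prod_nonneg fun _ _ => hf0 _

theorem FF_le_one {f : PontryaginDual G → ℝ} (hf0 : ∀ κ, 0 ≤ f κ) (hf1 : ∀ κ, f κ ≤ 1) (n : ℕ)
    (κ : PontryaginDual G) : FF φ f n κ ≤ 1 := Finset.prod_le_one (fun _ _ => hf0 _) fun _ _ => hf1 _

theorem FF_zero {f : PontryaginDual G → ℝ} {n : ℕ} (hn : 1 ≤ n) {κ : PontryaginDual G}
    (h : f κ = 0) : FF φ f n κ = 0 :=
  Finset.prod_eq_zero (i := 0) (Finset.mem_range.2 (by omega)) (by simpa using h)

/-- cotrajectories -/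
def cot (V : Set (PontryaginDual G)) (n : ℕ) : Set (PontryaginDual G) :=
  ⋂ i ∈ Finset.range n, (⇑(PontryaginDual.map φ))^[i] ⁻¹' V

/-- trajectories -/
def traj (K : Set G) (n : ℕ) : Set G := ∏ i ∈ Finset.range n, (⇑φ)^[i] '' K

theorem cot_subset {V : Set (PontryaginDual G)} {n : ℕ} (hn : 1 ≤ n) : cot φ V n ⊆ V := by
  intro κ hκ
  have := Set.mem_iInter₂.1 hκ 0 (Finset.mem_range.2 (by omega))
  simpa using this

theorem cot_compact {V : Set (PontryaginDual G)} (hV : IsCompact V) {n : ℕ} (hn : 1 ≤ n) :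
    IsCompact (cot φ V n) := by
  apply hV.of_isClosed_subset _ (cot_subset φ hn)
  exact isClosed_biInter fun i _ => hV.isClosed.preimage (iter_dual_cont φ i)

theorem traj_compact {K : Set G} (hK : IsCompact K) (n : ℕ) : IsCompact (traj φ K n) := by
  induction n with
  | zero => simp only [traj, Finset.range_zero, Finset.prod_empty]; exact isCompact_singleton
  | succ n ih =>
    rw [traj, Finset.prod_range_succ]
    exact ih.mul (hK.image (iter_cont φ n))

theorem mem_traj {K : Set G} {n : ℕ} {t : G} (ht : t ∈ traj φ K n) :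
    ∃ c : ℕ → G, (∀ k < n, c k ∈ K) ∧ t = ∏ k ∈ Finset.range n, (⇑φ)^[k] (c k) := by
  induction n generalizing t with
  | zero =>
    simp only [traj, Finset.range_zero, Finset.prod_empty, Set.mem_one] at ht
    exact ⟨fun _ => 1, fun k hk => absurd hk (Nat.not_lt_zero k), by simp [ht]⟩
  | succ n ih =>
    rw [traj, Finset.prod_range_succ] at ht
    obtain ⟨a, ha, b, ⟨x, hx, rfl⟩, rfl⟩ := ht
    obtain ⟨c, hc, rfl⟩ := ih ha
    refine ⟨fun k => if k = n then x else c k, ?_, ?_⟩
    · intro k hk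
      by_cases h : k = n
      · simp [h, hx]
      · simp only [h, if_false]; exact hc k (by omega)
    · rw [Finset.prod_range_succ]
      simp only [if_true]
      congr 1
      apply Finset.prod_congr rfl
      intro k hk
      rw [if_neg (Finset.mem_range.1 hk).ne]

theorem traj_mem {K : Set G} {n : ℕ} {c : ℕ → G} (hc : ∀ k < n, c k ∈ K) :
    ∏ k ∈ Finset.range n, (⇑φ)^[k] (c k) ∈ traj φ K n := by
  induction n with
  | zero => simp [traj]
  | succ n ih =>
    rw [traj, Finset.prod_range_succ, Finset.prod_range_succ]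
    exact Set.mul_mem_mul (ih fun k hk => hc k (by omega)) ⟨c n, hc n (by omega), rfl⟩

section II
variable [MeasurableSpace (PontryaginDual G)] [BorelSpace (PontryaginDual G)]

theorem measD_le_integral (ν : Measure (PontryaginDual G)) [ν.IsHaarMeasure]
    {K : Set (PontryaginDual G)} (hK : IsCompact K)
    {f : PontryaginDual G → ℝ} (hf : CC f) (hf0 : ∀ x, 0 ≤ f x) (hf1 : ∀ x ∈ K, f x = 1) :
    (ν K).toReal ≤ ∫ x, f x ∂ν := by
  calc (ν K).toReal = ∫ x in K, (1 : ℝ) ∂ν := by rw [setIntegral_const]; simp [Measure.real]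
    _ = ∫ x in K, f x ∂ν := setIntegral_congr_fun hK.measurableSet (fun x hx => (hf1 x hx).symm)
    _ ≤ ∫ x, f x ∂ν := setIntegral_le_integral (hf.integrableX (m := ν))
        (Filter.Eventually.of_forall hf0)

theorem integral_le_measD (ν : Measure (PontryaginDual G)) [ν.IsHaarMeasure]
    {K : Set (PontryaginDual G)} (hK : IsCompact K)
    {f : PontryaginDual G → ℝ} (hf : CC f) (hf1 : ∀ x, f x ≤ 1) (hfK : ∀ x, x ∉ K → f x = 0) :
    ∫ x, f x ∂ν ≤ (ν K).toReal := by
  calc ∫ x, f x ∂ν = ∫ x in K, f x ∂ν := (setIntegral_eq_integral_of_forall_compl_eq_zero hfK).symm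
    _ ≤ ∫ x in K, (1 : ℝ) ∂ν := by
        apply setIntegral_mono (hf.integrableX (m := ν)).integrableOn
          (integrableOn_const hK.measure_lt_top.ne)
        exact hf1
    _ = (ν K).toReal := by rw [setIntegral_const]; simp [Measure.real]

include S in
theorem Sys.ineqII (ν : Measure (PontryaginDual G)) [ν.IsHaarMeasure] [ν.Regular]
    {K : Set G} (hK : IsCompact K) {ε : ℝ} (hε : 0 < ε) :
    ∃ V : Set (PontryaginDual G), IsCompact V ∧ V ∈ 𝓝 (1 : PontryaginDual G) ∧ ∃ c : ℝ,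
      ∀ n, 1 ≤ n → (μ (traj φ K n)).toReal * (ν (cot φ V n)).toReal ≤ c * Real.exp (3 * ε * n) := by
  obtain ⟨w, w', hw, hw', hw0, hw0', hw1, hw1', hww⟩ := weights μ hK hε
  set fw := ft μ (fun x => (w x : ℂ)) with hfw
  have hfwc : Continuous fw := ft_cont hw.toC
  have hfw1 : fw 1 = 1 := by
    rw [hfw]; unfold ft
    have : ∀ x, (w x : ℂ) * (((1 : PontryaginDual G) x : Circle) : ℂ) = (w x : ℂ) := by
      intro x; rw [PontryaginDual.one_apply]; simp
    simp_rw [this]
    rw [integral_complex_ofReal, hw1]; simp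
  set O : Set (PontryaginDual G) := {χ | Real.exp (-ε) < ‖fw χ‖} with hO
  have hOo : IsOpen O := isOpen_lt continuous_const hfwc.norm
  have h1O : (1 : PontryaginDual G) ∈ O := by
    show Real.exp (-ε) < ‖fw 1‖
    rw [hfw1, norm_one, Real.exp_lt_one_iff]; linarith
  obtain ⟨V, hVc, hV1, hVO⟩ := exists_compact_subset hOo h1O
  obtain ⟨f, hf1, hf2, hf3, hf4⟩ := exists_continuousMap_one_of_isCompact_subset_isOpen hVc hOo hVO
  have hf : CC f := ⟨f.continuous, hf2⟩
  have hVn : V ∈ 𝓝 (1 : PontryaginDual G) := mem_interior_iff_mem_nhds.1 hV1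
  have hV'n : tsupport f ∈ 𝓝 (1 : PontryaginDual G) := by
    apply mem_of_superset hVn
    intro κ hκ
    apply subset_tsupport
    rw [Function.mem_support, hf1 hκ]
    simp
  obtain ⟨p, hp, hp0, hp1, -, C₀, hC₀, hstar⟩ := S.star_ineq ν hf2 hV'n
  set v := S.ι fun x => (p x : ℂ) with hv
  refine ⟨V, hVc, hVn, C₀ * ∫ z, S.uu v 1 z ∂μ, fun n hn => ?_⟩
  -- operators
  have hψ := iter_cont φ
  have hψ' : ∀ k, Continuous fun x => ((⇑φ)^[k] x)⁻¹ := fun k => (hψ k).inv
  set B := S.X hw hψ' 1 n with hB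
  set Φ := S.X hw hψ B n with hΦ
  set Φ' := S.X hw' hψ B n with hΦ'
  have hq0 : ∀ z, 0 ≤ S.uu v 1 z := S.uu_one_nonneg hp hp0
  have hB0 : ∀ z, 0 ≤ S.uu v B z := S.X_nonneg hw hw0 hψ' hq0 n
  have hΦ0 : ∀ z, 0 ≤ S.uu v Φ z := S.X_nonneg hw hw0 hψ hB0 n
  have hΦ'0 : ∀ z, 0 ≤ S.uu v Φ' z := S.X_nonneg hw' hw0' hψ hB0 n
  -- lower bound
  have hFcc := FF_cc φ hf hn
  have hchar : ∀ m : S.Δ, m Φ = ((∏ k ∈ Finset.range n, ‖m (S.p hw.toC (hψ k))‖ ^ 2 : ℝ) : ℂ) := by
    intro m
    rw [hΦ, S.char_X, hB, S.char_X, map_one, mul_one, ← Finset.prod_mul_distrib]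
    push_cast
    apply Finset.prod_congr rfl
    intro k _
    rw [S.star_p hw (hψ k) (hψ' k) (fun x => rfl), S.char_star, Complex.mul_conj,
      Complex.normSq_eq_norm_sq]
    push_cast; rfl
  have hlow : Real.exp (-(2 * ε * n)) * S.Lam v hFcc ≤ S.uu v Φ 1 := by
    have := S.pos (a := Φ - ((Real.exp (-(2 * ε * n)) : ℝ) : ℂ) • S.T hFcc.toC) (fun m => by
      rw [map_sub, map_smul, S.char_T, hchar, smul_eq_mul, Complex.sub_re, Complex.ofReal_re,
        Complex.re_ofReal_mul, sub_nonneg]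
      by_cases hm : S.good m
      · rw [S.sharp_good _ hm, Complex.ofReal_re]
        have h1 : Real.exp (-(2 * ε * n)) = ∏ k ∈ Finset.range n, Real.exp (-(2 * ε)) := by
          rw [Finset.prod_const, Finset.card_range, ← Real.exp_nat_mul]; congr 1; ring
        rw [h1, FF, ← Finset.prod_mul_distrib]
        apply Finset.prod_le_prod
        · intro k _; exact mul_nonneg (Real.exp_pos _).le (hf4 _).1
        · intro k _
          rw [S.char_p_iter φ hm hw]
          set κk := (⇑(PontryaginDual.map φ))^[k] (S.κ m)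
          by_cases h0 : f κk = 0
          · rw [h0, mul_zero]; positivity
          · have h2 : κk ∈ O := hf3 (subset_tsupport _ h0)
            have h3 : Real.exp (-ε) < ‖fw κk‖ := h2
            have h4 := (hf4 κk).2
            have h5 : Real.exp (-(2 * ε)) = Real.exp (-ε) ^ 2 := by
              rw [← Real.exp_nat_mul]; congr 1; push_cast; ring
            calc Real.exp (-(2 * ε)) * f κk ≤ Real.exp (-(2 * ε)) * 1 :=
                  mul_le_mul_of_nonneg_left h4 (Real.exp_pos _).le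
              _ = Real.exp (-ε) ^ 2 := by rw [mul_one, h5]
              _ ≤ ‖fw κk‖ ^ 2 := by
                  apply pow_le_pow_left₀ (Real.exp_pos _).le h3.le
      · rw [S.sharp_bad _ hm, Complex.zero_re, mul_zero]
        exact Finset.prod_nonneg fun k _ => by positivity) v
    have h3 : ((Φ - ((Real.exp (-(2 * ε * n)) : ℝ) : ℂ) • S.T hFcc.toC : S.A) : H →L[ℂ] H) v =
      (Φ : H →L[ℂ] H) v - ((Real.exp (-(2 * ε * n)) : ℝ) : ℂ) • (S.T hFcc.toC : H →L[ℂ] H) v := rfl
    rw [h3, inner_sub_right, inner_smul_right, Complex.sub_re, Complex.re_ofReal_mul,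
      sub_nonneg] at this
    have h4 : S.uu v Φ 1 = (⟪v, (Φ : H →L[ℂ] H) v⟫_ℂ).re := by
      rw [Sys.uu, S.U_one]; rfl
    rw [h4]
    exact this
  -- measure of the cotrajectory
  have hν : (ν (cot φ V n)).toReal ≤ C₀ * (Real.exp (2 * ε * n) * S.uu v Φ 1) := by
    have h1 : (ν (cot φ V n)).toReal ≤ ∫ κ, FF φ f n κ ∂ν := by
      apply measD_le_integral ν (cot_compact φ hVc hn) hFcc (FF_nonneg φ (fun κ => (hf4 κ).1) n)
      intro κ hκ
      apply Finset.prod_eq_one
      intro k hk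
      have := Set.mem_iInter₂.1 hκ k hk
      exact hf1 this
    have h2 := (hstar (FF φ f n) hFcc (FF_nonneg φ (fun κ => (hf4 κ).1) n) (fun κ hκ =>
      FF_zero φ hn (image_eq_zero_of_notMem_tsupport hκ))).2
    have h3 : S.Lam v hFcc ≤ Real.exp (2 * ε * n) * S.uu v Φ 1 := by
      have h4 := mul_le_mul_of_nonneg_left hlow (Real.exp_pos (2 * ε * n)).le
      rw [← mul_assoc, ← Real.exp_add, add_neg_cancel, Real.exp_zero, one_mul] at h4
      exact h4
    exact h1.trans (h2.trans (mul_le_mul_of_nonneg_left h3 hC₀.le))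
  -- measure of the trajectory
  have hμ : (μ (traj φ K n)).toReal * S.uu v Φ 1 ≤ Real.exp (ε * n) * ∫ z, S.uu v 1 z ∂μ := by
    obtain ⟨k₀, hk1, hk2, -, hk4⟩ := exists_continuousMap_one_of_isCompact_subset_isOpen
      (traj_compact φ hK n) isOpen_univ (subset_univ _)
    have hk : CC k₀ := ⟨k₀.continuous, hk2⟩
    have hqcc := S.uu_one_cc hp
    have hbase : ∀ a, ∫ z, k₀ z * S.uu v 1 (z * a) ∂μ ≤ ∫ z, S.uu v 1 z ∂μ := by
      intro a
      rw [← integral_mul_right_eq_self (S.uu v 1) a]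
      apply integral_mono
      · exact S.int_uu v 1 hk (continuous_id.mul continuous_const)
      · have : CC fun z => S.uu v 1 (z * a) :=
          ⟨hqcc.1.comp (continuous_id.mul continuous_const),
            hqcc.2.comp_homeomorph (Homeomorph.mulRight a)⟩
        exact this.integrableX
      · intro z
        have := hq0 (z * a)
        have h4 := hk4 z
        show k₀ z * S.uu v 1 (z * a) ≤ S.uu v 1 (z * a)
        nlinarith [h4.1, h4.2]
    have h1 := S.claimB hw hw0 hψ' hk (fun z => (hk4 z).1) hq0 hbase n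
    have h2 := S.claimB hw' hw0' hψ hk (fun z => (hk4 z).1) hB0 h1 n 1
    rw [hw1, one_pow, one_mul] at h2
    have h3 : (μ (traj φ K n)).toReal * S.uu v Φ 1 ≤ ∫ z, k₀ z * S.uu v Φ' (z * 1) ∂μ := by
      calc (μ (traj φ K n)).toReal * S.uu v Φ 1 = ∫ z in traj φ K n, S.uu v Φ 1 ∂μ := by
            rw [setIntegral_const]; rfl
        _ ≤ ∫ z in traj φ K n, k₀ z * S.uu v Φ' (z * 1) ∂μ := by
            apply setIntegral_mono_on (integrableOn_const (traj_compact φ hK n).measure_lt_top.ne)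
              (S.int_uu v Φ' hk (continuous_id.mul continuous_const)).integrableOn
              (traj_compact φ hK n).measurableSet
            intro z hz
            show S.uu v Φ 1 ≤ k₀ z * S.uu v Φ' (z * 1)
            rw [hk1 hz, Pi.one_apply, one_mul, mul_one]
            obtain ⟨c, hc, rfl⟩ := mem_traj φ hz
            have := S.claimA hw hw' hw0 hw0' hww hψ (iter_mul φ) hB0 c n hc 1
            rwa [one_mul] at this
        _ ≤ _ := by
            apply setIntegral_le_integral (S.int_uu v Φ' hk (continuous_id.mul continuous_const))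
            exact Filter.Eventually.of_forall fun z => mul_nonneg (hk4 z).1 (hΦ'0 _)
    refine h3.trans (h2.trans ?_)
    have h5 : 0 ≤ ∫ z, S.uu v 1 z ∂μ := integral_nonneg hq0
    apply mul_le_mul_of_nonneg_right _ h5
    have h6 : 0 ≤ ∫ x, w' x ∂μ := integral_nonneg hw0'
    calc (∫ x, w' x ∂μ) ^ n ≤ Real.exp ε ^ n := pow_le_pow_left₀ h6 hw1' n
      _ = Real.exp (ε * n) := by rw [← Real.exp_nat_mul, mul_comm]
  calc (μ (traj φ K n)).toReal * (ν (cot φ V n)).toReal
      ≤ (μ (traj φ K n)).toReal * (C₀ * (Real.exp (2 * ε * n) * S.uu v Φ 1)) :=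
        mul_le_mul_of_nonneg_left hν ENNReal.toReal_nonneg
    _ = C₀ * Real.exp (2 * ε * n) * ((μ (traj φ K n)).toReal * S.uu v Φ 1) := by ring
    _ ≤ C₀ * Real.exp (2 * ε * n) * (Real.exp (ε * n) * ∫ z, S.uu v 1 z ∂μ) := by
        apply mul_le_mul_of_nonneg_left hμ; positivity
    _ = C₀ * (∫ z, S.uu v 1 z ∂μ) * Real.exp (3 * ε * n) := by
        have : Real.exp (3 * ε * n) = Real.exp (2 * ε * n) * Real.exp (ε * n) := by
          rw [← Real.exp_add]; congr 1; ring
        rw [this]; ring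

end II

end Pool.Agent.H1R3.BT
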