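import Pool.Agent.H1R3.BT.Main

set_option autoImplicit false
set_option linter.unusedSectionVars false
open MeasureTheory Filter Topology Set
open scoped ComplexConjugate InnerProductSpace Pointwise

namespace Pool.Agent.H1R3.BT

variable {G : Type} [CommGroup G] [TopologicalSpace G] [IsTopologicalGroup G]
  [LocallyCompactSpace G] [T2Space G] [MeasurableSpace G] [BorelSpace G]
  {μ : Measure G} [μ.IsHaarMeasure]
  {H : Type} [NormedAddCommGroup H] [InnerProductSpace ℂ H] [CompleteSpace H]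
  (S : Sys G μ H)
  [MeasurableSpace (PontryaginDual G)] [BorelSpace (PontryaginDual G)]

include S in
/-- a vector `h ≠ 0` with `⟨h, M_χ h⟩ = 0` off a given neighbourhood of `1` -/
theorem Sys.exists_h (ν : Measure (PontryaginDual G)) [ν.IsHaarMeasure] [ν.Regular]
    {V : Set (PontryaginDual G)} (hV : V ∈ 𝓝 (1 : PontryaginDual G)) :
    ∃ h : H, h ≠ 0 ∧ ∀ χ, χ ∉ V → ⟪h, S.M χ h⟫_ℂ = 0 := by
  obtain ⟨A, hA, hAV⟩ : ∃ A ∈ 𝓝 (1 : PontryaginDual G), ∀ a ∈ A, ∀ b ∈ A, a / b ∈ V := by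
    obtain ⟨A, hA, h⟩ := exists_nhds_split_inv hV
    exact ⟨A, hA, h⟩
  obtain ⟨k, hk1, hk2, hk3, hk4⟩ := exists_continuousMap_one_of_isCompact_subset_isOpen
    (isCompact_singleton (x := (1 : PontryaginDual G))) isOpen_interior
    (by simpa using mem_interior_iff_mem_nhds.2 hA)
  have hk : CC k := ⟨k.continuous, hk2⟩
  have hk1' : k 1 = 1 := hk1 rfl
  have hkn : tsupport k ∈ 𝓝 (1 : PontryaginDual G) := by
    have : {κ | k κ ≠ 0} ∈ 𝓝 (1 : PontryaginDual G) :=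
      (isOpen_ne_fun hk.1 continuous_const).mem_nhds (by simp [hk1'])
    exact mem_of_superset this (subset_tsupport _)
  obtain ⟨p, hp, hp0, hp1, -, C₀, hC₀, hstar⟩ := S.star_ineq ν hk2 hkn
  set v := S.ι fun x => (p x : ℂ)
  set T := S.T hk.toC
  refine ⟨(T : H →L[ℂ] H) v, ?_, ?_⟩
  · intro h0
    have hkk : CC fun κ => k κ * k κ := hk.mulR hk.1
    have e1 : S.T hkk.toC = star T * (1 * T) := by
      apply S.ext_char
      intro m
      rw [map_mul, map_mul, map_one, S.char_star, S.char_T, S.char_T]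
      by_cases hm : S.good m
      · rw [S.sharp_good _ hm, S.sharp_good _ hm, Complex.conj_ofReal]; push_cast; ring
      · rw [S.sharp_bad _ hm, S.sharp_bad _ hm]; ring
    have h1 := (hstar _ hkk (fun κ => mul_self_nonneg _) (fun κ hκ => by
      simp [image_eq_zero_of_notMem_tsupport hκ])).2
    have h2 : S.Lam v hkk = 0 := by
      rw [Sys.Lam, e1, S.inner_star_mul, h0]; simp
    rw [h2, mul_zero] at h1
    have h3 : 0 < ∫ κ, k κ * k κ ∂ν :=
      hkk.1.integral_pos_of_hasCompactSupport_nonneg_nonzero hkk.2 (fun κ => mul_self_nonneg _)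
        (x := 1) (by simp [hk1'])
    linarith
  · intro χ hχ
    have e2 : S.α χ T * T = 0 := by
      apply S.ext_char
      intro m
      rw [map_mul, ← S.τ_apply, S.char_T, S.char_T, map_zero]
      by_cases hm : S.good m
      · rw [S.sharp_good _ hm, S.sharp_good _ (S.good_τ.2 hm), S.κ_τ hm]
        by_contra hne
        have ha : k (S.κ m) ≠ 0 := by
          intro h; apply hne; simp [h]
        have hb : k (χ⁻¹ * S.κ m) ≠ 0 := by
          intro h; apply hne; simp [h]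
        apply hχ
        have := hAV _ (interior_subset (hk3 (subset_tsupport _ ha))) _
          (interior_subset (hk3 (subset_tsupport _ hb)))
        have hdiv : S.κ m / (χ⁻¹ * S.κ m) = χ := by
          rw [div_mul_eq_div_div, div_inv_eq_mul, mul_comm, mul_div_assoc, div_self', mul_one]
        rwa [hdiv] at this
      · rw [S.sharp_bad _ hm]; ring
    have e3 : star T = T := by
      apply S.ext_char
      intro m
      rw [S.char_star, S.char_T]
      by_cases hm : S.good m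
      · rw [S.sharp_good _ hm, Complex.conj_ofReal]
      · rw [S.sharp_bad _ hm, map_zero]
    have e4 : star (T : H →L[ℂ] H) = (T : H →L[ℂ] H) := congrArg Subtype.val e3
    have e5 : star (S.M χ) ((T : H →L[ℂ] H) (S.M χ ((T : H →L[ℂ] H) v))) = 0 :=
      DFunLike.congr_fun (congrArg Subtype.val e2) v
    have e6 : (T : H →L[ℂ] H) (S.M χ ((T : H →L[ℂ] H) v)) = 0 := by
      have h1 : S.M χ (star (S.M χ) ((T : H →L[ℂ] H) (S.M χ ((T : H →L[ℂ] H) v)))) =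
        (T : H →L[ℂ] H) (S.M χ ((T : H →L[ℂ] H) v)) :=
        DFunLike.congr_fun (S.M_mul_star χ) _
      rw [← h1, e5, map_zero]
    rw [← e4, ContinuousLinearMap.star_eq_adjoint, ContinuousLinearMap.adjoint_inner_left,
      ← ContinuousLinearMap.star_eq_adjoint, e4, e6, inner_zero_right]

theorem Sys.ι_sub {f g : G → ℂ} (hf : CC f) (hg : CC g) :
    S.ι (fun x => f x - g x) = S.ι f - S.ι g := by
  have hg' : CC ((-1 : ℂ) • g) := by
    have := hg.mulc (g := fun _ => (-1 : ℂ)) continuous_const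
    exact this
  have h1 := S.ι_add f ((-1 : ℂ) • g) hf hg'
  rw [S.ι_smul _ _ hg] at h1
  have h2 : (f + (-1 : ℂ) • g) = fun x => f x - g x := by
    ext x; simp [sub_eq_add_neg]
  rw [h2] at h1
  rw [h1]; simp [sub_eq_add_neg]

theorem Sys.norm_ι_sq {g : G → ℂ} (hg : CC g) : ‖S.ι g‖ ^ 2 = ∫ x, ‖g x‖ ^ 2 ∂μ := by
  have h1 := S.inner_ι g g hg hg
  rw [inner_self_eq_norm_sq_to_K] at h1
  have h2 : (∫ x, conj (g x) * g x ∂μ) = ((∫ x, ‖g x‖ ^ 2 ∂μ : ℝ) : ℂ) := by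
    rw [← integral_complex_ofReal]
    congr 1; ext x
    rw [mul_comm, Complex.mul_conj, Complex.normSq_eq_norm_sq]
  rw [h2] at h1
  apply Complex.ofReal_injective
  rw [Complex.ofReal_pow]
  exact h1

theorem CC.normsq {g : G → ℂ} (hg : CC g) : CC fun x => ‖g x‖ ^ 2 :=
  ⟨hg.1.norm.pow 2, hg.2.comp_left (g := fun z : ℂ => ‖z‖ ^ 2) (by simp)⟩

include S in
/-- weights with almost vanishing transform off `V` and uniformly concentrated on a compact set -/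
theorem Sys.lemmaW (ν : Measure (PontryaginDual G)) [ν.IsHaarMeasure] [ν.Regular]
    {V : Set (PontryaginDual G)} (hV : V ∈ 𝓝 (1 : PontryaginDual G)) {δ : ℝ} (hδ : 0 < δ) :
    ∃ K : Set G, IsCompact K ∧ ∀ η : ℝ, 0 < η → ∃ w : G → ℝ, CC w ∧ (∀ x, 0 ≤ w x) ∧
      ∫ x, w x ∂μ = 1 ∧ 1 - δ ≤ ∫ x in K, w x ∂μ ∧
      ∀ χ, χ ∉ V → ‖ft μ (fun x => (w x : ℂ)) χ‖ ≤ η := by
  obtain ⟨h, hne, horth⟩ := S.exists_h ν hV
  set r := ‖h‖ with hr
  have hrpos : 0 < r := norm_pos_iff.2 hne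
  set d := min 1 δ with hd
  have hdpos : 0 < d := lt_min one_pos hδ
  have hd1 : d ≤ 1 := min_le_left _ _
  have hdδ : d ≤ δ := min_le_right _ _
  obtain ⟨g₀, hg₀, hg₀'⟩ := S.dense h (r * d / 4) (by positivity)
  refine ⟨tsupport g₀, hg₀.2, fun η hη => ?_⟩
  obtain ⟨g, hg, hg'⟩ := S.dense h (min (r * d / 4) (r * η / 12)) (by positivity)
  have hgr : ‖h - S.ι g‖ ≤ r * d / 4 := hg'.trans (min_le_left _ _)
  have hgη : ‖h - S.ι g‖ ≤ r * η / 12 := hg'.trans (min_le_right _ _)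
  have hιlow : r / 2 ≤ ‖S.ι g‖ := by
    have h1 : r ≤ ‖h - S.ι g‖ + ‖S.ι g‖ := by
      have := norm_add_le (h - S.ι g) (S.ι g)
      rwa [sub_add_cancel] at this
    nlinarith
  have hιup : ‖S.ι g‖ ≤ 2 * r := by
    have h1 : ‖S.ι g‖ ≤ ‖h‖ + ‖h - S.ι g‖ := by
      have := norm_sub_le h (h - S.ι g)
      rwa [sub_sub_cancel] at this
    nlinarith
  set I := ‖S.ι g‖ ^ 2 with hI
  have hIlow : r ^ 2 / 4 ≤ I := by
    have : (r / 2) ^ 2 ≤ ‖S.ι g‖ ^ 2 := pow_le_pow_left₀ (by positivity) hιlow 2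
    rw [hI]; nlinarith
  have hIpos : 0 < I := by
    have : 0 < r ^ 2 / 4 := by positivity
    linarith
  have hIint : ∫ x, ‖g x‖ ^ 2 ∂μ = I := (S.norm_ι_sq hg).symm
  refine ⟨fun x => I⁻¹ * ‖g x‖ ^ 2, hg.normsq.mulR continuous_const,
    fun x => mul_nonneg (inv_nonneg.2 hIpos.le) (by positivity), ?_, ?_, ?_⟩
  · rw [integral_const_mul, hIint, inv_mul_cancel₀ hIpos.ne']
  · rw [integral_const_mul]
    have hK : MeasurableSet (tsupport g₀) := (isClosed_tsupport g₀).measurableSet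
    have h1 := integral_add_compl hK hg.normsq.integrableR (μ := μ)
    have h2 : ∫ x in (tsupport g₀)ᶜ, ‖g x‖ ^ 2 ∂μ ≤ (r * d / 2) ^ 2 := by
      have hsub : CC fun x => g x - g₀ x := hg.sub' hg₀
      calc ∫ x in (tsupport g₀)ᶜ, ‖g x‖ ^ 2 ∂μ = ∫ x in (tsupport g₀)ᶜ, ‖g x - g₀ x‖ ^ 2 ∂μ := by
            apply setIntegral_congr_fun hK.compl
            intro x hx
            simp only
            rw [image_eq_zero_of_notMem_tsupport hx, sub_zero]
        _ ≤ ∫ x, ‖g x - g₀ x‖ ^ 2 ∂μ :=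
            setIntegral_le_integral hsub.normsq.integrableR
              (Filter.Eventually.of_forall fun x => by positivity)
        _ = ‖S.ι (fun x => g x - g₀ x)‖ ^ 2 := (S.norm_ι_sq hsub).symm
        _ = ‖S.ι g - S.ι g₀‖ ^ 2 := by rw [S.ι_sub hg hg₀]
        _ ≤ (r * d / 2) ^ 2 := by
            apply pow_le_pow_left₀ (norm_nonneg _)
            calc ‖S.ι g - S.ι g₀‖ = ‖(h - S.ι g₀) - (h - S.ι g)‖ := by congr 1; abel
              _ ≤ ‖h - S.ι g₀‖ + ‖h - S.ι g‖ := norm_sub_le _ _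
              _ ≤ r * d / 4 + r * d / 4 := add_le_add hg₀' hgr
              _ = r * d / 2 := by ring
    have h3 : I - (r * d / 2) ^ 2 ≤ ∫ x in tsupport g₀, ‖g x‖ ^ 2 ∂μ := by
      rw [hIint] at h1; linarith
    have h4 : (r * d / 2) ^ 2 ≤ δ * I := by
      have : (r * d / 2) ^ 2 = d ^ 2 * (r ^ 2 / 4) := by ring
      rw [this]
      have hd2 : d ^ 2 ≤ δ := by nlinarith
      have : 0 ≤ r ^ 2 / 4 := by positivity
      calc d ^ 2 * (r ^ 2 / 4) ≤ δ * (r ^ 2 / 4) := mul_le_mul_of_nonneg_right hd2 this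
        _ ≤ δ * I := mul_le_mul_of_nonneg_left hIlow hδ.le
    rw [← div_eq_inv_mul, le_div_iff₀ hIpos]
    linarith
  · intro χ hχ
    have h1 : ft μ (fun x => ((I⁻¹ * ‖g x‖ ^ 2 : ℝ) : ℂ)) χ = (I⁻¹ : ℂ) * ⟪S.ι g, S.M χ (S.ι g)⟫_ℂ := by
      rw [S.M_ι χ g hg, S.inner_ι _ _ hg (hg.tw χ), ← integral_const_mul, ft]
      congr 1; ext x
      have : ((‖g x‖ ^ 2 : ℝ) : ℂ) = conj (g x) * g x := by
        rw [mul_comm, Complex.mul_conj, Complex.normSq_eq_norm_sq]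
      push_cast at this ⊢
      rw [this]; ring
    have hMn : ∀ u, ‖S.M χ u‖ = ‖u‖ := by
      intro u
      have h2 : ⟪S.M χ u, S.M χ u⟫_ℂ = ⟪u, u⟫_ℂ := by
        rw [← ContinuousLinearMap.adjoint_inner_right, ← ContinuousLinearMap.star_eq_adjoint]
        congr 1
        exact DFunLike.congr_fun (S.M_star_mul χ) u
      rw [inner_self_eq_norm_sq_to_K, inner_self_eq_norm_sq_to_K] at h2
      have h3 : ‖S.M χ u‖ ^ 2 = ‖u‖ ^ 2 := by exact_mod_cast h2
      exact (sq_eq_sq₀ (norm_nonneg _) (norm_nonneg _)).1 h3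
    have h2 : ‖⟪S.ι g, S.M χ (S.ι g)⟫_ℂ‖ ≤ 3 * r * (r * η / 12) := by
      have e : ⟪S.ι g, S.M χ (S.ι g)⟫_ℂ =
          -⟪h - S.ι g, S.M χ (S.ι g)⟫_ℂ - ⟪h, S.M χ (h - S.ι g)⟫_ℂ := by
        rw [map_sub, inner_sub_right, inner_sub_left, horth χ hχ]; ring
      rw [e]
      calc ‖-⟪h - S.ι g, S.M χ (S.ι g)⟫_ℂ - ⟪h, S.M χ (h - S.ι g)⟫_ℂ‖
          ≤ ‖⟪h - S.ι g, S.M χ (S.ι g)⟫_ℂ‖ + ‖⟪h, S.M χ (h - S.ι g)⟫_ℂ‖ := by
            rw [← norm_neg ⟪h - S.ι g, S.M χ (S.ι g)⟫_ℂ]; exact norm_sub_le _ _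
        _ ≤ ‖h - S.ι g‖ * ‖S.M χ (S.ι g)‖ + ‖h‖ * ‖S.M χ (h - S.ι g)‖ :=
            add_le_add (norm_inner_le_norm _ _) (norm_inner_le_norm _ _)
        _ = ‖h - S.ι g‖ * ‖S.ι g‖ + r * ‖h - S.ι g‖ := by rw [hMn, hMn]
        _ ≤ (r * η / 12) * (2 * r) + r * (r * η / 12) := by
            have : 0 ≤ r * η / 12 := by positivity
            gcongr
        _ = 3 * r * (r * η / 12) := by ring
    rw [h1, norm_mul, norm_inv, Complex.norm_real, Real.norm_eq_abs, abs_of_pos hIpos,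
      ← div_eq_inv_mul, div_le_iff₀ hIpos]
    calc ‖⟪S.ι g, S.M χ (S.ι g)⟫_ℂ‖ ≤ 3 * r * (r * η / 12) := h2
      _ = η * (r ^ 2 / 4) := by ring
      _ ≤ η * I := mul_le_mul_of_nonneg_left hIlow hη.le

theorem prod_add_le {n : ℕ} {a : ℕ → ℝ} {η : ℝ} (ha0 : ∀ k, 0 ≤ a k) (ha1 : ∀ k, a k ≤ 1)
    (hη : 0 ≤ η) :
    ∏ k ∈ Finset.range n, (a k + η) ≤ (∏ k ∈ Finset.range n, a k) + ((1 + η) ^ n - 1) := by
  induction n with
  | zero => simp
  | succ n ih =>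
    rw [Finset.prod_range_succ, Finset.prod_range_succ]
    have hP0 : 0 ≤ ∏ k ∈ Finset.range n, a k := Finset.prod_nonneg fun k _ => ha0 k
    have hP1 : ∏ k ∈ Finset.range n, a k ≤ 1 := Finset.prod_le_one (fun k _ => ha0 k) fun k _ => ha1 k
    have hE : 0 ≤ (1 + η) ^ n - 1 := by
      have : 1 ≤ (1 + η) ^ n := one_le_pow₀ (by linarith)
      linarith
    set P := ∏ k ∈ Finset.range n, a k
    set E := (1 + η) ^ n - 1
    have h0 := ha0 n
    have h1 := ha1 n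
    calc (∏ k ∈ Finset.range n, (a k + η)) * (a n + η) ≤ (P + E) * (a n + η) :=
          mul_le_mul_of_nonneg_right ih (by linarith)
      _ = P * a n + (P * η + E * (a n + η)) := by ring
      _ ≤ P * a n + (1 * η + E * (1 + η)) := by gcongr
      _ = P * a n + ((1 + η) ^ (n + 1) - 1) := by
          have : (1 + η) ^ (n + 1) = (E + 1) * (1 + η) := by
            rw [pow_succ]; congr 1; simp [E]
          rw [this]; ring

variable (φ : G →ₜ* G)

/-- upper bound of the correlation of iterated averages by the dual product function -/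
theorem Sys.upper {V₁ : Set (PontryaginDual G)} {f : PontryaginDual G → ℝ} (hf : CC f)
    (hf0 : ∀ κ, 0 ≤ f κ) (hf1 : ∀ κ, f κ ≤ 1) (hfV : ∀ κ ∈ V₁, f κ = 1)
    {w : G → ℝ} (hw : CC w) (hw0 : ∀ x, 0 ≤ w x) (hw1 : ∫ x, w x ∂μ = 1) {η : ℝ} (hη : 0 ≤ η)
    (hwη : ∀ χ, χ ∉ V₁ → ‖ft μ (fun x => (w x : ℂ)) χ‖ ≤ η) {n : ℕ} (hn : 1 ≤ n)
    (v : H) (z : G) :
    S.uu v (S.X hw (iter_cont φ) 1 n) z ≤
      S.Lam v (FF_cc φ hf hn) + ((1 + η) ^ n - 1) * ‖v‖ ^ 2 := by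
  have hwle : ∀ χ, ‖ft μ (fun x => (w x : ℂ)) χ‖ ≤ f χ + η := by
    intro χ
    by_cases hχ : χ ∈ V₁
    · rw [hfV χ hχ]
      have := ft_norm_le (μ := μ) hw0 χ
      rw [hw1] at this; linarith
    · have := hwη χ hχ
      have := hf0 χ
      linarith [hwη χ hχ]
  set Xn := S.X hw (iter_cont φ) 1 n with hXn
  have hE : 0 ≤ (1 + η) ^ n - 1 := by
    have : 1 ≤ (1 + η) ^ n := one_le_pow₀ (by linarith)
    linarith
  refine le_of_forall_pos_le_add fun ε hε => ?_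
  -- approximate identity
  obtain ⟨g, hg, hg0, hg1, hgv⟩ := S.approx_id v (ε := ε / (‖v‖ + 1)) (by positivity)
  set b : S.A := S.T (FF_cc φ hf hn).toC + (((1 + η) ^ n - 1 : ℝ) : ℂ) • (1 : S.A) with hb
  have hbd : ∀ m : S.Δ, ‖m (S.u z * Xn * S.pi hg.toC)‖ ≤ (m b).re := by
    intro m
    rw [hb, map_add, map_smul, map_one, S.char_T, smul_eq_mul, mul_one, Complex.add_re,
      Complex.ofReal_re, map_mul, map_mul, norm_mul, norm_mul, S.char_u_norm, one_mul]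
    by_cases hm : S.good m
    · rw [S.sharp_good _ hm, Complex.ofReal_re, S.char_pi hm, hXn, S.char_X, map_one, mul_one,
        norm_prod]
      have h1 : ‖ft μ (fun x => (g x : ℂ)) (S.κ m)‖ ≤ 1 := hg1 ▸ ft_norm_le hg0 _
      have h2 : ∏ k ∈ Finset.range n, ‖m (S.p hw.toC (iter_cont φ k))‖ ≤
          ∏ k ∈ Finset.range n, (f ((⇑(PontryaginDual.map φ))^[k] (S.κ m)) + η) := by
        apply Finset.prod_le_prod (fun k _ => norm_nonneg _)
        intro k _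
        rw [S.char_p_iter φ hm hw]
        exact hwle _
      have h3 := prod_add_le (n := n) (a := fun k => f ((⇑(PontryaginDual.map φ))^[k] (S.κ m)))
        (fun k => hf0 _) (fun k => hf1 _) hη
      have h4 : 0 ≤ ∏ k ∈ Finset.range n, ‖m (S.p hw.toC (iter_cont φ k))‖ :=
        Finset.prod_nonneg fun k _ => norm_nonneg _
      calc _ ≤ (∏ k ∈ Finset.range n, ‖m (S.p hw.toC (iter_cont φ k))‖) * 1 :=
            mul_le_mul_of_nonneg_left h1 h4
        _ ≤ _ := by rw [mul_one]; exact h2.trans h3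
    · rw [S.sharp_bad _ hm, S.char_pi_bad hm]
      simpa using hE
  have h1 := S.bnd hbd v
  have h2 : ((b : S.A) : H →L[ℂ] H) v = (S.T (FF_cc φ hf hn).toC : H →L[ℂ] H) v +
      (((1 + η) ^ n - 1 : ℝ) : ℂ) • v := rfl
  have h3 : (⟪v, (b : H →L[ℂ] H) v⟫_ℂ).re = S.Lam v (FF_cc φ hf hn) + ((1 + η) ^ n - 1) * ‖v‖ ^ 2 := by
    rw [h2, inner_add_right, inner_smul_right, inner_self_eq_norm_sq_to_K, Complex.add_re,
      Complex.re_ofReal_mul]
    have : (((‖v‖ : ℝ) : ℂ) ^ 2).re = ‖v‖ ^ 2 := by rw [← Complex.ofReal_pow, Complex.ofReal_re]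
    rw [← this]; rfl
  rw [h3] at h1
  set πv := ((S.pi hg.toC : S.A) : H →L[ℂ] H) v with hπv
  have h4 : ((S.u z * Xn * S.pi hg.toC : S.A) : H →L[ℂ] H) v = S.U z ((Xn : H →L[ℂ] H) πv) := rfl
  rw [h4] at h1
  have h5 : S.uu v Xn z = (⟪v, S.U z ((Xn : H →L[ℂ] H) πv)⟫_ℂ).re -
      (⟪v, S.U z ((Xn : H →L[ℂ] H) (πv - v))⟫_ℂ).re := by
    rw [map_sub, map_sub, inner_sub_right, Complex.sub_re, Sys.uu]; ring
  have h6 : ‖⟪v, S.U z ((Xn : H →L[ℂ] H) (πv - v))⟫_ℂ‖ ≤ ε := by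
    refine (norm_inner_le_norm _ _).trans ?_
    rw [S.U_norm]
    have h7 : ‖(Xn : H →L[ℂ] H) (πv - v)‖ ≤ 1 * ‖πv - v‖ :=
      (Xn : H →L[ℂ] H).le_of_opNorm_le (S.X_norm hw hw0 hw1 (iter_cont φ) n) _
    calc ‖v‖ * ‖(Xn : H →L[ℂ] H) (πv - v)‖ ≤ ‖v‖ * (ε / (‖v‖ + 1)) := by
          apply mul_le_mul_of_nonneg_left _ (norm_nonneg _)
          rw [one_mul] at h7
          exact h7.trans hgv
      _ = ε * (‖v‖ / (‖v‖ + 1)) := by ring
      _ ≤ ε * 1 := by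
          apply mul_le_mul_of_nonneg_left _ hε.le
          rw [div_le_one (by positivity)]; linarith
      _ = ε := mul_one _
  have h8 := (abs_le.1 ((Complex.abs_re_le_norm _).trans h6)).1
  have h9 := (Complex.re_le_norm ⟪v, S.U z ((Xn : H →L[ℂ] H) πv)⟫_ℂ).trans h1
  rw [h5]; linarith

/-- Claim C -/
theorem Sys.claimC {w : G → ℝ} (hw : CC w) (hw0 : ∀ x, 0 ≤ w x) {K : Set G}
    (hK : MeasurableSet K) {v : H} (hv : ∀ z, 0 ≤ S.uu v 1 z) {E : Finset G} {c₀ : ℝ}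
    {n : ℕ} {K₁ : Set G} (hKK : K ⊆ K₁)
    (hcov : ∀ c : ℕ → G, (∀ k < n, c k ∈ K₁) →
      c₀ ≤ ∑ s ∈ E, S.uu v 1 (s⁻¹ * ∏ k ∈ Finset.range n, (⇑φ)^[k] (c k))) (m : ℕ) (hm : m ≤ n) :
    ∀ c : ℕ → G, (∀ k < n, c k ∈ K₁) →
      c₀ * (∫ x in K, w x ∂μ) ^ m ≤ ∑ s ∈ E, S.uu v (S.X hw (iter_cont φ) 1 m)
        (s⁻¹ * ∏ k ∈ Finset.Ico m n, (⇑φ)^[k] (c k)) := by
  induction m with
  | zero =>
    intro c hc
    rw [pow_zero, mul_one, ← Finset.range_eq_Ico]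
    exact hcov c hc
  | succ m ih =>
    intro c hc
    have ih' := ih (by omega)
    set ρ := ∫ x in K, w x ∂μ with hρ
    have hρ0 : 0 ≤ ρ := integral_nonneg hw0
    have h1 : ∀ s, S.uu v (S.X hw (iter_cont φ) 1 (m + 1))
        (s⁻¹ * ∏ k ∈ Finset.Ico (m + 1) n, (⇑φ)^[k] (c k)) =
        ∫ x, w x * S.uu v (S.X hw (iter_cont φ) 1 m)
          (s⁻¹ * (∏ k ∈ Finset.Ico (m + 1) n, (⇑φ)^[k] (c k)) * (⇑φ)^[m] x) ∂μ := by
      intro s
      rw [Sys.X, S.uu_p _ _ hw]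
    simp_rw [h1]
    have hint : ∀ s : G, Integrable (fun x => w x * S.uu v (S.X hw (iter_cont φ) 1 m)
          (s⁻¹ * (∏ k ∈ Finset.Ico (m + 1) n, (⇑φ)^[k] (c k)) * (⇑φ)^[m] x)) μ := fun s =>
      S.int_uu v _ hw (continuous_const.mul (iter_cont φ m))
    rw [← integral_finsetSum _ fun s _ => hint s]
    have h2 : ∀ x ∈ K, w x * (c₀ * ρ ^ m) ≤ ∑ s ∈ E, w x * S.uu v (S.X hw (iter_cont φ) 1 m)
          (s⁻¹ * (∏ k ∈ Finset.Ico (m + 1) n, (⇑φ)^[k] (c k)) * (⇑φ)^[m] x) := by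
      intro x hx
      rw [← Finset.mul_sum]
      apply mul_le_mul_of_nonneg_left _ (hw0 x)
      have := ih' (Function.update c m x) (by
        intro k hk
        by_cases hkm : k = m
        · subst hkm; rw [Function.update_self]; exact hKK hx
        · rw [Function.update_of_ne hkm]; exact hc k hk)
      refine this.trans (le_of_eq ?_)
      apply Finset.sum_congr rfl
      intro s _
      congr 1
      rw [Finset.prod_eq_prod_Ico_succ_bot (by omega : m < n), Function.update_self]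
      have : ∏ k ∈ Finset.Ico (m + 1) n, (⇑φ)^[k] (Function.update c m x k) =
          ∏ k ∈ Finset.Ico (m + 1) n, (⇑φ)^[k] (c k) := by
        apply Finset.prod_congr rfl
        intro k hk
        rw [Function.update_of_ne]
        have := (Finset.mem_Ico.1 hk).1
        omega
      rw [this, mul_comm ((⇑φ)^[m] x), mul_assoc]
    have hintS : Integrable (fun x => ∑ s ∈ E, w x * S.uu v (S.X hw (iter_cont φ) 1 m)
          (s⁻¹ * (∏ k ∈ Finset.Ico (m + 1) n, (⇑φ)^[k] (c k)) * (⇑φ)^[m] x)) μ :=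
      integrable_finsetSum _ fun s _ => hint s
    calc c₀ * ρ ^ (m + 1) = ∫ x in K, w x * (c₀ * ρ ^ m) ∂μ := by
          rw [integral_mul_const]; ring
      _ ≤ ∫ x in K, ∑ s ∈ E, w x * S.uu v (S.X hw (iter_cont φ) 1 m)
          (s⁻¹ * (∏ k ∈ Finset.Ico (m + 1) n, (⇑φ)^[k] (c k)) * (⇑φ)^[m] x) ∂μ := by
          apply setIntegral_mono_on (hw.integrableR.mul_const _).integrableOn
            hintS.integrableOn hK h2
      _ ≤ _ := by
          apply setIntegral_le_integral hintS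
          exact Filter.Eventually.of_forall fun x => Finset.sum_nonneg fun s _ =>
            mul_nonneg (hw0 x) (S.X_nonneg hw hw0 _ hv m _)

include S in
theorem Sys.ineqI (ν : Measure (PontryaginDual G)) [ν.IsHaarMeasure] [ν.Regular]
    {V : Set (PontryaginDual G)} (hV : IsCompact V) (hV1 : V ∈ 𝓝 (1 : PontryaginDual G))
    {ε : ℝ} (hε : 0 < ε) :
    ∃ K : Set G, IsCompact K ∧ K ∈ 𝓝 (1 : G) ∧ ∃ c : ℝ,
      ∀ n : ℕ, 1 ≤ n → 1 ≤ c * Real.exp (ε * n) *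
        ((μ (traj φ K n)).toReal * (ν (cot φ V n)).toReal) := by
  obtain ⟨V₁, hV₁c, h1V₁, hV₁V⟩ := exists_compact_subset isOpen_interior
    (mem_interior_iff_mem_nhds.2 hV1)
  have hV₁ : V₁ ∈ 𝓝 (1 : PontryaginDual G) := mem_interior_iff_mem_nhds.1 h1V₁
  obtain ⟨f, hf1, hf2, hf3, hf4⟩ := exists_continuousMap_one_of_isCompact_subset_isOpen
    hV₁c isOpen_interior hV₁V
  have hf : CC f := ⟨f.continuous, hf2⟩
  have hf0 : ∀ κ, 0 ≤ f κ := fun κ => (hf4 κ).1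
  have hfle : ∀ κ, f κ ≤ 1 := fun κ => (hf4 κ).2
  have hfV : ∀ κ, κ ∉ V → f κ = 0 := by
    intro κ hκ
    by_contra hne
    exact hκ (interior_subset (hf3 (subset_tsupport _ hne)))
  obtain ⟨p, hp, hp0, hp1, -, C₀, hC₀, hstar⟩ := S.star_ineq ν hV hV1
  set v := S.ι fun x => (p x : ℂ) with hv
  have hδ : 0 < 1 - Real.exp (-ε) := by
    have : Real.exp (-ε) < 1 := Real.exp_lt_one_iff.2 (by linarith)
    linarith
  obtain ⟨K₀, hK₀, hW⟩ := S.lemmaW ν hV₁ hδ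
  have hq0 : ∀ z, 0 ≤ S.uu v 1 z := S.uu_one_nonneg hp hp0
  have hq1 : 0 < S.uu v 1 1 := S.uu_one_one hp hp1
  set c₀ := S.uu v 1 1 / 2 with hc₀
  have hc₀pos : 0 < c₀ := by positivity
  have hOq : {z | c₀ < S.uu v 1 z} ∈ 𝓝 (1 : G) :=
    (isOpen_lt continuous_const (S.uu_cont v 1)).mem_nhds (by
      show c₀ < S.uu v 1 1
      rw [hc₀]; linarith)
  obtain ⟨W₀, hW₀, hW₀'⟩ := exists_nhds_split_inv hOq
  obtain ⟨W, hW1, hWs, hWc⟩ := local_compact_nhds hW₀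
  have h1W : (1 : G) ∈ W := mem_of_mem_nhds hW1
  set K₁ := K₀ ∪ {1} with hK₁
  have hK₁c : IsCompact K₁ := hK₀.union isCompact_singleton
  refine ⟨K₁ * W, hK₁c.mul hWc, ?_, C₀ / (c₀ * (μ W).toReal), fun n hn => ?_⟩
  · apply mem_of_superset hW1
    intro x hx
    exact ⟨1, Or.inr rfl, x, hx, by simp⟩
  have hK₁K : K₁ ⊆ K₁ * W := fun x hx => ⟨x, hx, 1, h1W, by simp⟩
  obtain ⟨E, hE1, hE2, hE3⟩ := packing μ (traj_compact φ hK₁c n) hWc hW1
  have hμW : 0 < (μ W).toReal := ENNReal.toReal_pos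
    (Measure.measure_pos_of_mem_nhds μ hW1).ne' hWc.measure_lt_top.ne
  have hTsub : traj φ K₁ n * W ⊆ traj φ (K₁ * W) n := by
    rintro _ ⟨t, ht, x, hx, rfl⟩
    obtain ⟨c, hc, rfl⟩ := mem_traj φ ht
    have : (∏ k ∈ Finset.range n, (⇑φ)^[k] (c k)) * x =
        ∏ k ∈ Finset.range n, (⇑φ)^[k] (if k = 0 then c 0 * x else c k) := by
      obtain ⟨n', rfl⟩ : ∃ n', n = n' + 1 := ⟨n - 1, by omega⟩
      rw [Finset.prod_range_succ', Finset.prod_range_succ']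
      simp [mul_assoc]
    show (∏ k ∈ Finset.range n, (⇑φ)^[k] (c k)) * x ∈ _
    rw [this]
    apply traj_mem
    intro k hk
    by_cases h : k = 0
    · simp only [h, if_true]; exact Set.mul_mem_mul (hc 0 (by omega)) hx
    · simp only [h, if_false]; exact hK₁K (hc k hk)
  have hEcard : (E.card : ℝ) * (μ W).toReal ≤ (μ (traj φ (K₁ * W) n)).toReal := by
    have h1 : (E.card : ENNReal) * μ W ≤ μ (traj φ (K₁ * W) n) := hE3.trans (measure_mono hTsub)
    have h2 := ENNReal.toReal_mono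
      (traj_compact φ (hK₁c.mul hWc) n).measure_lt_top.ne h1
    rwa [ENNReal.toReal_mul, ENNReal.toReal_natCast] at h2
  have hcov : ∀ c : ℕ → G, (∀ k < n, c k ∈ K₁) →
      c₀ ≤ ∑ s ∈ E, S.uu v 1 (s⁻¹ * ∏ k ∈ Finset.range n, (⇑φ)^[k] (c k)) := by
    intro c hc
    obtain ⟨s, hs, y, ⟨a, ha, b, hb, rfl⟩, hy⟩ := hE2 (traj_mem φ hc)
    have h1 : s⁻¹ * ∏ k ∈ Finset.range n, (⇑φ)^[k] (c k) = a / b := by
      rw [← hy]; simp
    have h2 : c₀ < S.uu v 1 (a / b) := hW₀' a (hWs ha) b (hWs hb)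
    calc c₀ ≤ S.uu v 1 (s⁻¹ * ∏ k ∈ Finset.range n, (⇑φ)^[k] (c k)) := by rw [h1]; exact h2.le
      _ ≤ _ := Finset.single_le_sum
          (f := fun s => S.uu v 1 (s⁻¹ * ∏ k ∈ Finset.range n, (⇑φ)^[k] (c k)))
          (fun s _ => hq0 _) hs
  have hFcc := FF_cc φ hf hn
  -- the main inequality for every η
  have hmain : ∀ η : ℝ, 0 < η → c₀ * Real.exp (-ε) ^ n ≤
      E.card * (S.Lam v hFcc + ((1 + η) ^ n - 1) * ‖v‖ ^ 2) := by
    intro η hη
    obtain ⟨w, hw, hw0, hw1, hwK, hwη⟩ := hW η hη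
    have hK₀m : MeasurableSet K₀ := hK₀.measurableSet
    have h1 := S.claimC φ hw hw0 hK₀m hq0 (K₁ := K₁)
      subset_union_left hcov n le_rfl (fun _ => 1) (fun _ _ => Or.inr rfl)
    rw [Finset.Ico_self] at h1
    have h2 : Real.exp (-ε) ≤ ∫ x in K₀, w x ∂μ := by linarith
    calc c₀ * Real.exp (-ε) ^ n ≤ c₀ * (∫ x in K₀, w x ∂μ) ^ n := by
          apply mul_le_mul_of_nonneg_left _ hc₀pos.le
          exact pow_le_pow_left₀ (Real.exp_pos _).le h2 n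
      _ ≤ _ := h1
      _ ≤ ∑ s ∈ E, (S.Lam v hFcc + ((1 + η) ^ n - 1) * ‖v‖ ^ 2) := by
          apply Finset.sum_le_sum
          intro s _
          exact S.upper φ hf hf0 hfle (fun κ hκ => hf1 hκ) hw hw0 hw1 hη.le hwη hn v _
      _ = _ := by rw [Finset.sum_const, nsmul_eq_mul]
  have hlim : c₀ * Real.exp (-ε) ^ n ≤ E.card * S.Lam v hFcc := by
    have ht : Tendsto (fun η : ℝ => (E.card : ℝ) * (S.Lam v hFcc + ((1 + η) ^ n - 1) * ‖v‖ ^ 2))
        (𝓝[>] 0) (𝓝 ((E.card : ℝ) * (S.Lam v hFcc + ((1 + 0) ^ n - 1) * ‖v‖ ^ 2))) := by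
      apply tendsto_nhdsWithin_of_tendsto_nhds
      apply Continuous.tendsto
      fun_prop
    have h2 := ge_of_tendsto ht (by
      filter_upwards [self_mem_nhdsWithin] with η hη
      exact hmain η hη)
    simpa using h2
  have hΛ : S.Lam v hFcc ≤ C₀ * (ν (cot φ V n)).toReal := by
    have h1 := (hstar (FF φ f n) hFcc (FF_nonneg φ hf0 n) (fun κ hκ =>
      FF_zero φ hn (hfV κ hκ))).1
    refine h1.trans (mul_le_mul_of_nonneg_left ?_ hC₀.le)
    apply integral_le_measD ν (cot_compact φ hV hn) hFcc (FF_le_one φ hf0 hfle n)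
    intro κ hκ
    have : ∃ k ∈ Finset.range n, (⇑(PontryaginDual.map φ))^[k] κ ∉ V := by
      by_contra hcon
      push Not at hcon
      exact hκ (Set.mem_iInter₂.2 hcon)
    obtain ⟨k, hk, hkV⟩ := this
    exact Finset.prod_eq_zero hk (hfV _ hkV)
  have hfin : c₀ * (μ W).toReal * Real.exp (-ε) ^ n ≤
      C₀ * ((μ (traj φ (K₁ * W) n)).toReal * (ν (cot φ V n)).toReal) := by
    calc c₀ * (μ W).toReal * Real.exp (-ε) ^ n = (μ W).toReal * (c₀ * Real.exp (-ε) ^ n) := by ring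
      _ ≤ (μ W).toReal * (E.card * S.Lam v hFcc) := mul_le_mul_of_nonneg_left hlim hμW.le
      _ ≤ (μ W).toReal * (E.card * (C₀ * (ν (cot φ V n)).toReal)) := by
          apply mul_le_mul_of_nonneg_left _ hμW.le
          exact mul_le_mul_of_nonneg_left hΛ (Nat.cast_nonneg _)
      _ = (E.card * (μ W).toReal) * (C₀ * (ν (cot φ V n)).toReal) := by ring
      _ ≤ (μ (traj φ (K₁ * W) n)).toReal * (C₀ * (ν (cot φ V n)).toReal) := by
          apply mul_le_mul_of_nonneg_right hEcard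
          exact mul_nonneg hC₀.le ENNReal.toReal_nonneg
      _ = _ := by ring
  have hpos : 0 < c₀ * (μ W).toReal := mul_pos hc₀pos hμW
  have hexp : Real.exp (-ε) ^ n * Real.exp (ε * n) = 1 := by
    rw [← Real.exp_nat_mul, ← Real.exp_add]
    have : (n : ℝ) * -ε + ε * n = 0 := by ring
    rw [this, Real.exp_zero]
  calc (1 : ℝ) = (c₀ * (μ W).toReal * Real.exp (-ε) ^ n) * (Real.exp (ε * n) / (c₀ * (μ W).toReal)) := by
        field_simp
        rw [mul_comm (Real.exp (-ε) ^ n)] at hexp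
        linarith
    _ ≤ (C₀ * ((μ (traj φ (K₁ * W) n)).toReal * (ν (cot φ V n)).toReal)) *
        (Real.exp (ε * n) / (c₀ * (μ W).toReal)) := by
        apply mul_le_mul_of_nonneg_right hfin
        positivity
    _ = _ := by ring

end Pool.Agent.H1R3.BT
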