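import Pool.Agent.H1R3.BT.Dual

set_option autoImplicit false
set_option linter.unusedSectionVars false
open MeasureTheory Filter Topology Set
open scoped ComplexConjugate InnerProductSpace Pointwise

namespace Pool.Agent.H1R3.BT

variable {G : Type} [CommGroup G] [TopologicalSpace G] [IsTopologicalGroup G]
  [LocallyCompactSpace G] [T2Space G] [MeasurableSpace G] [BorelSpace G]
  {μ : Measure G} [μ.IsHaarMeasure]
  {H : Type} [NormedAddCommGroup H] [InnerProductSpace ℂ H] [CompleteSpace H]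
  (S : Sys G μ H)
  [MeasurableSpace (PontryaginDual G)] [BorelSpace (PontryaginDual G)]

theorem CC.integrableX {X : Type} [TopologicalSpace X] [T2Space X] [MeasurableSpace X]
    [BorelSpace X] {m : Measure X} [IsFiniteMeasureOnCompacts m] {f : X → ℝ} (h : CC f) :
    Integrable f m := h.1.integrable_of_hasCompactSupport h.2

theorem CC.shiftR {F : PontryaginDual G → ℝ} (h : CC F) (χ : PontryaginDual G) :
    CC fun κ => F (χ * κ) :=
  ⟨h.1.comp (continuous_const.mul continuous_id), h.2.comp_homeomorph (Homeomorph.mulLeft χ)⟩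

theorem CC.invshift {F : PontryaginDual G → ℝ} (hF : CC F) (κ : PontryaginDual G) :
    CC fun χ : PontryaginDual G => F (χ⁻¹ * κ) := by
  have hFc : IsCompact (tsupport F) := hF.2
  have hK : IsCompact ({κ} * (tsupport F)⁻¹) := isCompact_singleton.mul hFc.inv
  refine ⟨hF.1.comp (continuous_inv.mul continuous_const), HasCompactSupport.intro hK ?_⟩
  intro χ hχ
  have h : χ⁻¹ * κ ∉ tsupport F := by
    intro h
    exact hχ (Set.mem_mul.2 ⟨κ, Set.mem_singleton _, (χ⁻¹ * κ)⁻¹, by simpa using h, by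
      rw [mul_inv_rev, inv_inv, mul_inv_cancel_left]⟩)
  exact image_eq_zero_of_notMem_tsupport h

theorem CC.mul_ft {F : PontryaginDual G → ℝ} (h : CC F) {w : G → ℂ} (hw : CC w)
    (χ : PontryaginDual G) : CC fun κ => F κ * ‖ft μ w (χ * κ)‖ ^ 2 := by
  have h1 : Continuous fun κ => ‖ft μ w (χ * κ)‖ ^ 2 :=
    (((ft_cont hw).comp (continuous_const.mul continuous_id)).norm).pow 2
  have := h.mulR h1
  simpa [mul_comm] using this

omit [MeasurableSpace (PontryaginDual G)] [BorelSpace (PontryaginDual G)] in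
theorem Sys.ι_ne {p : G → ℝ} (hp : CC p) (hp1 : ∫ x, p x ∂μ = 1) :
    S.ι (fun x => (p x : ℂ)) ≠ 0 := by
  intro h0
  have h1 := S.inner_ι _ _ hp.toC hp.toC
  rw [h0, inner_zero_left] at h1
  have h2 : (∫ x, conj (p x : ℂ) * (p x : ℂ) ∂μ) = ((∫ x, p x * p x ∂μ : ℝ) : ℂ) := by
    rw [← integral_complex_ofReal]
    congr 1; ext x; simp
  rw [h2, eq_comm, Complex.ofReal_eq_zero] at h1
  obtain ⟨x, hx⟩ : ∃ x, p x ≠ 0 := by
    by_contra hcon
    push Not at hcon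
    simp [hcon] at hp1
  have h3 : 0 < ∫ x, p x * p x ∂μ :=
    (hp.1.mul hp.1).integral_pos_of_hasCompactSupport_nonneg_nonzero
      (HasCompactSupport.mul_left (f := p) hp.2) (fun x => mul_self_nonneg _) (x := x)
      (mul_ne_zero hx hx)
  exact h3.ne' h1

theorem Sys.lam_ne (v : H) (hv : v ≠ 0) :
    ∃ F : PontryaginDual G → ℝ, CC F ∧ ∫ κ, F κ ∂(S.lam v) ≠ 0 := by
  have hvpos : 0 < ‖v‖ := norm_pos_iff.2 hv
  obtain ⟨p, hp, hp0, hp1, hpv⟩ := S.approx_id v (ε := ‖v‖ / 2) (by positivity)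
  set a : S.A := S.pi hp.toC
  have hav : ‖v‖ / 2 ≤ ‖(a : H →L[ℂ] H) v‖ := by
    have : ‖v‖ ≤ ‖(a : H →L[ℂ] H) v‖ + ‖(a : H →L[ℂ] H) v - v‖ := by
      have h := norm_sub_le ((a : H →L[ℂ] H) v) ((a : H →L[ℂ] H) v - v)
      rwa [sub_sub_cancel] at h
    linarith
  set Z : Set S.Δ := {m | 1 / 4 ≤ ‖m a‖}
  have hZc : IsCompact Z := (isClosed_le continuous_const (S.cont_char a).norm).isCompact
  have hZg : Z ⊆ {m | S.good m} := by
    intro m hm
    by_contra hbad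
    have h0 : m a = 0 := S.char_pi_bad hbad _
    have hm' : 1 / 4 ≤ ‖m a‖ := hm
    rw [h0, norm_zero] at hm'
    norm_num at hm'
  have hκZ : IsCompact (S.κ '' Z) := hZc.image_of_continuousOn (S.κ_contOn.mono hZg)
  obtain ⟨f, hf1, hf2, -, hf4⟩ := exists_continuousMap_one_of_isCompact_subset_isOpen
    hκZ isOpen_univ (subset_univ _)
  have hF : CC fun κ => f κ * ‖ft μ (fun x => (p x : ℂ)) (1 * κ)‖ ^ 2 :=
    CC.mul_ft ⟨f.continuous, hf2⟩ hp.toC 1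
  refine ⟨_, hF, ?_⟩
  rw [S.integral_lam v hF]
  set b : S.A := S.T hF.toC + ((1 / 16 : ℝ) : ℂ) • (1 : S.A)
  have hb : ∀ m : S.Δ, ‖m (star a * (1 * a))‖ ≤ (m b).re := by
    intro m
    rw [map_mul, map_mul, S.char_star, map_one, one_mul, norm_mul, RCLike.norm_conj, map_add,
      map_smul, map_one, S.char_T, smul_eq_mul, mul_one, Complex.add_re, Complex.ofReal_re]
    by_cases hm : S.good m
    · rw [S.sharp_good _ hm, Complex.ofReal_re, one_mul, ← S.char_pi hm hp.toC]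
      by_cases hmZ : m ∈ Z
      · have := hf1 (mem_image_of_mem S.κ hmZ)
        rw [this, Pi.one_apply]
        nlinarith [norm_nonneg (m a)]
      · have h1 : ‖m a‖ < 1 / 4 := not_le.1 hmZ
        have h2 := (hf4 (S.κ m)).1
        have h3 : 0 ≤ f (S.κ m) * ‖m (S.pi hp.toC)‖ ^ 2 := by positivity
        nlinarith [norm_nonneg (m a)]
    · rw [S.sharp_bad _ hm]
      have h0 : m a = 0 := S.char_pi_bad hm _
      rw [h0]; simp
  have h1 := S.bnd hb v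
  rw [S.inner_star_mul] at h1
  have h2 : ((1 : S.A) : H →L[ℂ] H) ((a : H →L[ℂ] H) v) = (a : H →L[ℂ] H) v := rfl
  rw [h2, inner_self_eq_norm_sq_to_K] at h1
  have h3 : ((b : S.A) : H →L[ℂ] H) v = (S.T hF.toC : H →L[ℂ] H) v + ((1 / 16 : ℝ) : ℂ) • v := rfl
  rw [h3, inner_add_right, inner_smul_right, inner_self_eq_norm_sq_to_K, Complex.add_re] at h1
  have h4 : (((1 / 16 : ℝ) : ℂ) * ((‖v‖ : ℂ) ^ 2)).re = (1 / 16) * ‖v‖ ^ 2 := by
    rw [← Complex.ofReal_pow, ← Complex.ofReal_mul, Complex.ofReal_re]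
  have h5 : ‖((‖(a : H →L[ℂ] H) v‖ : ℂ) ^ 2)‖ = ‖(a : H →L[ℂ] H) v‖ ^ 2 := by
    rw [norm_pow, Complex.norm_real, norm_norm]
  have h1' : ‖(a : H →L[ℂ] H) v‖ ^ 2 ≤ S.Lam v hF + (1 / 16) * ‖v‖ ^ 2 := by
    rw [← h5, ← h4]; exact h1
  have : 0 < S.Lam v hF := by nlinarith
  exact this.ne'

theorem Sys.lam_nhds_pos {p : G → ℝ} (hp : CC p) (hp1 : ∫ x, p x ∂μ = 1)
    {V : Set (PontryaginDual G)} (hV : V ∈ 𝓝 (1 : PontryaginDual G)) :
    S.lam (S.ι fun x => (p x : ℂ)) V ≠ 0 := by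
  intro h0
  set lam := S.lam (S.ι fun x => (p x : ℂ))
  obtain ⟨f, hf1, hf2, hf3, hf4⟩ := exists_continuousMap_one_of_isCompact_subset_isOpen
    (isCompact_singleton (x := (1 : PontryaginDual G))) isOpen_interior
    (by simpa using mem_interior_iff_mem_nhds.2 hV)
  have hF : CC f := ⟨f.continuous, hf2⟩
  have hft1 : ft μ (fun x => (p x : ℂ)) 1 = 1 := by
    unfold ft
    have : ∀ x, (p x : ℂ) * (((1 : PontryaginDual G) x : Circle) : ℂ) = (p x : ℂ) := by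
      intro x; rw [PontryaginDual.one_apply]; simp
    simp_rw [this]
    rw [integral_complex_ofReal, hp1]; simp
  have hloc : ∀ χ : PontryaginDual G, ∃ O : Set (PontryaginDual G), O ∈ 𝓝 χ ∧ lam O = 0 := by
    intro χ
    have hc1 := CC.mul_ft hF hp.toC χ (μ := μ)
    have hc0 := CC.mul_ft hF hp.toC 1 (μ := μ)
    have hc2 : CC fun κ => f (χ⁻¹ * κ) * ‖ft μ (fun x => (p x : ℂ)) (χ⁻¹ * κ)‖ ^ 2 := by
      have := hc0.shiftR χ⁻¹
      simpa using this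
    have hz : S.Lam (S.ι fun x => (p x : ℂ)) hc1 = 0 := by
      rw [← S.integral_lam]
      apply integral_eq_zero_of_ae
      have : ∀ᵐ κ ∂lam, κ ∉ V := measure_eq_zero_iff_ae_notMem.1 h0
      filter_upwards [this] with κ hκ
      have : f κ = 0 := by
        by_contra hne
        exact hκ (interior_subset (hf3 (subset_tsupport _ hne)))
      simp [this]
    rw [S.keyCR hp.toC hF χ hc1 hc2, ← S.integral_lam] at hz
    rw [integral_eq_zero_iff_of_nonneg (fun κ => by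
      have := (hf4 (χ⁻¹ * κ)).1
      show 0 ≤ f (χ⁻¹ * κ) * ‖ft μ (fun x => (p x : ℂ)) (χ⁻¹ * κ)‖ ^ 2
      positivity) hc2.integrableX] at hz
    refine ⟨{κ | f (χ⁻¹ * κ) * ‖ft μ (fun x => (p x : ℂ)) (χ⁻¹ * κ)‖ ^ 2 ≠ 0}, ?_, ?_⟩
    · apply (isOpen_ne_fun hc2.1 continuous_const).mem_nhds
      have : f 1 = 1 := hf1 rfl
      simp [this, hft1]
    · exact hz
  obtain ⟨F, hF, hne⟩ := S.lam_ne _ (S.ι_ne hp hp1)
  apply hne
  have hcpt : lam (tsupport F) = 0 := by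
    apply IsCompact.measure_zero_of_nhdsWithin hF.2
    intro χ _
    obtain ⟨O, hO, hO0⟩ := hloc χ
    exact ⟨O, mem_nhdsWithin_of_mem_nhds hO, hO0⟩
  apply integral_eq_zero_of_ae
  have : ∀ᵐ κ ∂lam, κ ∉ tsupport F := measure_eq_zero_iff_ae_notMem.1 hcpt
  filter_upwards [this] with κ hκ
  exact image_eq_zero_of_notMem_tsupport hκ

omit [MeasurableSpace (PontryaginDual G)] [BorelSpace (PontryaginDual G)] in
theorem ft_norm_le {p : G → ℝ} (hp0 : ∀ x, 0 ≤ p x) (κ : PontryaginDual G) :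
    ‖ft μ (fun x => (p x : ℂ)) κ‖ ≤ ∫ x, p x ∂μ := by
  refine (norm_integral_le_integral_norm _).trans (le_of_eq ?_)
  congr 1; ext x
  rw [norm_mul, norm_char, mul_one, Complex.norm_real, Real.norm_eq_abs, abs_of_nonneg (hp0 x)]

theorem Sys.star_ineq (ν : Measure (PontryaginDual G)) [ν.IsHaarMeasure] [ν.Regular]
    {V : Set (PontryaginDual G)} (hV : IsCompact V) (hV1 : V ∈ 𝓝 (1 : PontryaginDual G)) :
    ∃ (p : G → ℝ), CC p ∧ (∀ x, 0 ≤ p x) ∧ ∫ x, p x ∂μ = 1 ∧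
      (∀ κ ∈ V, 1 / 2 ≤ ‖ft μ (fun x => (p x : ℂ)) κ‖) ∧
      ∃ C : ℝ, 0 < C ∧ ∀ (F : PontryaginDual G → ℝ) (hF : CC F), (∀ κ, 0 ≤ F κ) →
        (∀ κ, κ ∉ V → F κ = 0) →
        S.Lam (S.ι fun x => (p x : ℂ)) hF ≤ C * ∫ κ, F κ ∂ν ∧
        ∫ κ, F κ ∂ν ≤ C * S.Lam (S.ι fun x => (p x : ℂ)) hF := by
  have h1V : (1 : PontryaginDual G) ∈ V := mem_of_mem_nhds hV1
  obtain ⟨w, hw1, hw2, -, hw4⟩ := exists_continuousMap_one_of_isCompact_subset_isOpen
    (hV.mul hV.inv) isOpen_univ (subset_univ _)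
  have hw : CC w := ⟨w.continuous, hw2⟩
  have hLc : IsCompact (V ∪ tsupport w * V) := hV.union (hw.2.mul hV)
  obtain ⟨p, hp, hp0, hp1, hpL⟩ := exists_p (μ := μ) hLc
  refine ⟨p, hp, hp0, hp1, fun κ hκ => hpL κ (Or.inl hκ), ?_⟩
  set lam := S.lam (S.ι fun x => (p x : ℂ)) with hlam
  set f : PontryaginDual G → ℂ := ft μ (fun x => (p x : ℂ)) with hf
  have hfc : Continuous f := ft_cont hp.toC
  have hfle : ∀ κ, ‖f κ‖ ^ 2 ≤ 1 := by
    intro κ
    have : ‖f κ‖ ≤ 1 := hp1 ▸ ft_norm_le hp0 κ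
    nlinarith [norm_nonneg (f κ)]
  have hfge : ∀ κ ∈ V ∪ tsupport w * V, 1 / 4 ≤ ‖f κ‖ ^ 2 := by
    intro κ hκ
    have := hpL κ hκ
    nlinarith
  have hW : 0 < ∫ κ, w κ ∂ν := by
    apply w.continuous.integral_pos_of_hasCompactSupport_nonneg_nonzero hw2 (fun κ => (hw4 κ).1)
      (x := 1)
    have : w 1 = 1 := hw1 (Set.mem_mul.2 ⟨1, h1V, 1, by simpa using h1V, by simp⟩)
    rw [this]; norm_num
  set W := ∫ κ, w κ ∂ν
  have hVne : lam V ≠ 0 := S.lam_nhds_pos hp hp1 hV1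
  have hVfin : lam V ≠ ⊤ := hV.measure_lt_top.ne
  set lV := (lam V).toReal with hlV
  have hlVpos : 0 < lV := ENNReal.toReal_pos hVne hVfin
  set L' := tsupport w * V
  have hL'c : IsCompact L' := hw.2.mul hV
  set M := (lam L').toReal
  have hM0 : 0 ≤ M := ENNReal.toReal_nonneg
  have hC : 0 < 4 * M / W + 4 * W / lV := by positivity
  refine ⟨4 * M / W + 4 * W / lV, hC, ?_⟩
  intro F hF hF0 hFV
  rw [← S.integral_lam]
  -- the double integral
  have hc1 : ∀ χ, CC fun κ => F κ * ‖f (χ * κ)‖ ^ 2 := fun χ => CC.mul_ft hF hp.toC χ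
  have hc2 : ∀ χ : PontryaginDual G, CC fun κ => F (χ⁻¹ * κ) * ‖f (χ⁻¹ * κ)‖ ^ 2 := by
    intro χ
    have := (hc1 1).shiftR χ⁻¹
    simpa using this
  have hE : ∀ χ, ∫ κ, F κ * ‖f (χ * κ)‖ ^ 2 ∂lam = ∫ κ, F (χ⁻¹ * κ) * ‖f (χ⁻¹ * κ)‖ ^ 2 ∂lam := by
    intro χ
    rw [hlam, S.integral_lam _ (hc1 χ), S.integral_lam _ (hc2 χ)]
    exact S.keyCR hp.toC hF χ (hc1 χ) (hc2 χ)
  set I := ∫ χ, w χ * (∫ κ, F κ * ‖f (χ * κ)‖ ^ 2 ∂lam) ∂ν with hI
  have hIF : Integrable F lam := hF.integrableX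
  have hFint0 : 0 ≤ ∫ κ, F κ ∂lam := integral_nonneg hF0
  have hFintν0 : 0 ≤ ∫ κ, F κ ∂ν := integral_nonneg hF0
  have hcontI : Continuous fun χ => ∫ κ, F κ * ‖f (χ * κ)‖ ^ 2 ∂lam := by
    rw [← continuousOn_univ]
    apply continuousOn_integral_of_compact_support hF.2
    · have := hF.1
      show ContinuousOn (fun q : PontryaginDual G × PontryaginDual G =>
        F q.2 * ‖f (q.1 * q.2)‖ ^ 2) _
      fun_prop
    · intro χ κ _ hκ
      rw [image_eq_zero_of_notMem_tsupport hκ, zero_mul]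
  have hintI : Integrable (fun χ => w χ * (∫ κ, F κ * ‖f (χ * κ)‖ ^ 2 ∂lam)) ν :=
    Continuous.integrable_of_hasCompactSupport (w.continuous.mul hcontI)
      (HasCompactSupport.mul_right (f := w) hw2)
  have hLB1 : W * (1 / 4 * ∫ κ, F κ ∂lam) ≤ I := by
    rw [← integral_mul_const]
    apply integral_mono (hw.integrableX.mul_const _) hintI
    intro χ
    by_cases hχ : χ ∈ tsupport w
    · apply mul_le_mul_of_nonneg_left _ (hw4 χ).1
      rw [← integral_const_mul]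
      apply integral_mono (hIF.const_mul _) (hc1 χ).integrableX
      intro κ
      by_cases hκ : κ ∈ V
      · have := hfge (χ * κ) (Or.inr (Set.mul_mem_mul hχ hκ))
        have h0 := hF0 κ
        show 1 / 4 * F κ ≤ F κ * ‖f (χ * κ)‖ ^ 2
        nlinarith
      · simp [hFV κ hκ]
    · simp [image_eq_zero_of_notMem_tsupport hχ]
  have hUB1 : I ≤ W * ∫ κ, F κ ∂lam := by
    rw [← integral_mul_const]
    apply integral_mono hintI (hw.integrableX.mul_const _)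
    intro χ
    apply mul_le_mul_of_nonneg_left _ (hw4 χ).1
    apply integral_mono (hc1 χ).integrableX hIF
    intro κ
    have := hfle (χ * κ)
    have h0 := hF0 κ
    show F κ * ‖f (χ * κ)‖ ^ 2 ≤ F κ
    nlinarith
  -- swap
  set J : PontryaginDual G → ℝ := fun κ => ∫ χ, w χ * (F (χ⁻¹ * κ) * ‖f (χ⁻¹ * κ)‖ ^ 2) ∂ν with hJ
  have hswap : I = ∫ κ, J κ ∂lam := by
    rw [hI, hJ]
    have : ∀ χ, w χ * (∫ κ, F κ * ‖f (χ * κ)‖ ^ 2 ∂lam) =
        ∫ κ, w χ * (F (χ⁻¹ * κ) * ‖f (χ⁻¹ * κ)‖ ^ 2) ∂lam := by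
      intro χ; rw [hE, integral_const_mul]
    simp_rw [this]
    apply integral_integral_swap_of_hasCompactSupport
    · have := hF.1
      have := w.continuous
      show Continuous (fun q : PontryaginDual G × PontryaginDual G =>
        w q.1 * (F (q.1⁻¹ * q.2) * ‖f (q.1⁻¹ * q.2)‖ ^ 2))
      fun_prop
    · apply HasCompactSupport.intro (K := tsupport w ×ˢ L') (hw2.prod hL'c)
      rintro ⟨χ, κ⟩ hn
      show w χ * (F (χ⁻¹ * κ) * ‖f (χ⁻¹ * κ)‖ ^ 2) = 0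
      by_cases hχ : χ ∈ tsupport w
      · have : χ⁻¹ * κ ∉ V := by
          intro hv
          exact hn ⟨hχ, Set.mem_mul.2 ⟨χ, hχ, χ⁻¹ * κ, hv, by group⟩⟩
        rw [hFV _ this]; ring
      · rw [image_eq_zero_of_notMem_tsupport hχ]; ring
  have hJc : Continuous J := by
    rw [← continuousOn_univ]
    apply continuousOn_integral_of_compact_support hw2
    · have := hF.1
      have := w.continuous
      show ContinuousOn (fun q : PontryaginDual G × PontryaginDual G =>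
        w q.2 * (F (q.2⁻¹ * q.1) * ‖f (q.2⁻¹ * q.1)‖ ^ 2)) _
      fun_prop
    · intro κ χ _ hχ
      rw [image_eq_zero_of_notMem_tsupport hχ, zero_mul]
  have hJ0 : ∀ κ, κ ∉ L' → J κ = 0 := by
    intro κ hκ
    apply integral_eq_zero_of_ae
    refine Filter.Eventually.of_forall fun χ => ?_
    show w χ * (F (χ⁻¹ * κ) * ‖f (χ⁻¹ * κ)‖ ^ 2) = 0
    by_cases hχ : χ ∈ tsupport w
    · have : χ⁻¹ * κ ∉ V := by
        intro hv
        exact hκ (Set.mem_mul.2 ⟨χ, hχ, χ⁻¹ * κ, hv, by group⟩)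
      rw [hFV _ this]; ring
    · rw [image_eq_zero_of_notMem_tsupport hχ]; ring
  have hJint : Integrable J lam :=
    hJc.integrable_of_hasCompactSupport (HasCompactSupport.intro hL'c hJ0)
  have hshiftc : ∀ κ, CC fun χ : PontryaginDual G => F (χ⁻¹ * κ) := by
    intro κ
    exact CC.invshift hF κ
  have hshift : ∀ κ, ∫ χ, F (χ⁻¹ * κ) ∂ν = ∫ χ, F χ ∂ν := by
    intro κ
    rw [integral_inv_eq_self (fun χ => F (χ * κ)) ν, integral_mul_right_eq_self F κ]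
  have hJpt : ∀ κ, Integrable (fun χ => w χ * (F (χ⁻¹ * κ) * ‖f (χ⁻¹ * κ)‖ ^ 2)) ν := by
    intro κ
    have hc : Continuous fun χ : PontryaginDual G => χ⁻¹ * κ :=
      continuous_inv.mul continuous_const
    apply Continuous.integrable_of_hasCompactSupport
    · exact w.continuous.mul ((hF.1.comp hc).mul ((hfc.comp hc).norm.pow 2))
    · exact HasCompactSupport.mul_right (f := w) hw2
  have hJle : ∀ κ, J κ ≤ ∫ χ, F χ ∂ν := by
    intro κ
    rw [← hshift κ]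
    apply integral_mono (hJpt κ) (hshiftc κ).integrableX
    intro χ
    have h1 := hfle (χ⁻¹ * κ)
    have h2 := hF0 (χ⁻¹ * κ)
    have h3 := hw4 χ
    show w χ * (F (χ⁻¹ * κ) * ‖f (χ⁻¹ * κ)‖ ^ 2) ≤ F (χ⁻¹ * κ)
    have h4 : F (χ⁻¹ * κ) * ‖f (χ⁻¹ * κ)‖ ^ 2 ≤ F (χ⁻¹ * κ) := by nlinarith
    have h5 : 0 ≤ F (χ⁻¹ * κ) * ‖f (χ⁻¹ * κ)‖ ^ 2 := by positivity
    nlinarith [h3.1, h3.2]
  have hJge : ∀ κ ∈ V, 1 / 4 * ∫ χ, F χ ∂ν ≤ J κ := by
    intro κ hκ
    rw [← hshift κ, ← integral_const_mul]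
    apply integral_mono ((hshiftc κ).integrableX.const_mul _) (hJpt κ)
    intro χ
    show 1 / 4 * F (χ⁻¹ * κ) ≤ w χ * (F (χ⁻¹ * κ) * ‖f (χ⁻¹ * κ)‖ ^ 2)
    by_cases hv : χ⁻¹ * κ ∈ V
    · have hχ : w χ = 1 := hw1 (Set.mem_mul.2 ⟨κ, hκ, (χ⁻¹ * κ)⁻¹, by simpa using hv, by
        rw [mul_inv_rev, inv_inv]; rw [mul_inv_cancel_left]⟩)
      rw [hχ, one_mul]
      have := hfge _ (Or.inl hv)
      have h0 := hF0 (χ⁻¹ * κ)
      nlinarith
    · simp [hFV _ hv]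
  have hJnn : ∀ κ, 0 ≤ J κ := by
    intro κ
    apply integral_nonneg
    intro χ
    have := hF0 (χ⁻¹ * κ)
    have := (hw4 χ).1
    show 0 ≤ w χ * (F (χ⁻¹ * κ) * ‖f (χ⁻¹ * κ)‖ ^ 2)
    positivity
  have hUB2 : I ≤ M * ∫ χ, F χ ∂ν := by
    rw [hswap, ← setIntegral_eq_integral_of_forall_compl_eq_zero hJ0]
    calc ∫ κ in L', J κ ∂lam ≤ ∫ κ in L', (∫ χ, F χ ∂ν) ∂lam := by
          apply setIntegral_mono hJint.integrableOn
            (integrableOn_const hL'c.measure_lt_top.ne)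
          exact hJle
      _ = M * ∫ χ, F χ ∂ν := by rw [setIntegral_const]; rfl
  have hLB2 : lV * (1 / 4 * ∫ χ, F χ ∂ν) ≤ I := by
    rw [hswap]
    calc lV * (1 / 4 * ∫ χ, F χ ∂ν) = ∫ κ in V, (1 / 4 * ∫ χ, F χ ∂ν) ∂lam := by
          rw [setIntegral_const]; rfl
      _ ≤ ∫ κ in V, J κ ∂lam := by
          apply setIntegral_mono_on (integrableOn_const hV.measure_lt_top.ne)
            hJint.integrableOn hV.measurableSet hJge
      _ ≤ ∫ κ, J κ ∂lam := setIntegral_le_integral hJint (Filter.Eventually.of_forall hJnn)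
  constructor
  · have h1 : W * (1 / 4 * ∫ κ, F κ ∂lam) ≤ M * ∫ χ, F χ ∂ν := hLB1.trans hUB2
    have h2 : ∫ κ, F κ ∂lam ≤ 4 * M / W * ∫ χ, F χ ∂ν := by
      rw [div_mul_eq_mul_div, le_div_iff₀ hW]; nlinarith
    have h3 : 0 ≤ 4 * W / lV * ∫ χ, F χ ∂ν := by positivity
    rw [add_mul]; linarith
  · have h1 : lV * (1 / 4 * ∫ χ, F χ ∂ν) ≤ W * ∫ κ, F κ ∂lam := hLB2.trans hUB1
    have h2 : ∫ χ, F χ ∂ν ≤ 4 * W / lV * ∫ κ, F κ ∂lam := by
      rw [div_mul_eq_mul_div, le_div_iff₀ hlVpos]; nlinarith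
    have h3 : 0 ≤ 4 * M / W * ∫ κ, F κ ∂lam := by positivity
    rw [add_mul]; linarith

end Pool.Agent.H1R3.BT
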