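import Mathlib

set_option autoImplicit false
open MeasureTheory Filter Topology Set
open scoped ComplexConjugate InnerProductSpace

namespace Pool.Agent.H1R3.BT

/-- continuous and compactly supported -/
def CC {X : Type} [TopologicalSpace X] {E : Type} [TopologicalSpace E] [Zero E] (f : X → E) : Prop :=
  Continuous f ∧ HasCompactSupport f

structure Sys (G : Type) [CommGroup G] [TopologicalSpace G] [MeasurableSpace G] (μ : Measure G)
    (H : Type) [NormedAddCommGroup H] [InnerProductSpace ℂ H] [CompleteSpace H] where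
  U : G → (H →L[ℂ] H)
  U_one : U 1 = 1
  U_mul : ∀ x y, U (x * y) = U x * U y
  U_star : ∀ x, star (U x) = U x⁻¹
  U_cont : ∀ v, Continuous fun x => U x v
  U_norm : ∀ x v, ‖U x v‖ = ‖v‖
  M : PontryaginDual G → (H →L[ℂ] H)
  M_star_mul : ∀ χ, star (M χ) * M χ = 1
  M_mul_star : ∀ χ, M χ * star (M χ) = 1
  UM : ∀ χ x, U x * M χ = (((χ x)⁻¹ : Circle) : ℂ) • (M χ * U x)
  ι : (G → ℂ) → H
  ι_add : ∀ f g, CC f → CC g → ι (f + g) = ι f + ι g
  ι_smul : ∀ (c : ℂ) f, CC f → ι (c • f) = c • ι f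
  M_ι : ∀ χ f, CC f → M χ (ι f) = ι (fun x => (χ x : ℂ) * f x)
  U_ι : ∀ x f, CC f → U x (ι f) = ι (fun y => f (x⁻¹ * y))
  inner_ι : ∀ f g, CC f → CC g → ⟪ι f, ι g⟫_ℂ = ∫ x, conj (f x) * g x ∂μ
  dense : ∀ (v : H) (ε : ℝ), 0 < ε → ∃ f, CC f ∧ ‖v - ι f‖ ≤ ε
  comm : ∀ f g, CC f → CC g → ∫ x, f x • U x (ι g) ∂μ = ∫ x, g x • U x (ι f) ∂μ

end Pool.Agent.H1R3.BT
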